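import Mathlib
import Pool.Agent.Work.MP_b0c12c_nt_helper41.Mert

/-!
# Covering an interval of length `C y` by one class for each prime in `(N, y]`
-/

set_option autoImplicit false

namespace Pool.Agent.Work.MP_3a3367_nt_h29

open Finset Filter Topology

/-- primes in `(u, v]` -/
def Pu (u v : ℕ) : Finset ℕ := (Ioc u v).filter Nat.Prime

theorem greedy (U Q : Finset ℕ) (hQ : ∀ p ∈ Q, 0 < p) :
    ∃ c : ℕ → ℕ, (#{m ∈ U | ∀ p ∈ Q, ¬ m ≡ c p [MOD p]} : ℝ) ≤ #U * ∏ p ∈ Q, (1 - 1 / (p : ℝ)) := by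
  classical
  induction Q using Finset.induction_on with
  | empty => exact ⟨fun _ => 0, by simp⟩
  | insert p Q hp ih =>
    obtain ⟨c, hc⟩ := ih fun r hr => hQ r (mem_insert_of_mem hr)
    have hp0 : 0 < p := hQ p (mem_insert_self _ _)
    have hp0' : (0 : ℝ) < p := by exact_mod_cast hp0
    set U' : Finset ℕ := {m ∈ U | ∀ r ∈ Q, ¬ m ≡ c r [MOD r]} with hU'
    have h1 : ∃ b ∈ range p, (#U' : ℝ) / p ≤ (#{m ∈ U' | m % p = b} : ℝ) := by
      by_contra hcon
      push Not at hcon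
      have e1 : #U' = ∑ b ∈ range p, #{m ∈ U' | m % p = b} :=
        card_eq_sum_card_fiberwise fun m _ => by
          simp only [coe_range, Set.mem_Iio]
          exact Nat.mod_lt _ hp0
      have e2 : (#U' : ℝ) = ∑ b ∈ range p, (#{m ∈ U' | m % p = b} : ℝ) := by exact_mod_cast e1
      have e3 : ∑ b ∈ range p, (#{m ∈ U' | m % p = b} : ℝ) < ∑ b ∈ range p, (#U' : ℝ) / p := by
        apply sum_lt_sum_of_nonempty
        · exact ⟨0, mem_range.2 hp0⟩
        · exact hcon
      rw [sum_const, card_range, nsmul_eq_mul, mul_div_cancel₀ _ hp0'.ne'] at e3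
      linarith
    obtain ⟨b, hb, hbU⟩ := h1
    rw [mem_range] at hb
    refine ⟨Function.update c p b, ?_⟩
    have h2 : {m ∈ U | ∀ r ∈ insert p Q, ¬ m ≡ Function.update c p b r [MOD r]} =
        {m ∈ U' | ¬ m % p = b} := by
      ext m
      simp only [mem_filter, mem_insert, forall_eq_or_imp, Function.update_self, hU']
      have e1 : m ≡ b [MOD p] ↔ m % p = b := by
        unfold Nat.ModEq
        rw [Nat.mod_eq_of_lt hb]
      rw [e1]
      constructor
      · rintro ⟨h3, h4, h5⟩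
        refine ⟨⟨h3, fun r hr => ?_⟩, h4⟩
        have := h5 r hr
        rwa [Function.update_of_ne (by rintro rfl; exact hp hr)] at this
      · rintro ⟨⟨h3, h4⟩, h5⟩
        refine ⟨h3, h5, fun r hr => ?_⟩
        rw [Function.update_of_ne (by rintro rfl; exact hp hr)]
        exact h4 r hr
    rw [h2]
    have h3 : #{m ∈ U' | m % p = b} + #{m ∈ U' | ¬ m % p = b} = #U' :=
      card_filter_add_card_filter_not _
    have h4 : (#{m ∈ U' | m % p = b} : ℝ) + #{m ∈ U' | ¬ m % p = b} = #U' := by exact_mod_cast h3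
    have h5 : (#{m ∈ U' | ¬ m % p = b} : ℝ) ≤ #U' * (1 - 1 / (p : ℝ)) := by
      have : (#U' : ℝ) * (1 - 1 / (p : ℝ)) = #U' - #U' / p := by ring
      rw [this]
      linarith
    refine h5.trans ?_
    rw [prod_insert hp]
    have h6 : (0 : ℝ) ≤ 1 - 1 / (p : ℝ) := by
      have : (1 : ℝ) ≤ p := by exact_mod_cast hp0
      have : 1 / (p : ℝ) ≤ 1 := by rw [div_le_one hp0']; exact this
      linarith
    calc (#U' : ℝ) * (1 - 1 / (p : ℝ)) ≤ (#U * ∏ p ∈ Q, (1 - 1 / (p : ℝ))) * (1 - 1 / (p : ℝ)) :=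
          mul_le_mul_of_nonneg_right hc h6
      _ = _ := by ring

theorem matching (R : Finset ℕ) : ∀ Q : Finset ℕ, #R ≤ #Q →
    ∃ c : ℕ → ℕ, ∀ m ∈ R, ∃ p ∈ Q, m ≡ c p [MOD p] := by
  classical
  induction R using Finset.induction_on with
  | empty => intro Q _; exact ⟨fun _ => 0, by simp⟩
  | insert m R hm ih =>
    intro Q hQ
    rw [card_insert_of_notMem hm] at hQ
    have hne : Q.Nonempty := card_pos.1 (by omega)
    obtain ⟨p, hp⟩ := hne
    obtain ⟨c, hc⟩ := ih (Q.erase p) (by rw [card_erase_of_mem hp]; omega)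
    refine ⟨Function.update c p m, ?_⟩
    intro m' hm'
    rw [mem_insert] at hm'
    rcases hm' with h | h
    · refine ⟨p, hp, ?_⟩
      rw [Function.update_self, h]
    · obtain ⟨r, hr, hr2⟩ := hc m' h
      rw [mem_erase] at hr
      refine ⟨r, hr.2, ?_⟩
      rw [Function.update_of_ne hr.1]
      exact hr2

theorem prod_small (N : ℕ) (δ : ℝ) (hδ : 0 < δ) :
    ∃ z : ℕ, N ≤ z ∧ ∏ p ∈ Pu N z, (1 - 1 / (p : ℝ)) ≤ δ := by
  obtain ⟨C, hC, hm⟩ := Pool.Agent.Work.MP_b0c12c_nt_helper41.mertens2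
  set u : ℕ := max N 2 with hu
  have hu2 : 2 ≤ u := le_max_right _ _
  have hlog2 : 0 < Real.log 2 := Real.log_pos (by norm_num)
  have hlu : 0 < Real.log u := Real.log_pos (by exact_mod_cast (by omega : 1 < u))
  have hll : Tendsto (fun z : ℕ => Real.log (Real.log (z : ℝ))) atTop atTop :=
    Real.tendsto_log_atTop.comp (Real.tendsto_log_atTop.comp tendsto_natCast_atTop_atTop)
  obtain ⟨z, hz1, hz2⟩ := ((hll.eventually_ge_atTop
    (Real.log (Real.log u) + C / Real.log u - Real.log δ)).and (eventually_ge_atTop u)).exists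
  refine ⟨z, le_trans (le_max_left _ _) hz2, ?_⟩
  have h1 := hm u z hu2 hz2
  rw [abs_le] at h1
  have hsub : Pu u z ⊆ Pu N z := by
    unfold Pu
    apply filter_subset_filter
    exact Ioc_subset_Ioc_left (le_max_left _ _)
  have hfac : ∀ p ∈ Pu N z, (0 : ℝ) ≤ 1 - 1 / (p : ℝ) ∧ 1 - 1 / (p : ℝ) ≤ 1 := by
    intro p hp
    have hp1 : (1 : ℝ) ≤ p := by exact_mod_cast (mem_filter.1 hp).2.one_lt.le
    have h2 : 1 / (p : ℝ) ≤ 1 := by rw [div_le_one (by linarith)]; exact hp1
    have h3 : 0 ≤ 1 / (p : ℝ) := by positivity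
    exact ⟨by linarith, by linarith⟩
  calc ∏ p ∈ Pu N z, (1 - 1 / (p : ℝ)) ≤ ∏ p ∈ Pu u z, (1 - 1 / (p : ℝ)) := by
        rw [← prod_sdiff hsub]
        apply mul_le_of_le_one_left
        · exact prod_nonneg fun p hp => (hfac p (hsub hp)).1
        · exact prod_le_one (fun p hp => (hfac p (sdiff_subset hp)).1)
            fun p hp => (hfac p (sdiff_subset hp)).2
    _ ≤ ∏ p ∈ Pu u z, Real.exp (-(1 / (p : ℝ))) := by
        apply Finset.prod_le_prod
        · intro p hp
          exact (hfac p (hsub hp)).1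
        · intro p _
          have := Real.add_one_le_exp (-(1 / (p : ℝ)))
          linarith
    _ = Real.exp (-∑ p ∈ Pu u z, 1 / (p : ℝ)) := by
        rw [← Real.exp_sum, sum_neg_distrib]
    _ ≤ Real.exp (Real.log δ) := by
        apply Real.exp_le_exp.2
        unfold Pu
        linarith [h1.1]
    _ = δ := Real.exp_log hδ

end Pool.Agent.Work.MP_3a3367_nt_h29
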