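import Mathlib
import Pool.Agent.Work.MP_3a3367_nt_h29.COV

/-!
# Covering an interval of length `C y` (after Westzynthius)
-/

set_option autoImplicit false

namespace Pool.Agent.Work.MP_3a3367_nt_h29

open Finset Filter Topology

theorem card_Pu_le (u v : ℕ) : #(Pu u v) ≤ Nat.primeCounting v := by
  unfold Pu
  rw [Nat.primeCounting, Nat.primeCounting', Nat.count_eq_card_filter_range]
  apply card_le_card
  intro p hp
  rw [mem_filter, mem_Ioc] at hp
  rw [mem_filter, mem_range]
  exact ⟨by omega, hp.2⟩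

theorem card_Pu_zero (v : ℕ) : #(Pu 0 v) = Nat.primeCounting v := by
  unfold Pu
  rw [Nat.primeCounting, Nat.primeCounting', Nat.count_eq_card_filter_range]
  congr 1
  ext p
  rw [mem_filter, mem_Ioc, mem_filter, mem_range]
  constructor
  · rintro ⟨h1, h2⟩; exact ⟨by omega, h2⟩
  · rintro ⟨h1, h2⟩; exact ⟨⟨h2.pos, by omega⟩, h2⟩

/-- lower bound for the number of primes -/
theorem pi_low (n : ℕ) (hn : 4 ≤ n) : (n : ℝ) / 4 ≤ (Nat.primeCounting n : ℝ) * Real.log n := by
  have hn' : (4 : ℝ) ≤ n := by exact_mod_cast hn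
  have hlog : 0 < Real.log n := Real.log_pos (by linarith)
  have h1 := Chebyshev.pi_ge n
  rw [div_le_iff₀ hlog] at h1
  refine le_trans ?_ h1
  have h2 : Real.log ((n : ℝ) + 1) ≤ 3 * Real.log 2 + (((n : ℝ) + 1) / 8 - 1) := by
    have e : (n : ℝ) + 1 = 2 ^ 3 * (((n : ℝ) + 1) / 8) := by ring
    conv_lhs => rw [e]
    rw [Real.log_mul (by norm_num) (by positivity), Real.log_pow]
    have := Real.log_le_sub_one_of_pos (x := ((n : ℝ) + 1) / 8) (by positivity)
    push_cast
    linarith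
  have h3 := Real.log_two_gt_d9
  nlinarith

/-- upper bound for the number of primes -/
theorem pi_up : ∀ᶠ n : ℕ in atTop, (Nat.primeCounting n : ℝ) * Real.log n ≤ (5 / 2) * n := by
  have h1 := Chebyshev.eventually_primeCounting_le (ε := 1) one_pos
  have h2 := tendsto_natCast_atTop_atTop (R := ℝ) |>.eventually h1
  filter_upwards [h2, eventually_ge_atTop 2] with n hn hn2
  rw [Nat.floor_natCast] at hn
  have hn' : (2 : ℝ) ≤ n := by exact_mod_cast hn2
  have hlog : 0 < Real.log n := Real.log_pos (by linarith)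
  rw [le_div_iff₀ hlog] at hn
  refine hn.trans ?_
  apply mul_le_mul_of_nonneg_right _ (by linarith)
  have h3 : Real.log 4 = 2 * Real.log 2 := by
    have : (4 : ℝ) = 2 ^ 2 := by norm_num
    rw [this, Real.log_pow]
    norm_num
  have := Real.log_two_lt_d9
  linarith

/-- many primes in `(y / 64, y]` -/
theorem many_primes : ∀ᶠ y : ℕ in atTop, (y : ℝ) / 8 ≤ (#(Pu (y / 64) y) : ℝ) * Real.log y := by
  have hdiv : Tendsto (fun y : ℕ => y / 64) atTop atTop := Nat.tendsto_div_const_atTop (by norm_num)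
  filter_upwards [hdiv.eventually pi_up, eventually_ge_atTop 300000000] with y h1 h2
  have hy : (300000000 : ℝ) ≤ y := by exact_mod_cast h2
  have hlow := pi_low y (by omega)
  have hc : Nat.primeCounting y ≤ #(Pu (y / 64) y) + Nat.primeCounting (y / 64) := by
    rw [← card_Pu_zero y, ← card_Pu_zero (y / 64), add_comm]
    refine le_trans (card_le_card ?_) (card_union_le _ _)
    intro p hp
    unfold Pu at hp ⊢
    rw [mem_filter, mem_Ioc] at hp
    rw [mem_union, mem_filter, mem_filter, mem_Ioc, mem_Ioc]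
    by_cases h : p ≤ y / 64
    · exact Or.inl ⟨⟨hp.1.1, h⟩, hp.2⟩
    · exact Or.inr ⟨⟨by omega, hp.1.2⟩, hp.2⟩
  have hc' : (Nat.primeCounting y : ℝ) ≤ #(Pu (y / 64) y) + Nat.primeCounting (y / 64) := by
    exact_mod_cast hc
  have hz1 : (((y / 64 : ℕ)) : ℝ) ≤ y / 64 := by
    have := Nat.cast_div_le (α := ℝ) (m := y) (n := 64)
    push_cast at this
    exact this
  have hz2 : (y : ℝ) / 64 < ((y / 64 : ℕ) : ℝ) + 1 := by
    have h3 : y < 64 * (y / 64 + 1) := by omega
    have h4 : (y : ℝ) < 64 * (((y / 64 : ℕ) : ℝ) + 1) := by exact_mod_cast h3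
    linarith
  have hlogy : 0 < Real.log y := Real.log_pos (by linarith)
  -- log (y / 64) ≥ (3/4) log y
  have hlz : 3 / 4 * Real.log y ≤ Real.log ((y / 64 : ℕ) : ℝ) := by
    have h3 : (y : ℝ) / 128 ≤ ((y / 64 : ℕ) : ℝ) := by linarith
    have h4 := Real.log_le_log (by positivity) h3
    rw [Real.log_div (by positivity) (by norm_num)] at h4
    have h5 : 4 * Real.log 128 ≤ Real.log y := by
      have : (4 : ℝ) * Real.log 128 = Real.log (128 ^ 4) := by rw [Real.log_pow]; norm_num
      rw [this]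
      apply Real.log_le_log (by norm_num)
      norm_num
      linarith
    linarith
  have h6 : (Nat.primeCounting (y / 64) : ℝ) * Real.log y ≤ (4 / 3) * ((5 / 2) * (y / 64)) := by
    have h7 : (0 : ℝ) ≤ Nat.primeCounting (y / 64) := Nat.cast_nonneg _
    have h8 := mul_le_mul_of_nonneg_left hlz h7
    linarith
  have h9 := mul_le_mul_of_nonneg_right hc' hlogy.le
  nlinarith

/-- the integers up to `C y` without prime factors in `(z, y / 64]` -/
theorem count_rest (C : ℕ) (hC : 1 ≤ C) (z : ℕ) : ∀ᶠ y : ℕ in atTop,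
    (#{j ∈ Icc 1 (C * y) | ∀ p ∈ Pu z (y / 64), ¬ p ∣ j} : ℝ) * Real.log y ≤
      (320 * C ^ 2 + 1) * y := by
  have hCy : Tendsto (fun y : ℕ => C * y) atTop atTop := by
    apply tendsto_atTop_mono (fun y => ?_) tendsto_id
    simp only [id]
    nlinarith
  have hsm : ∀ᶠ y : ℕ in atTop,
      ((2 : ℝ) ^ #(z + 1).primesBelow * Real.sqrt C * (Real.sqrt y * Real.log y)) ≤ y := by
    have h1 : Tendsto (fun x : ℝ => Real.log x / x ^ (1 / 2 : ℝ)) atTop (𝓝 0) :=
      (isLittleO_log_rpow_atTop (by norm_num : (0 : ℝ) < 1 / 2)).tendsto_div_nhds_zero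
    set K : ℝ := (2 : ℝ) ^ #(z + 1).primesBelow * Real.sqrt C with hK
    have hK0 : 0 < K := by
      have : (0 : ℝ) < Real.sqrt C := Real.sqrt_pos.2 (by exact_mod_cast (by omega : 0 < C))
      positivity
    have h2 : ∀ᶠ x : ℝ in atTop, Real.log x / x ^ (1 / 2 : ℝ) ≤ 1 / K :=
      (h1.eventually (gt_mem_nhds (by positivity : (0 : ℝ) < 1 / K))).mono fun u hu => hu.le
    have h3 := (tendsto_natCast_atTop_atTop (R := ℝ)).eventually h2
    filter_upwards [h3, eventually_ge_atTop 1] with y hy hy1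
    have hy0 : (0 : ℝ) < y := by exact_mod_cast (by omega : 0 < y)
    rw [← Real.sqrt_eq_rpow, div_le_div_iff₀ (Real.sqrt_pos.2 hy0) hK0, one_mul] at hy
    have h4 := Real.mul_self_sqrt hy0.le
    have h5 := mul_le_mul_of_nonneg_left hy (Real.sqrt_nonneg (y : ℝ))
    linarith
  filter_upwards [hCy.eventually pi_up, hsm, eventually_ge_atTop 200] with y h1 h2 h3
  have hy : (200 : ℝ) ≤ y := by exact_mod_cast h3
  have hlogy : 0 < Real.log y := Real.log_pos (by linarith)
  have hC' : (1 : ℝ) ≤ C := by exact_mod_cast hC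
  -- the inclusion
  have hsub : {j ∈ Icc 1 (C * y) | ∀ p ∈ Pu z (y / 64), ¬ p ∣ j} ⊆
      Nat.smoothNumbersUpTo (C * y) (z + 1) ∪
        ((Pu 0 (C * y)) ×ˢ (range (128 * C))).image (fun t => t.1 * t.2) := by
    intro j hj
    rw [mem_filter, mem_Icc] at hj
    obtain ⟨⟨hj1, hj2⟩, hj3⟩ := hj
    rw [mem_union]
    by_cases hbig : ∃ p : ℕ, p.Prime ∧ p ∣ j ∧ y / 64 < p
    · right
      obtain ⟨p, hp, ⟨s, hs⟩, hpy⟩ := hbig
      rw [mem_image]
      refine ⟨(p, s), ?_, hs.symm⟩
      rw [mem_product, mem_range]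
      unfold Pu
      rw [mem_filter, mem_Ioc]
      have hple : p ≤ j := Nat.le_of_dvd (by omega) ⟨s, hs⟩
      refine ⟨⟨⟨hp.pos, by omega⟩, hp⟩, ?_⟩
      -- s < 128 C
      have h4 : y < 64 * p := by omega
      by_contra hcon
      rw [not_lt] at hcon
      have h5 : 64 * (p * s) ≤ 64 * (C * y) := by
        rw [← hs]
        omega
      have h6 : 64 * p * (128 * C) ≤ 64 * (p * s) := by
        calc 64 * p * (128 * C) ≤ 64 * p * s := Nat.mul_le_mul_left _ hcon
          _ = _ := by ring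
      have h7 : y * (128 * C) ≤ 64 * p * (128 * C) := Nat.mul_le_mul_right _ h4.le
      have h8 : y * (128 * C) ≤ 64 * (C * y) := h7.trans (h6.trans h5)
      have h9 : 0 < C * y := Nat.mul_pos (by omega) (by omega)
      nlinarith
    · left
      push Not at hbig
      rw [Nat.mem_smoothNumbersUpTo, Nat.mem_smoothNumbers']
      refine ⟨hj2, fun p hp hpj => ?_⟩
      have h4 := hbig p hp hpj
      by_contra hcon
      apply hj3 p _ hpj
      unfold Pu
      rw [mem_filter, mem_Ioc]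
      exact ⟨⟨by omega, h4⟩, hp⟩
  have hcard : (#{j ∈ Icc 1 (C * y) | ∀ p ∈ Pu z (y / 64), ¬ p ∣ j} : ℝ) ≤
      (2 : ℝ) ^ #(z + 1).primesBelow * Real.sqrt (C * y) +
        (Nat.primeCounting (C * y) : ℝ) * (128 * C) := by
    have e1 := (card_le_card hsub).trans (card_union_le _ _)
    have e2 := Nat.smoothNumbersUpTo_card_le (C * y) (z + 1)
    have e3 : #(((Pu 0 (C * y)) ×ˢ (range (128 * C))).image (fun t : ℕ × ℕ => t.1 * t.2)) ≤
        Nat.primeCounting (C * y) * (128 * C) := by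
      refine card_image_le.trans ?_
      rw [card_product, card_range, card_Pu_zero]
    have e4 : #{j ∈ Icc 1 (C * y) | ∀ p ∈ Pu z (y / 64), ¬ p ∣ j} ≤
        2 ^ #(z + 1).primesBelow * Nat.sqrt (C * y) + Nat.primeCounting (C * y) * (128 * C) := by
      omega
    have e5 : (#{j ∈ Icc 1 (C * y) | ∀ p ∈ Pu z (y / 64), ¬ p ∣ j} : ℝ) ≤
        2 ^ #(z + 1).primesBelow * (Nat.sqrt (C * y) : ℝ) +
          (Nat.primeCounting (C * y) : ℝ) * (128 * C) := by exact_mod_cast e4
    refine e5.trans ?_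
    have e6 : (Nat.sqrt (C * y) : ℝ) ≤ Real.sqrt (C * y) := by
      have := Real.nat_sqrt_le_real_sqrt (a := C * y)
      push_cast at this
      exact this
    have e7 := mul_le_mul_of_nonneg_left e6 (show (0 : ℝ) ≤ 2 ^ #(z + 1).primesBelow by positivity)
    linarith
  have h4 := mul_le_mul_of_nonneg_right hcard hlogy.le
  refine h4.trans ?_
  rw [Real.sqrt_mul (by positivity)]
  have h5 : (Nat.primeCounting (C * y) : ℝ) * Real.log y ≤ (5 / 2) * (C * y) := by
    have e1 : Real.log y ≤ Real.log ((C * y : ℕ) : ℝ) := by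
      apply Real.log_le_log (by linarith)
      push_cast
      nlinarith
    have e2 := mul_le_mul_of_nonneg_left e1 (Nat.cast_nonneg (α := ℝ) (Nat.primeCounting (C * y)))
    push_cast at h1 e2
    linarith
  have h6 : (Nat.primeCounting (C * y) : ℝ) * (128 * C) * Real.log y ≤ 320 * C ^ 2 * y := by
    have := mul_le_mul_of_nonneg_right h5 (show (0 : ℝ) ≤ 128 * C by positivity)
    nlinarith
  nlinarith

end Pool.Agent.Work.MP_3a3367_nt_h29
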