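import Mathlib
import Pool.Agent.Work.MP_3a3367_nt_h29.COVb

/-!
# Covering windows at infinitely many odd squares
-/

set_option autoImplicit false

namespace Pool.Agent.Work.MP_3a3367_nt_h29

open Finset Filter Topology

theorem cover (C N : ℕ) (hC : 1 ≤ C) : ∃ y0 : ℕ, ∀ y : ℕ, y0 ≤ y → ∀ a : ℕ, ∃ c : ℕ → ℕ,
    ∀ m ∈ Ico a (a + C * y), ∃ p : ℕ, p.Prime ∧ N < p ∧ p ≤ y ∧ m ≡ c p [MOD p] := by
  classical
  have hK : (0 : ℝ) < 320 * (C : ℝ) ^ 2 + 1 := by positivity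
  obtain ⟨z, hNz, hz⟩ := prod_small N (1 / (16 * (320 * (C : ℝ) ^ 2 + 1))) (by positivity)
  obtain ⟨y0, hy0⟩ := eventually_atTop.1 ((count_rest C hC z).and (many_primes.and
    (eventually_ge_atTop (64 * z + 64))))
  refine ⟨y0, ?_⟩
  intro y hy a
  obtain ⟨h1, h2, h3⟩ := hy0 y hy
  have hzy : z < y / 64 := by omega
  set U0 : Finset ℕ := {j ∈ Icc 1 (C * y) | ∀ p ∈ Pu z (y / 64), ¬ p ∣ j} with hU0
  obtain ⟨c1, hc1⟩ := greedy U0 (Pu N z) (fun p hp => (mem_filter.1 hp).2.pos)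
  set R0 : Finset ℕ := {j ∈ U0 | ∀ p ∈ Pu N z, ¬ j ≡ c1 p [MOD p]} with hR0
  have hy1 : (64 : ℝ) ≤ y := by exact_mod_cast (by omega : 64 ≤ y)
  have hlogy : 0 < Real.log y := Real.log_pos (by linarith)
  have hcard : #R0 ≤ #(Pu (y / 64) y) := by
    have e1 : (#R0 : ℝ) ≤ #U0 * (1 / (16 * (320 * (C : ℝ) ^ 2 + 1))) :=
      hc1.trans (mul_le_mul_of_nonneg_left hz (Nat.cast_nonneg _))
    have e2 : (#R0 : ℝ) * Real.log y ≤ (#(Pu (y / 64) y) : ℝ) * Real.log y := by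
      refine le_trans ?_ h2
      calc (#R0 : ℝ) * Real.log y ≤ #U0 * (1 / (16 * (320 * (C : ℝ) ^ 2 + 1))) * Real.log y :=
            mul_le_mul_of_nonneg_right e1 hlogy.le
        _ = (#U0 * Real.log y) * (1 / (16 * (320 * (C : ℝ) ^ 2 + 1))) := by ring
        _ ≤ ((320 * (C : ℝ) ^ 2 + 1) * y) * (1 / (16 * (320 * (C : ℝ) ^ 2 + 1))) := by
            apply mul_le_mul_of_nonneg_right h1
            positivity
        _ = (y : ℝ) / 16 := by field_simp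
        _ ≤ (y : ℝ) / 8 := by linarith
    have e3 := le_of_mul_le_mul_right e2 hlogy
    exact_mod_cast e3
  obtain ⟨c2, hc2⟩ := matching R0 (Pu (y / 64) y) hcard
  set c' : ℕ → ℕ := fun p => if p ≤ z then c1 p else if p ≤ y / 64 then 0 else c2 p with hc'
  refine ⟨fun p => c' p + a + (p - 1), ?_⟩
  intro m hm
  rw [mem_Ico] at hm
  set j : ℕ := m - a + 1 with hj
  have hjm : m + 1 = j + a := by omega
  have hjr : j ∈ Icc 1 (C * y) := by
    rw [mem_Icc]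
    omega
  -- transport
  have key : ∀ p : ℕ, p.Prime → j ≡ c' p [MOD p] → m ≡ c' p + a + (p - 1) [MOD p] := by
    intro p hp h
    have hp1 := hp.one_lt
    have e1 : m + p = j + a + (p - 1) := by omega
    have e2 : m ≡ m + p [MOD p] := by
      unfold Nat.ModEq
      rw [Nat.add_mod_right]
    rw [e1] at e2
    exact e2.trans ((h.add_right a).add_right (p - 1))
  by_cases h4 : ∃ p ∈ Pu z (y / 64), p ∣ j
  · obtain ⟨p, hp, hpj⟩ := h4
    have hp' := hp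
    unfold Pu at hp'
    rw [mem_filter, mem_Ioc] at hp'
    refine ⟨p, hp'.2, by omega, by omega, key p hp'.2 ?_⟩
    simp only [hc']
    rw [if_neg (by omega), if_pos hp'.1.2]
    exact (Nat.modEq_zero_iff_dvd).2 hpj
  · push Not at h4
    have hjU : j ∈ U0 := by
      rw [hU0, mem_filter]
      exact ⟨hjr, h4⟩
    by_cases h5 : ∃ p ∈ Pu N z, j ≡ c1 p [MOD p]
    · obtain ⟨p, hp, hpj⟩ := h5
      have hp' := hp
      unfold Pu at hp'
      rw [mem_filter, mem_Ioc] at hp'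
      refine ⟨p, hp'.2, hp'.1.1, by omega, key p hp'.2 ?_⟩
      simp only [hc']
      rw [if_pos hp'.1.2]
      exact hpj
    · push Not at h5
      have hjR : j ∈ R0 := by
        rw [hR0, mem_filter]
        exact ⟨hjU, h5⟩
      obtain ⟨p, hp, hpj⟩ := hc2 j hjR
      have hp' := hp
      unfold Pu at hp'
      rw [mem_filter, mem_Ioc] at hp'
      refine ⟨p, hp'.2, by omega, hp'.1.2, key p hp'.2 ?_⟩
      simp only [hc']
      rw [if_neg (by omega), if_neg (by omega)]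
      exact hpj

theorem seq : ∃ c : ℕ → ℕ, ∀ C K : ℕ, ∃ k : ℕ, K ≤ k ∧ ∀ m : ℕ, (2 * k + 1) ^ 2 < m →
    m ≤ (2 * k + 1) ^ 2 + C * (2 * k + 1) →
    ∃ p : ℕ, p.Prime ∧ K < p ∧ p ≤ 2 * k + 1 ∧ m ≡ c p [MOD p] := by
  have h0 : ∀ i N : ℕ, ∃ y0 : ℕ, ∀ y : ℕ, y0 ≤ y → ∀ a : ℕ, ∃ c : ℕ → ℕ,
    ∀ m ∈ Ico a (a + (i + 1) * y), ∃ p : ℕ, p.Prime ∧ N < p ∧ p ≤ y ∧ m ≡ c p [MOD p] :=
    fun i N => cover (i + 1) N (by omega)
  choose Y0 hY0 using h0
  -- the scales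
  let Ns : ℕ → ℕ := fun i => Nat.rec 0 (fun i N => 2 * (Y0 i N + N + 1) + 1) i
  have hNs : ∀ i, Ns (i + 1) = 2 * (Y0 i (Ns i) + Ns i + 1) + 1 := fun i => rfl
  have hlt : ∀ i, Ns i < Ns (i + 1) := fun i => by rw [hNs]; omega
  have hmono : StrictMono Ns := strictMono_nat_of_lt_succ hlt
  have hge : ∀ i, i ≤ Ns i := fun i => hmono.le_apply
  have h1 : ∀ i, ∃ c : ℕ → ℕ, ∀ m ∈ Ico (Ns (i + 1) ^ 2 + 1) (Ns (i + 1) ^ 2 + 1 +
      (i + 1) * Ns (i + 1)), ∃ p : ℕ, p.Prime ∧ Ns i < p ∧ p ≤ Ns (i + 1) ∧ m ≡ c p [MOD p] :=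
    fun i => hY0 i (Ns i) (Ns (i + 1)) (by rw [hNs]; omega) _
  choose cs hcs using h1
  have hex : ∀ p : ℕ, ∃ i, p ≤ Ns (i + 1) := fun p => ⟨p, by have := hge (p + 1); omega⟩
  refine ⟨fun p => cs (Nat.find (hex p)) p, ?_⟩
  intro C K
  set i : ℕ := max C K with hi
  have hiC : C ≤ i := le_max_left _ _
  have hiK : K ≤ i := le_max_right _ _
  refine ⟨Y0 i (Ns i) + Ns i + 1, ?_, ?_⟩
  · have := hge i
    omega
  · intro m hm1 hm2
    rw [← hNs] at hm1 hm2 ⊢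
    obtain ⟨p, hp, hp1, hp2, hp3⟩ := hcs i m (by
      rw [mem_Ico]
      constructor
      · omega
      · have e1 : C * Ns (i + 1) ≤ i * Ns (i + 1) := Nat.mul_le_mul_right _ hiC
        have e2 : (i + 1) * Ns (i + 1) = i * Ns (i + 1) + Ns (i + 1) := by ring
        omega)
    refine ⟨p, hp, ?_, hp2, ?_⟩
    · have := hge i
      omega
    · have hfind : Nat.find (hex p) = i := by
        rw [Nat.find_eq_iff]
        refine ⟨hp2, fun j hj hpj => ?_⟩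
        have : Ns (j + 1) ≤ Ns i := hmono.monotone (show j + 1 ≤ i by omega)
        omega
      simp only [hfind]
      exact hp3

end Pool.Agent.Work.MP_3a3367_nt_h29
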