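import Mathlib
import Pool.Agent.Work.MP_18694c_nt.Sieve

/-!
# Brun's pure sieve, both sides, in a residue class
-/

set_option autoImplicit false

namespace Pool.Agent.Work.MP_3a3367_nt_h29

open Finset
open Pool.Agent.Work.MP_18694c_nt (count_coprime periodic_all count_all count_interval bonferroni)

/-- Pointwise Bonferroni inequality, upper bound. -/
lemma bonferroni_point_even {α : Type*} [DecidableEq α] (A : Finset α) (J : ℕ) (hJ : Even J) :
    (if A = ∅ then 1 else 0) ≤ ∑ T ∈ A.powerset with #T ≤ J, (-1 : ℤ) ^ #T := by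
  have h1 : ∑ T ∈ A.powerset with #T ≤ J, (-1 : ℤ) ^ #T
      = ∑ m ∈ range (#A + 1), (#A).choose m • (if m ≤ J then (-1 : ℤ) ^ m else 0) := by
    rw [sum_filter]
    exact sum_powerset_apply_card (fun j => if j ≤ J then (-1 : ℤ) ^ j else 0)
  rw [h1]
  rcases Nat.eq_zero_or_pos #A with h0 | h0
  · have : A = ∅ := card_eq_zero.mp h0
    subst this
    simp
  · obtain ⟨N, hN⟩ : ∃ N, #A = N + 1 := ⟨#A - 1, by omega⟩
    have hA : A ≠ ∅ := by
      rintro rfl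
      simp at h0
    rw [if_neg hA, hN]
    have h2 : ∑ m ∈ range (N + 1 + 1), (N + 1).choose m • (if m ≤ J then (-1 : ℤ) ^ m else 0)
        = ∑ m ∈ range (J + 1), (-1 : ℤ) ^ m * (N + 1).choose m := by
      have h3 : ∀ m, (N + 1).choose m • (if m ≤ J then (-1 : ℤ) ^ m else 0)
        = if m ∈ range (J + 1) then (-1 : ℤ) ^ m * (N + 1).choose m else 0 := by
        intro m
        rw [nsmul_eq_mul]
        by_cases hm : m ≤ J
        · rw [if_pos hm, if_pos (mem_range.mpr (by omega))]; ring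
        · rw [if_neg hm, if_neg (by rw [mem_range]; omega)]; ring
      simp_rw [h3]
      rw [← sum_filter]
      apply sum_subset_zero_on_sdiff
      · intro x hx
        exact (mem_filter.mp hx).2
      · intro x hx
        rw [mem_sdiff, mem_filter, mem_range, mem_range] at hx
        have : N + 1 < x := by
          by_contra hcon
          exact hx.2 ⟨by omega, hx.1⟩
        rw [Nat.choose_eq_zero_of_lt this]
        simp
      · intros; rfl
    rw [h2, Int.alternating_sum_range_choose_eq_choose, hJ.neg_one_pow]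
    have : (0 : ℤ) ≤ N.choose J := by positivity
    linarith

/-- Truncated inclusion-exclusion, upper bound. -/
lemma bonferroni_even (I : Finset ℕ) (S : Finset ℕ) (E : ℕ → ℕ → Prop) [∀ p, DecidablePred (E p)]
    (J : ℕ) (hJ : Even J) :
    (#{m ∈ I | ∀ p ∈ S, ¬ E p m} : ℤ) ≤
    ∑ T ∈ S.powerset with #T ≤ J, (-1 : ℤ) ^ #T * #{m ∈ I | ∀ p ∈ T, E p m} := by
  have h1 : ∀ T : Finset ℕ, ((#{m ∈ I | ∀ p ∈ T, E p m} : ℕ) : ℤ)
      = ∑ m ∈ I, if ∀ p ∈ T, E p m then (1 : ℤ) else 0 := by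
    intro T
    rw [sum_boole]
  simp_rw [h1, mul_sum]
  rw [sum_comm (s := {T ∈ S.powerset | #T ≤ J})]
  have h2 : ((#{m ∈ I | ∀ p ∈ S, ¬ E p m} : ℕ) : ℤ)
      = ∑ m ∈ I, if ∀ p ∈ S, ¬ E p m then (1 : ℤ) else 0 := by
    rw [sum_boole]
  rw [h2]
  apply sum_le_sum
  intro m _
  have h3 := bonferroni_point_even ({p ∈ S | E p m}) J hJ
  have h4 : (({p ∈ S | E p m} : Finset ℕ) = ∅) ↔ ∀ p ∈ S, ¬ E p m := by
    rw [filter_eq_empty_iff]
  simp only [h4] at h3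
  refine le_trans h3 (le_of_eq ?_)
  rw [sum_filter, sum_filter]
  apply sum_subset_zero_on_sdiff
  · exact powerset_mono.mpr (filter_subset _ _)
  · intro T hT
    rw [mem_sdiff, mem_powerset, mem_powerset] at hT
    have : ¬ ∀ p ∈ T, E p m := by
      intro hcon
      apply hT.2
      intro p hp
      exact mem_filter.mpr ⟨hT.1 hp, hcon p hp⟩
    simp [this]
  · intro T hT
    rw [mem_powerset] at hT
    have : ∀ p ∈ T, E p m := fun p hp => (mem_filter.mp (hT hp)).2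
    rw [if_pos this, mul_one]

lemma one_class (p : ℕ) (hp : 0 < p) (c : ℕ) : #{m ∈ range p | m ≡ c [MOD p]} = 1 := by
  have h5 : (range p).filter (fun m => m ≡ c [MOD p]) = {c % p} := by
    ext m
    simp only [mem_filter, mem_range, mem_singleton]
    constructor
    · rintro ⟨h6, h7⟩
      rw [← Nat.mod_eq_of_lt h6]
      exact h7
    · rintro rfl
      exact ⟨Nat.mod_lt _ hp, Nat.mod_modEq _ _⟩
  rw [h5]
  simp

lemma per_class (p c : ℕ) : Function.Periodic (fun m => m ≡ c [MOD p]) p := by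
  intro m
  simp only [eq_iff_iff]
  unfold Nat.ModEq
  rw [Nat.add_mod_right]

/-- the number of elements of an interval in an intersection of classes -/
lemma count_classes (T : Finset ℕ) (hT : ∀ p ∈ T, p.Prime) (q : ℕ) (hq : 0 < q)
    (hqT : ∀ p ∈ T, Nat.Coprime q p) (b : ℕ) (c : ℕ → ℕ) (a X : ℕ) :
    |((#{m ∈ {m ∈ Ico a (a + X) | m ≡ b [MOD q]} | ∀ p ∈ T, m ≡ c p [MOD p]} : ℕ) : ℝ) -
      X / q * ∏ p ∈ T, (1 / (p : ℝ))| ≤ 1 := by
  have hpos : 0 < ∏ p ∈ T, p := Finset.prod_pos fun p hp => (hT p hp).pos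
  have hcop : Nat.Coprime q (∏ p ∈ T, p) := Nat.Coprime.prod_right hqT
  have h1 := count_coprime q (∏ p ∈ T, p) hcop hq hpos (fun m => m ≡ b [MOD q])
    (fun m => ∀ p ∈ T, m ≡ c p [MOD p]) (per_class q b)
    (periodic_all T (fun p m => m ≡ c p [MOD p]) fun p _ => per_class p (c p))
  rw [one_class q hq, count_all T hT (fun p m => m ≡ c p [MOD p]) fun p _ => per_class p (c p)] at h1
  have h2 : ∏ p ∈ T, #{m ∈ range p | m ≡ c p [MOD p]} = 1 :=
    prod_eq_one fun p hp => one_class p (hT p hp).pos (c p)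
  rw [h2, mul_one] at h1
  have hper : Function.Periodic (fun m => m ≡ b [MOD q] ∧ ∀ p ∈ T, m ≡ c p [MOD p])
      (q * ∏ p ∈ T, p) := by
    intro m
    have e1 := ((per_class q b).nat_mul (∏ p ∈ T, p)) m
    have e2 := ((periodic_all T (fun p m => m ≡ c p [MOD p])
      fun p _ => per_class p (c p)).nat_mul q) m
    simp only [Nat.cast_id, eq_iff_iff] at e1 e2
    simp only [eq_iff_iff]
    rw [mul_comm q (∏ p ∈ T, p)]
    rw [mul_comm q (∏ p ∈ T, p)] at e2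
    rw [e1, e2]
  have h3 := count_interval (q * ∏ p ∈ T, p) (Nat.mul_pos hq hpos)
    (fun m => m ≡ b [MOD q] ∧ ∀ p ∈ T, m ≡ c p [MOD p]) hper a X
  rw [h1] at h3
  rw [filter_filter]
  have h4 : ((1 : ℕ) : ℝ) * ((X : ℝ) / ((q * ∏ p ∈ T, p : ℕ) : ℝ)) =
      X / q * ∏ p ∈ T, (1 / (p : ℝ)) := by
    rw [prod_div_distrib, prod_const_one]
    push_cast
    have hq' : (q : ℝ) ≠ 0 := by exact_mod_cast hq.ne'
    have hP' : (∏ p ∈ T, (p : ℝ)) ≠ 0 := by
      rw [← Nat.cast_prod]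
      exact_mod_cast hpos.ne'
    field_simp
  rw [h4] at h3
  simpa using h3

/-- Brun's pure sieve in a residue class: main term, tail and error -/
theorem brun_main (S : Finset ℕ) (hS : ∀ p ∈ S, p.Prime) (q : ℕ) (hq : 0 < q)
    (hqS : ∀ p ∈ S, Nat.Coprime q p) (b : ℕ) (c : ℕ → ℕ) (L Y : ℝ)
    (hL : ∑ p ∈ S, 1 / (p : ℝ) ≤ L) (hY1 : 1 ≤ Y) (hY : (#S : ℝ) ≤ Y) (J : ℕ) (a X : ℕ) :
    |(∑ T ∈ S.powerset with #T ≤ J, (-1 : ℝ) ^ #T *
      (#{m ∈ {m ∈ Ico a (a + X) | m ≡ b [MOD q]} | ∀ p ∈ T, m ≡ c p [MOD p]} : ℕ)) -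
      X / q * ∏ p ∈ S, (1 - 1 / (p : ℝ))| ≤
      X / q * ((2 ^ J)⁻¹ * Real.exp (2 * L)) + Y ^ J * Real.exp 1 := by
  classical
  have hx0 : ∀ p ∈ S, (0 : ℝ) ≤ 1 / (p : ℝ) := fun p _ => by positivity
  have hXq : (0 : ℝ) ≤ X / q := by positivity
  have e1 : ∏ p ∈ S, (1 - 1 / (p : ℝ)) = ∑ T ∈ S.powerset, (-1 : ℝ) ^ #T * ∏ p ∈ T, (1 / (p : ℝ)) := by
    have := Finset.prod_one_add (f := fun p : ℕ => -(1 / (p : ℝ))) S
    simp only [← sub_eq_add_neg] at this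
    rw [this]
    refine sum_congr rfl fun T _ => ?_
    rw [prod_neg]
  have e3 : ∑ T ∈ S.powerset, (-1 : ℝ) ^ #T * ∏ p ∈ T, (1 / (p : ℝ))
      = ∑ T ∈ S.powerset with #T ≤ J, (-1 : ℝ) ^ #T * ∏ p ∈ T, (1 / (p : ℝ))
      + ∑ T ∈ S.powerset with ¬ #T ≤ J, (-1 : ℝ) ^ #T * ∏ p ∈ T, (1 / (p : ℝ)) :=
    (sum_filter_add_sum_filter_not _ _ _).symm
  have e4 : |∑ T ∈ S.powerset with ¬ #T ≤ J, (-1 : ℝ) ^ #T * ∏ p ∈ T, (1 / (p : ℝ))|
      ≤ (2 ^ J)⁻¹ * Real.exp (2 * L) := by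
    calc |∑ T ∈ S.powerset with ¬ #T ≤ J, (-1 : ℝ) ^ #T * ∏ p ∈ T, (1 / (p : ℝ))|
        ≤ ∑ T ∈ S.powerset with ¬ #T ≤ J, |(-1 : ℝ) ^ #T * ∏ p ∈ T, (1 / (p : ℝ))| :=
          abs_sum_le_sum_abs _ _
      _ ≤ ∑ T ∈ S.powerset with ¬ #T ≤ J, (2 ^ J)⁻¹ * ∏ p ∈ T, (2 * (1 / (p : ℝ))) := by
          apply sum_le_sum
          intro T hT
          rw [mem_filter, mem_powerset] at hT
          have hP : 0 ≤ ∏ p ∈ T, (1 / (p : ℝ)) :=
            prod_nonneg fun p hp => hx0 p (hT.1 hp)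
          rw [abs_mul, abs_of_nonneg hP, abs_pow, abs_neg, abs_one, one_pow, one_mul,
            prod_mul_distrib, prod_const, ← mul_assoc]
          have h1 : (1 : ℝ) ≤ (2 ^ J)⁻¹ * 2 ^ #T := by
            rw [inv_mul_eq_div, one_le_div (by positivity)]
            exact pow_le_pow_right₀ (by norm_num) (by omega)
          nlinarith
      _ ≤ ∑ T ∈ S.powerset, (2 ^ J)⁻¹ * ∏ p ∈ T, (2 * (1 / (p : ℝ))) := by
          apply sum_le_sum_of_subset_of_nonneg (filter_subset _ _)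
          intro T hT _
          rw [mem_powerset] at hT
          apply mul_nonneg (by positivity)
          exact prod_nonneg fun p hp => mul_nonneg (by norm_num) (hx0 p (hT hp))
      _ = (2 ^ J)⁻¹ * ∏ p ∈ S, (1 + 2 * (1 / (p : ℝ))) := by
          rw [← mul_sum, Finset.prod_one_add]
      _ ≤ (2 ^ J)⁻¹ * Real.exp (2 * L) := by
          apply mul_le_mul_of_nonneg_left _ (by positivity)
          calc ∏ p ∈ S, (1 + 2 * (1 / (p : ℝ))) ≤ ∏ p ∈ S, Real.exp (2 * (1 / (p : ℝ))) := by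
                apply Finset.prod_le_prod
                · intro p hp
                  have := hx0 p hp
                  linarith
                · intro p _
                  have := Real.add_one_le_exp (2 * (1 / (p : ℝ)))
                  linarith
            _ = Real.exp (∑ p ∈ S, 2 * (1 / (p : ℝ))) := (Real.exp_sum _ _).symm
            _ ≤ Real.exp (2 * L) := by
                apply Real.exp_le_exp.mpr
                rw [← mul_sum]
                linarith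
  have herr : (∑ T ∈ S.powerset with #T ≤ J, (1 : ℝ)) ≤ Y ^ J * Real.exp 1 := by
    have hYpos : 0 < Y := by linarith
    calc (∑ T ∈ S.powerset with #T ≤ J, (1 : ℝ))
        ≤ ∑ T ∈ S.powerset with #T ≤ J, Y ^ J * ∏ p ∈ T, (1 / Y) := by
          apply sum_le_sum
          intro T hT
          rw [mem_filter, mem_powerset] at hT
          rw [prod_const, one_div, inv_pow, ← div_eq_mul_inv, le_div_iff₀ (by positivity), one_mul]
          exact pow_le_pow_right₀ hY1 hT.2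
      _ ≤ ∑ T ∈ S.powerset, Y ^ J * ∏ p ∈ T, (1 / Y) := by
          apply sum_le_sum_of_subset_of_nonneg (filter_subset _ _)
          intro T hT _
          positivity
      _ = Y ^ J * ∏ p ∈ S, (1 + 1 / Y) := by
          rw [← mul_sum, Finset.prod_one_add]
      _ ≤ Y ^ J * Real.exp 1 := by
          apply mul_le_mul_of_nonneg_left _ (by positivity)
          calc ∏ p ∈ S, (1 + 1 / Y) ≤ ∏ p ∈ S, Real.exp (1 / Y) := by
                apply Finset.prod_le_prod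
                · intro p hp
                  positivity
                · intro p _
                  have := Real.add_one_le_exp (1 / Y)
                  linarith
            _ = Real.exp (∑ p ∈ S, 1 / Y) := (Real.exp_sum _ _).symm
            _ ≤ Real.exp 1 := by
                apply Real.exp_le_exp.mpr
                rw [sum_const, nsmul_eq_mul, mul_one_div, div_le_one hYpos]
                exact hY
  set cT : Finset ℕ → ℝ := fun T =>
    ((#{m ∈ {m ∈ Ico a (a + X) | m ≡ b [MOD q]} | ∀ p ∈ T, m ≡ c p [MOD p]} : ℕ) : ℝ) with hcT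
  have hcount : ∀ T ∈ S.powerset.filter (fun T => #T ≤ J),
      |(-1 : ℝ) ^ #T * cT T - X / q * ((-1 : ℝ) ^ #T * ∏ p ∈ T, (1 / (p : ℝ)))| ≤ 1 := by
    intro T hT
    have hTS := mem_powerset.1 (mem_filter.1 hT).1
    have h1 := count_classes T (fun p hp => hS p (hTS hp)) q hq (fun p hp => hqS p (hTS hp)) b c a X
    have h2 : (-1 : ℝ) ^ #T * cT T - X / q * ((-1 : ℝ) ^ #T * ∏ p ∈ T, (1 / (p : ℝ))) =
        (-1 : ℝ) ^ #T * (cT T - X / q * ∏ p ∈ T, (1 / (p : ℝ))) := by ring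
    rw [h2, abs_mul, abs_pow, abs_neg, abs_one, one_pow, one_mul]
    exact h1
  have h5 : |∑ T ∈ S.powerset with #T ≤ J, ((-1 : ℝ) ^ #T * cT T -
      X / q * ((-1 : ℝ) ^ #T * ∏ p ∈ T, (1 / (p : ℝ))))| ≤ Y ^ J * Real.exp 1 :=
    (abs_sum_le_sum_abs _ _).trans ((sum_le_sum hcount).trans herr)
  rw [sum_sub_distrib, ← mul_sum] at h5
  rw [e1, e3]
  set s1 := ∑ T ∈ S.powerset with #T ≤ J, (-1 : ℝ) ^ #T * cT T
  set s2 := ∑ T ∈ S.powerset with #T ≤ J, (-1 : ℝ) ^ #T * ∏ p ∈ T, (1 / (p : ℝ))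
  set s3 := ∑ T ∈ S.powerset with ¬ #T ≤ J, (-1 : ℝ) ^ #T * ∏ p ∈ T, (1 / (p : ℝ))
  have h6 : s1 - X / q * (s2 + s3) = (s1 - X / q * s2) + -(X / q * s3) := by ring
  rw [h6]
  refine (abs_add_le _ _).trans ?_
  rw [abs_neg, abs_mul, abs_of_nonneg hXq]
  have h7 := mul_le_mul_of_nonneg_left e4 hXq
  linarith

theorem brun_lower (S : Finset ℕ) (hS : ∀ p ∈ S, p.Prime) (q : ℕ) (hq : 0 < q)
    (hqS : ∀ p ∈ S, Nat.Coprime q p) (b : ℕ) (c : ℕ → ℕ) (L Y : ℝ)
    (hL : ∑ p ∈ S, 1 / (p : ℝ) ≤ L) (hY1 : 1 ≤ Y) (hY : (#S : ℝ) ≤ Y) (J : ℕ) (hJ : Odd J)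
    (a X : ℕ) :
    X / q * ∏ p ∈ S, (1 - 1 / (p : ℝ)) -
      (X / q * ((2 ^ J)⁻¹ * Real.exp (2 * L)) + Y ^ J * Real.exp 1) ≤
      (#{m ∈ {m ∈ Ico a (a + X) | m ≡ b [MOD q]} | ∀ p ∈ S, ¬ m ≡ c p [MOD p]} : ℕ) := by
  have h1 := brun_main S hS q hq hqS b c L Y hL hY1 hY J a X
  have h2 := bonferroni {m ∈ Ico a (a + X) | m ≡ b [MOD q]} S (fun p m => m ≡ c p [MOD p]) J hJ
  have h3 := (Int.cast_le (R := ℝ)).mpr h2
  push_cast at h3
  rw [abs_le] at h1
  linarith [h1.1]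

theorem brun_upper (S : Finset ℕ) (hS : ∀ p ∈ S, p.Prime) (q : ℕ) (hq : 0 < q)
    (hqS : ∀ p ∈ S, Nat.Coprime q p) (b : ℕ) (c : ℕ → ℕ) (L Y : ℝ)
    (hL : ∑ p ∈ S, 1 / (p : ℝ) ≤ L) (hY1 : 1 ≤ Y) (hY : (#S : ℝ) ≤ Y) (J : ℕ) (hJ : Even J)
    (a X : ℕ) :
    ((#{m ∈ {m ∈ Ico a (a + X) | m ≡ b [MOD q]} | ∀ p ∈ S, ¬ m ≡ c p [MOD p]} : ℕ) : ℝ) ≤
    X / q * ∏ p ∈ S, (1 - 1 / (p : ℝ)) +
      (X / q * ((2 ^ J)⁻¹ * Real.exp (2 * L)) + Y ^ J * Real.exp 1) := by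
  have h1 := brun_main S hS q hq hqS b c L Y hL hY1 hY J a X
  have h2 := bonferroni_even {m ∈ Ico a (a + X) | m ≡ b [MOD q]} S (fun p m => m ≡ c p [MOD p]) J hJ
  have h3 := (Int.cast_le (R := ℝ)).mpr h2
  push_cast at h3
  rw [abs_le] at h1
  linarith [h1.2]

end Pool.Agent.Work.MP_3a3367_nt_h29
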