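import Mathlib
import Pool.Agent.Work.MP_3a3367_nt_h29.SVa
import Pool.Agent.Work.MP_b0c12c_nt_univ.INUb

/-!
# Integers in intervals and classes which avoid one class modulo each small prime
-/

set_option autoImplicit false

namespace Pool.Agent.Work.MP_3a3367_nt_h29

open Finset Filter
open Pool.Agent.Work.MP_b0c12c_nt_univ.INUaux (Pr QW sum_Pr QW_ge QW_pos)

/-- asymptotic formula for very small primes, arbitrary classes -/
theorem sv (ε : ℝ) (hε : 0 < ε) : ∃ Z0 : ℝ, 1 ≤ Z0 ∧ ∀ (W : ℕ), 2 ≤ W → ∀ (X q : ℕ), 0 < q →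
    (∀ p ∈ Pr W, Nat.Coprime q p) → Z0 ≤ (X : ℝ) / q →
    (W : ℝ) ≤ Real.exp (Real.sqrt (Real.log ((X : ℝ) / q))) →
    ∀ (b : ℕ) (c : ℕ → ℕ) (a : ℕ),
    (1 - ε) * ((X : ℝ) / q * QW W) ≤
      (#{m ∈ {m ∈ Ico a (a + X) | m ≡ b [MOD q]} | ∀ p ∈ Pr W, ¬ m ≡ c p [MOD p]} : ℕ) ∧
    ((#{m ∈ {m ∈ Ico a (a + X) | m ≡ b [MOD q]} | ∀ p ∈ Pr W, ¬ m ≡ c p [MOD p]} : ℕ) : ℝ) ≤
      (1 + ε) * ((X : ℝ) / q * QW W) := by
  obtain ⟨C1, hC1, hsum⟩ := sum_Pr
  set E1 : ℝ := |Real.log (2 / ε)| with hE1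
  have hE10 : 0 ≤ E1 := abs_nonneg _
  refine ⟨Real.exp (Real.exp (100 + 4 * C1 + E1)), ?_, ?_⟩
  · exact Real.one_le_exp (Real.exp_pos _).le
  intro W hW2 X q hq hqS hZ hW b c a
  set Z : ℝ := (X : ℝ) / q with hZdef
  have hZpos : 0 < Z := lt_of_lt_of_le (Real.exp_pos _) hZ
  set l : ℝ := Real.log Z with hl
  have hl1 : Real.exp (100 + 4 * C1 + E1) ≤ l := by
    have := Real.log_le_log (Real.exp_pos _) hZ
    rwa [Real.log_exp] at this
  have hl0 : 0 < l := lt_of_lt_of_le (Real.exp_pos _) hl1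
  set ll : ℝ := Real.log l with hlldef
  have h1 : 100 + 4 * C1 + E1 ≤ ll := by
    have := Real.log_le_log (Real.exp_pos _) hl1
    rwa [Real.log_exp] at this
  have hexpll : Real.exp ll = l := Real.exp_log hl0
  set r : ℝ := Real.sqrt l with hr
  have hr2 : r * r = l := Real.mul_self_sqrt hl0.le
  have hre : r = Real.exp (ll / 2) := by
    rw [hr, Real.sqrt_eq_iff_mul_self_eq hl0.le (Real.exp_pos _).le, ← Real.exp_add, ← hexpll]
    congr 1; ring
  have hr0 : 0 < r := by rw [hre]; exact Real.exp_pos _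
  have hrq : 1 + ll / 2 + (ll / 2) ^ 2 / 2 ≤ r := by
    rw [hre]
    exact Real.quadratic_le_exp_of_nonneg (by linarith)
  have hr8 : 12 * ll + 4 ≤ r := by nlinarith
  have hWpos : (0 : ℝ) < W := by exact_mod_cast (by omega : 0 < W)
  have hW1 : (1 : ℝ) ≤ W := by exact_mod_cast (by omega : 1 ≤ W)
  have hlw : Real.log W ≤ r := by
    have := Real.log_le_log hWpos hW
    rwa [Real.log_exp] at this
  have hlw0 : 0 < Real.log W := Real.log_pos (by exact_mod_cast (by omega : 1 < W))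
  set L : ℝ := Real.log (Real.log W) + C1 with hL
  have hLle : L ≤ ll / 2 + C1 := by
    have h6 : Real.log (Real.log W) ≤ Real.log r := Real.log_le_log hlw0 hlw
    rw [hre, Real.log_exp] at h6
    linarith
  have hQ1 : Real.exp (-(2 * L)) ≤ QW W := QW_ge hsum W hW2
  have hQ0 := QW_pos W
  have hE2 : 2 / ε ≤ Real.exp E1 := by
    rw [← Real.log_le_iff_le_exp (by positivity)]
    exact le_abs_self _
  have hE3 : 1 ≤ ε / 2 * Real.exp E1 := by
    have : 1 = ε / 2 * (2 / ε) := by field_simp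
    rw [this]
    exact mul_le_mul_of_nonneg_left hE2 (by positivity)
  -- error for a given `J`
  have herr : ∀ J : ℕ, 8 * ll - 2 ≤ (J : ℝ) → (J : ℝ) ≤ 8 * ll + 1 →
      Z * ((2 ^ J)⁻¹ * Real.exp (2 * L)) + (W : ℝ) ^ J * Real.exp 1 ≤ ε * (Z * QW W) := by
    intro J hJ1 hJ2
    have e1 : (2 ^ J)⁻¹ * Real.exp (2 * L) ≤ ε / 2 * QW W := by
      have h6 : (2 : ℝ) ^ J = Real.exp (J * Real.log 2) := by
        rw [mul_comm, Real.exp_mul, Real.exp_log (by norm_num), Real.rpow_natCast]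
      rw [h6, ← Real.exp_neg, ← Real.exp_add]
      calc Real.exp (-(J * Real.log 2) + 2 * L) ≤ Real.exp (-E1 + -(2 * L)) := by
            apply Real.exp_le_exp.2
            have h7 := Real.log_two_gt_d9
            nlinarith
        _ = Real.exp (-E1) * Real.exp (-(2 * L)) := Real.exp_add _ _
        _ ≤ (ε / 2) * QW W := by
            apply mul_le_mul _ hQ1 (Real.exp_pos _).le (by positivity)
            rw [Real.exp_neg, inv_le_iff_one_le_mul₀ (Real.exp_pos _)]
            exact hE3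
    have e2 : (W : ℝ) ^ J * Real.exp 1 ≤ ε / 2 * (Z * QW W) := by
      have h5 : (W : ℝ) ^ J ≤ Real.exp (r * (8 * ll + 1)) := by
        calc (W : ℝ) ^ J ≤ (Real.exp r) ^ J := pow_le_pow_left₀ hWpos.le hW J
          _ = Real.exp (J * r) := (Real.exp_nat_mul _ _).symm
          _ ≤ Real.exp (r * (8 * ll + 1)) := by
              apply Real.exp_le_exp.mpr
              rw [mul_comm]
              gcongr
      have h6 : Z = Real.exp l := (Real.exp_log hZpos).symm
      have h8 : r * (8 * ll + 1) + 1 ≤ -E1 + (l + -(2 * L)) := by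
        have h9 : 2 * L ≤ ll + 2 * C1 := by linarith
        nlinarith
      calc (W : ℝ) ^ J * Real.exp 1 ≤ Real.exp (r * (8 * ll + 1)) * Real.exp 1 := by gcongr
        _ = Real.exp (r * (8 * ll + 1) + 1) := (Real.exp_add _ _).symm
        _ ≤ Real.exp (-E1 + (l + -(2 * L))) := Real.exp_le_exp.2 h8
        _ = Real.exp (-E1) * (Real.exp l * Real.exp (-(2 * L))) := by rw [Real.exp_add, Real.exp_add]
        _ ≤ (ε / 2) * (Z * QW W) := by
            rw [← h6]
            apply mul_le_mul _ _ (by positivity) (by positivity)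
            · rw [Real.exp_neg, inv_le_iff_one_le_mul₀ (Real.exp_pos _)]
              exact hE3
            · exact mul_le_mul_of_nonneg_left hQ1 hZpos.le
    have e3 := mul_le_mul_of_nonneg_left e1 hZpos.le
    linarith
  have hSp : ∀ p ∈ Pr W, p.Prime := fun p hp => (mem_filter.mp hp).2
  have hcard : (#(Pr W) : ℝ) ≤ W := by
    have h5 : (Pr W).card ≤ W := by
      have := card_filter_le (Icc 1 W) Nat.Prime
      rw [Nat.card_Icc] at this
      unfold Pr
      omega
    exact_mod_cast h5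
  set j : ℕ := ⌊4 * ll⌋₊ with hj
  have hfl1 : (j : ℝ) ≤ 4 * ll := Nat.floor_le (by linarith)
  have hfl2 : 4 * ll < (j : ℝ) + 1 := Nat.lt_floor_add_one _
  have hQdef : ∏ p ∈ Pr W, (1 - 1 / (p : ℝ)) = QW W := rfl
  constructor
  · have h2 := brun_lower (Pr W) hSp q hq hqS b c L W (hsum W hW2) hW1 hcard (2 * j + 1)
      ⟨j, rfl⟩ a X
    have h3 := herr (2 * j + 1) (by push_cast; linarith) (by push_cast; linarith)
    rw [hQdef] at h2
    linarith
  · have h2 := brun_upper (Pr W) hSp q hq hqS b c L W (hsum W hW2) hW1 hcard (2 * j)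
      ⟨j, by ring⟩ a X
    have h3 := herr (2 * j) (by push_cast; linarith) (by push_cast; linarith)
    rw [hQdef] at h2
    linarith

end Pool.Agent.Work.MP_3a3367_nt_h29
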