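import Mathlib
import Pool.Agent.Work.MP_3a3367_nt_h29.SV
import Pool.Agent.Work.MP_b0c12c_nt_helper41.Mert

/-!
# Averages over the survivors of the very small primes
-/

set_option autoImplicit false

namespace Pool.Agent.Work.MP_3a3367_nt_h29

open Finset Filter Topology
open Pool.Agent.Work.MP_b0c12c_nt_univ.INUaux (Pr QW sum_Pr QW_ge QW_pos)
open Pool.Agent.Work.MP_b0c12c_nt_helper41 (FF mertens1)

/-- primes in `(W, Y]` -/
def PP (W Y : ℕ) : Finset ℕ := (Ioc W Y).filter Nat.Prime

/-- survivors of the primes up to `W` in `[a, a + X)` -/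
def Sv (W X a : ℕ) (v : ℕ → ℕ) : Finset ℕ := {m ∈ Ico a (a + X) | ∀ p ∈ Pr W, ¬ m ≡ v p [MOD p]}

theorem log_le_sqrt_aux (K : ℝ) : ∀ᶠ u : ℝ in atTop, K * Real.log u ≤ Real.sqrt (Real.sqrt u) := by
  have h1 : Tendsto (fun u : ℝ => Real.log u / u ^ (1 / 4 : ℝ)) atTop (𝓝 0) :=
    (isLittleO_log_rpow_atTop (by norm_num : (0 : ℝ) < 1 / 4)).tendsto_div_nhds_zero
  have h2 : ∀ᶠ u : ℝ in atTop, Real.log u / u ^ (1 / 4 : ℝ) ≤ 1 / (|K| + 1) :=
    (h1.eventually (gt_mem_nhds (by positivity : (0 : ℝ) < 1 / (|K| + 1)))).mono fun u hu => hu.le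
  filter_upwards [h2, eventually_gt_atTop 1] with u hu hu1
  have hu0 : 0 < u := by linarith
  have hp : 0 < u ^ (1 / 4 : ℝ) := by positivity
  have h3 : Real.sqrt (Real.sqrt u) = u ^ (1 / 4 : ℝ) := by
    rw [Real.sqrt_eq_rpow, Real.sqrt_eq_rpow, ← Real.rpow_mul hu0.le]
    norm_num
  rw [h3]
  rw [div_le_div_iff₀ hp (by positivity), one_mul] at hu
  have h4 : 0 ≤ Real.log u := Real.log_nonneg hu1.le
  have h5 : K ≤ |K| + 1 := by linarith [le_abs_self K]
  nlinarith

theorem sq_log_aux (K ε : ℝ) (hε : 0 < ε) :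
    ∀ᶠ u : ℝ in atTop, K * (Real.log u) ^ 2 * Real.sqrt u ≤ ε * u := by
  have h1 := log_le_sqrt_aux 1
  have h2 : Tendsto (fun u : ℝ => Real.log u ^ 2 / u ^ (1 / 2 : ℝ)) atTop (𝓝 0) := by
    have h3 := (isLittleO_log_rpow_atTop (by norm_num : (0 : ℝ) < 1 / 4)).tendsto_div_nhds_zero
    have h4 := h3.mul h3
    simp only [mul_zero] at h4
    refine h4.congr' ?_
    filter_upwards [eventually_gt_atTop 0] with u hu
    rw [div_mul_div_comm, ← Real.rpow_add hu, sq]
    norm_num
  have h3 : ∀ᶠ u : ℝ in atTop, Real.log u ^ 2 / u ^ (1 / 2 : ℝ) ≤ ε / (|K| + 1) :=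
    (h2.eventually (gt_mem_nhds (by positivity : (0 : ℝ) < ε / (|K| + 1)))).mono fun u hu => hu.le
  filter_upwards [h3, eventually_gt_atTop 1] with u hu hu1
  have hu0 : 0 < u := by linarith
  rw [Real.sqrt_eq_rpow]
  have hp : 0 < u ^ (1 / 2 : ℝ) := by positivity
  have h5 : u ^ (1 / 2 : ℝ) * u ^ (1 / 2 : ℝ) = u := by
    rw [← Real.rpow_add hu0]; norm_num
  rw [div_le_div_iff₀ hp (by positivity)] at hu
  have h6 : K * Real.log u ^ 2 ≤ Real.log u ^ 2 * (|K| + 1) := by
    have := le_abs_self K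
    nlinarith [sq_nonneg (Real.log u)]
  calc K * Real.log u ^ 2 * u ^ (1 / 2 : ℝ) ≤ (ε * u ^ (1 / 2 : ℝ)) * u ^ (1 / 2 : ℝ) := by
        apply mul_le_mul_of_nonneg_right _ hp.le
        linarith
    _ = ε * u := by rw [mul_assoc, h5]

theorem avg (c0 ε : ℝ) (hc0 : 0 < c0) (hε : 0 < ε) (A0 : ℝ) (hA0 : 0 < A0) :
    ∃ n0 : ℕ, ∀ n : ℕ, n0 ≤ n → ∀ X Y W : ℕ, c0 * Real.sqrt n ≤ X → (Y : ℝ) ≤ 2 * Real.sqrt n →
      Real.log n ≤ W → (W : ℝ) ≤ Real.log n ^ A0 → ∀ (v : ℕ → ℕ) (a : ℕ),
      (X : ℝ) * QW W / 2 ≤ #(Sv W X a v) ∧ ∃ Mb : ℕ → ℝ,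
        (∀ p ∈ PP W Y, ∀ b, (#{m ∈ Sv W X a v | m ≡ b [MOD p]} : ℝ) ≤ Mb p) ∧
        ∑ p ∈ PP W Y, Mb p ≤ 3 * Real.log (Real.log n) * #(Sv W X a v) ∧
        ∑ p ∈ PP W Y, Mb p * Real.log p ≤ (1 + ε) * (Real.log n / 2) * #(Sv W X a v) := by
  obtain ⟨C1, hC1, hsum⟩ := sum_Pr
  obtain ⟨C3, hC3, hmer⟩ := mertens1
  -- small parameter
  set ε' : ℝ := min ε 1 / 10 with hε'
  have hε'0 : 0 < ε' := by positivity
  have hε'1 : ε' ≤ 1 / 10 := by
    have := min_le_right ε 1
    rw [hε']; linarith
  have hε'2 : ε' ≤ ε / 10 := by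
    have := min_le_left ε 1
    rw [hε']; linarith
  have hratio : 1 + ε' ≤ (1 - ε') * (1 + 3 * ε') := by nlinarith
  obtain ⟨Z0, hZ01, hsv⟩ := sv ε' hε'0
  set C2 : ℝ := 1 + 2 / c0 with hC2
  have hC20 : 0 < C2 := by positivity
  set C5 : ℝ := 2 * Real.log 2 + |Real.log c0| + 2 * C3 with hC5
  have hlog2 : 0 < Real.log 2 := Real.log_pos (by norm_num)
  have hC50 : 0 ≤ C5 := by positivity
  set K1 : ℝ := 2 * C2 * Real.exp (2 * C1) * A0 ^ 2 * (1 + C5) with hK1
  have hK10 : 0 < K1 := by positivity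
  have hu : Tendsto (fun n : ℕ => Real.log (n : ℝ)) atTop atTop :=
    Real.tendsto_log_atTop.comp tendsto_natCast_atTop_atTop
  have hev : ∀ᶠ u : ℝ in atTop, (A0 * Real.log u ≤ Real.sqrt (Real.sqrt u)) ∧
      K1 * (Real.log u) ^ 2 * Real.sqrt u ≤ ε / 10 * (u / 2) ∧
      K1 * (Real.log u) ^ 2 * Real.sqrt u ≤ 1 / 40 * u ∧
      Z0 ≤ Real.sqrt u ∧ 100 * (1 + C1 + C3 + |Real.log c0| + 1 / ε) ≤ Real.sqrt u ∧
      10 * (1 + C1) ≤ Real.log u := by
    have h1 := log_le_sqrt_aux A0
    have h2 := sq_log_aux K1 (ε / 20) (by positivity)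
    have h3 := sq_log_aux K1 (1 / 40) (by norm_num)
    have h4 : Tendsto (fun u : ℝ => Real.sqrt u) atTop atTop := Real.tendsto_sqrt_atTop
    filter_upwards [h1, h2, h3, h4.eventually_ge_atTop Z0,
      h4.eventually_ge_atTop (100 * (1 + C1 + C3 + |Real.log c0| + 1 / ε)),
      Real.tendsto_log_atTop.eventually_ge_atTop (10 * (1 + C1))] with u e1 e2 e3 e4 e5 e6
    exact ⟨e1, by linarith, e3, e4, e5, e6⟩
  obtain ⟨n0, hn0⟩ := eventually_atTop.1 ((hu.eventually hev).and (eventually_ge_atTop 3))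
  refine ⟨n0, ?_⟩
  intro n hn X Y W hX hY hW1 hW2 v a
  obtain ⟨⟨e1, e2, e3, e4, e5, e6⟩, hn3⟩ := hn0 n hn
  set u : ℝ := Real.log (n : ℝ) with hudef
  set r : ℝ := Real.sqrt u with hr
  set U : ℝ := Real.log u with hU
  have hnpos : (0 : ℝ) < n := by exact_mod_cast (by omega : 0 < n)
  have hc1 : 0 ≤ |Real.log c0| := abs_nonneg _
  have hεi : 0 < 1 / ε := by positivity
  have hr100 : 100 ≤ r := by linarith
  have hu0 : 0 < u := by
    by_contra hcon
    have : r = 0 := Real.sqrt_eq_zero_of_nonpos (not_lt.1 hcon)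
    linarith
  have hr2 : r * r = u := Real.mul_self_sqrt hu0.le
  have hur : 100 * r ≤ u := by
    rw [← hr2]
    exact mul_le_mul_of_nonneg_right hr100 (by linarith)
  have hu1 : 10000 ≤ u := by linarith
  have hU10 : 10 ≤ U := by linarith
  have hexpu : Real.exp u = n := Real.exp_log hnpos
  have hsqn : Real.sqrt n = Real.exp (u / 2) := by
    rw [Real.sqrt_eq_iff_mul_self_eq hnpos.le (Real.exp_pos _).le, ← Real.exp_add, ← hexpu]
    congr 1; ring
  rw [hsqn] at hX hY
  have hWr : (10000 : ℝ) ≤ W := by linarith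
  have hW2' : 2 ≤ W := by
    have : (2 : ℝ) ≤ W := by linarith
    exact_mod_cast this
  have hWpos : (0 : ℝ) < W := by linarith
  have hlogW : Real.log W ≤ A0 * U := by
    have := Real.log_le_log hWpos hW2
    rwa [Real.log_rpow hu0] at this
  have hlogW0 : 1 ≤ Real.log W := by
    rw [Real.le_log_iff_exp_le hWpos]
    have := Real.exp_one_lt_d9
    linarith
  -- lower bound for the product
  have hQ0 := QW_pos W
  have hQ1 : 1 ≤ QW W * (Real.exp (2 * C1) * (A0 * U) ^ 2) := by
    have h1 := QW_ge hsum W hW2'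
    have h2 : Real.exp (-(2 * (Real.log (Real.log W) + C1))) =
        (Real.exp (2 * C1) * (Real.log W) ^ 2)⁻¹ := by
      have h3 : (Real.log W) ^ 2 = Real.exp (2 * Real.log (Real.log W)) := by
        rw [two_mul, Real.exp_add, Real.exp_log (by linarith), sq]
      rw [h3, ← Real.exp_add, ← Real.exp_neg]
      congr 1; ring
    rw [h2] at h1
    have h4 : 0 < Real.exp (2 * C1) * (Real.log W) ^ 2 := by positivity
    have h5 : 1 ≤ QW W * (Real.exp (2 * C1) * (Real.log W) ^ 2) := by
      have := mul_le_mul_of_nonneg_right h1 h4.le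
      rwa [inv_mul_cancel₀ h4.ne'] at this
    refine h5.trans ?_
    apply mul_le_mul_of_nonneg_left _ hQ0.le
    apply mul_le_mul_of_nonneg_left _ (Real.exp_pos _).le
    exact pow_le_pow_left₀ (by linarith) hlogW 2
  have hXpos : (0 : ℝ) < X := lt_of_lt_of_le (by positivity) hX
  have hXN : 0 < X := by exact_mod_cast hXpos
  -- log of X
  have hlogX : u / 2 - |Real.log c0| ≤ Real.log X := by
    have h1 := Real.log_le_log (by positivity) hX
    rw [Real.log_mul hc0.ne' (Real.exp_pos _).ne', Real.log_exp] at h1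
    linarith [neg_abs_le (Real.log c0)]
  -- size of the survivors
  have hlX : r ≤ Real.log X := by linarith
  have hWcond : ∀ Z : ℝ, 0 < Z → r ≤ Real.log Z → (W : ℝ) ≤ Real.exp (Real.sqrt (Real.log Z)) := by
    intro Z hZ hrZ
    rw [← Real.log_le_iff_le_exp hWpos]
    refine hlogW.trans (e1.trans ?_)
    exact Real.sqrt_le_sqrt hrZ
  have hZcond : ∀ Z : ℝ, 0 < Z → r ≤ Real.log Z → Z0 ≤ Z := by
    intro Z hZ hrZ
    have h1 : Real.exp r ≤ Z := by rwa [← Real.le_log_iff_exp_le hZ]
    have h2 := Real.add_one_le_exp r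
    linarith
  have hSlow : (1 - ε') * (X * QW W) ≤ #(Sv W X a v) := by
    have h1 := (hsv W hW2' X 1 one_pos (fun p _ => Nat.coprime_one_left p)
      (hZcond _ (by simpa using hXpos) (by simpa using hlX))
      (hWcond _ (by simpa using hXpos) (by simpa using hlX)) 0 v a).1
    simp only [Nat.cast_one, div_one] at h1
    refine h1.trans (le_of_eq ?_)
    congr 1
    unfold Sv
    congr 1
    ext m
    simp only [mem_filter, Nat.modEq_one, and_true]
  set s : ℝ := (#(Sv W X a v) : ℝ) with hs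
  have hs0 : 0 ≤ s := Nat.cast_nonneg _
  have hXQ : 0 < X * QW W := by positivity
  have hhalf : X * QW W ≤ 2 * s := by
    have h1 : (1 / 2 : ℝ) * (X * QW W) ≤ (1 - ε') * (X * QW W) :=
      mul_le_mul_of_nonneg_right (by linarith) hXQ.le
    linarith
  refine ⟨by linarith, ?_⟩
  -- the bounds
  set z : ℝ := X / Real.exp r with hz
  have hzpos : 0 < z := by positivity
  set Mb : ℕ → ℝ := fun p => if (p : ℝ) ≤ z then (1 + ε') * (X / p * QW W) else C2 * X / p with hMb
  have hPPmem : ∀ p ∈ PP W Y, p.Prime ∧ W < p ∧ p ≤ Y := by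
    intro p hp
    unfold PP at hp
    rw [mem_filter, mem_Ioc] at hp
    exact ⟨hp.2, hp.1.1, hp.1.2⟩
  refine ⟨Mb, ?_, ?_, ?_⟩
  · -- classes
    intro p hp b
    obtain ⟨hpp, hWp, hpY⟩ := hPPmem p hp
    have hp0 : (0 : ℝ) < p := by exact_mod_cast hpp.pos
    simp only [hMb]
    split_ifs with hpz
    · have h1 : Real.exp r ≤ X / p := by
        rw [hz, le_div_iff₀ (Real.exp_pos _)] at hpz
        rw [le_div_iff₀ hp0]
        linarith
      have h2 : (0 : ℝ) < X / p := by positivity
      have h3 : r ≤ Real.log (X / p) := by rwa [Real.le_log_iff_exp_le h2]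
      have h4 := (hsv W hW2' X p hpp.pos (fun q hq => by
          have hq' := mem_filter.1 hq
          rw [mem_Icc] at hq'
          rw [Nat.coprime_primes hpp hq'.2]
          omega)
        (hZcond _ h2 h3) (hWcond _ h2 h3) b v a).2
      refine le_trans (le_of_eq ?_) h4
      congr 1
      unfold Sv
      congr 1
      ext m
      simp only [mem_filter]
      tauto
    · -- trivial bound
      have h1 := Pool.Agent.Work.MP_18694c_nt.count_interval p hpp.pos (fun m => m ≡ b [MOD p])
        (per_class p b) a X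
      rw [one_class p hpp.pos b] at h1
      rw [abs_le] at h1
      have h2 : (#{m ∈ Sv W X a v | m ≡ b [MOD p]} : ℝ) ≤
          (#{m ∈ Ico a (a + X) | m ≡ b [MOD p]} : ℝ) := by
        have : #{m ∈ Sv W X a v | m ≡ b [MOD p]} ≤ #{m ∈ Ico a (a + X) | m ≡ b [MOD p]} := by
          apply card_le_card
          intro m hm
          unfold Sv at hm
          simp only [mem_filter] at hm ⊢
          exact ⟨hm.1.1, hm.2⟩
        exact_mod_cast this
      have h3 : (#{m ∈ Ico a (a + X) | m ≡ b [MOD p]} : ℝ) ≤ X / p + 1 := by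
        have := h1.2
        push_cast at this
        linarith
      have h4 : (1 : ℝ) ≤ 2 / c0 * (X / p) := by
        have h5 : (p : ℝ) ≤ 2 * Real.exp (u / 2) := by
          have : (p : ℝ) ≤ Y := by exact_mod_cast hpY
          linarith
        rw [div_mul_div_comm, le_div_iff₀ (by positivity), one_mul]
        calc c0 * (p : ℝ) ≤ c0 * (2 * Real.exp (u / 2)) := mul_le_mul_of_nonneg_left h5 hc0.le
          _ = 2 * (c0 * Real.exp (u / 2)) := by ring
          _ ≤ 2 * X := by linarith
      calc (#{m ∈ Sv W X a v | m ≡ b [MOD p]} : ℝ) ≤ X / p + 1 := h2.trans h3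
        _ ≤ X / p + 2 / c0 * (X / p) := by linarith
        _ = C2 * X / p := by rw [hC2]; ring
  all_goals
    -- common preparations
    have hYlog : Real.log Y ≤ u / 2 + Real.log 2 ∨ Y = 0 := by
      rcases Nat.eq_zero_or_pos Y with h | h
      · exact Or.inr h
      · left
        have hY0 : (0 : ℝ) < Y := by exact_mod_cast h
        have := Real.log_le_log hY0 hY
        rw [Real.log_mul (by norm_num) (Real.exp_pos _).ne', Real.log_exp] at this
        linarith
    have hlogz : u / 2 - |Real.log c0| - r ≤ Real.log z := by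
      rw [hz, Real.log_div hXpos.ne' (Real.exp_pos _).ne', Real.log_exp]
      linarith
    have hlogz4 : u / 4 ≤ Real.log z := by linarith
    have hrC5 : r + C5 ≤ r * (1 + C5) := by
      have := le_mul_of_one_le_left hC50 (by linarith : (1 : ℝ) ≤ r)
      linarith
    have hFFY : 1 ≤ Y → FF Y ≤ u / 2 + Real.log 2 + C3 := by
      intro hY1
      have h1 := hmer Y hY1
      rw [abs_le] at h1
      rcases hYlog with h | h
      · linarith [h1.2]
      · omega
    -- sum of `log p / p` over the large primes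
    have hbig : ∑ p ∈ (PP W Y).filter (fun p : ℕ => ¬ (p : ℝ) ≤ z), Real.log p / p ≤ r + C5 := by
      rcases Nat.eq_zero_or_pos Y with hY0 | hY0
      · have : PP W Y = ∅ := by
          unfold PP
          rw [hY0]
          simp
        rw [this]
        simp only [filter_empty, sum_empty]
        positivity
      have hzN1 : 1 ≤ z := by
        have : 0 ≤ Real.log z := by linarith
        exact (Real.log_nonneg_iff hzpos).1 this
      set zN : ℕ := ⌊z⌋₊ with hzN
      have hzN0 : 1 ≤ zN := Nat.le_floor (by simpa using hzN1)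
      have hzN2 : z < zN + 1 := Nat.lt_floor_add_one z
      have hzNpos : (0 : ℝ) < zN := by exact_mod_cast (by omega : 0 < zN)
      have hzN3 : z / 2 ≤ zN := by
        have : (1 : ℝ) ≤ zN := by exact_mod_cast hzN0
        linarith
      have hlogzN : Real.log z - Real.log 2 ≤ Real.log zN := by
        have := Real.log_le_log (by positivity) hzN3
        rwa [Real.log_div hzpos.ne' (by norm_num)] at this
      by_cases hle : zN ≤ Y
      · have h1 : ∑ p ∈ (PP W Y).filter (fun p : ℕ => ¬ (p : ℝ) ≤ z), Real.log p / p ≤ FF Y - FF zN := by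
          unfold FF
          have h2 : (Icc 1 zN).filter Nat.Prime ⊆ (Icc 1 Y).filter Nat.Prime := by
            apply filter_subset_filter
            exact Icc_subset_Icc le_rfl hle
          rw [← sum_sdiff h2, add_sub_cancel_right]
          apply sum_le_sum_of_subset_of_nonneg
          · intro p hp
            rw [mem_filter] at hp
            obtain ⟨h3, h4, h5⟩ := hPPmem p hp.1
            rw [Finset.mem_sdiff, mem_filter, mem_filter, mem_Icc, mem_Icc]
            refine ⟨⟨⟨h3.one_lt.le, h5⟩, h3⟩, ?_⟩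
            rintro ⟨⟨_, h6⟩, _⟩
            apply hp.2
            have : (p : ℝ) ≤ zN := by exact_mod_cast h6
            exact this.trans (Nat.floor_le hzpos.le)
          · intro p hp _
            rw [Finset.mem_sdiff, mem_filter, mem_Icc] at hp
            have : (1 : ℝ) ≤ p := by exact_mod_cast hp.1.1.1
            have := Real.log_nonneg this
            positivity
        have h2 := hmer Y hY0
        have h3 := hmer zN hzN0
        rw [abs_le] at h2 h3
        have hYl : Real.log Y ≤ u / 2 + Real.log 2 := by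
          rcases hYlog with h | h
          · exact h
          · omega
        rw [hC5]
        linarith [h2.2, h3.1]
      · have : (PP W Y).filter (fun p : ℕ => ¬ (p : ℝ) ≤ z) = ∅ := by
          rw [filter_eq_empty_iff]
          intro p hp
          rw [not_not]
          obtain ⟨h3, h4, h5⟩ := hPPmem p hp
          have : (p : ℝ) ≤ zN := by exact_mod_cast (by omega : p ≤ zN)
          exact this.trans (Nat.floor_le hzpos.le)
        rw [this, sum_empty]
        positivity
    have hXs : (X : ℝ) ≤ 2 * s * (Real.exp (2 * C1) * (A0 * U) ^ 2) := by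
      have h1 : (X : ℝ) * QW W ≤ 2 * s := hhalf
      have h2 : 0 ≤ Real.exp (2 * C1) * (A0 * U) ^ 2 := by positivity
      have h3 := mul_le_mul_of_nonneg_right h1 h2
      have h4 := mul_le_mul_of_nonneg_left hQ1 hXpos.le
      linarith
  · -- sum of Mb
    have hsplit : ∑ p ∈ PP W Y, Mb p = ∑ p ∈ (PP W Y).filter (fun p : ℕ => (p : ℝ) ≤ z), Mb p +
        ∑ p ∈ (PP W Y).filter (fun p : ℕ => ¬ (p : ℝ) ≤ z), Mb p :=
      (sum_filter_add_sum_filter_not _ _ _).symm
    have hA : ∑ p ∈ (PP W Y).filter (fun p : ℕ => (p : ℝ) ≤ z), Mb p ≤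
        (1 + ε') * (X * QW W) * (U + C1) := by
      have h1 : ∑ p ∈ (PP W Y).filter (fun p : ℕ => (p : ℝ) ≤ z), Mb p =
          (1 + ε') * (X * QW W) * ∑ p ∈ (PP W Y).filter (fun p : ℕ => (p : ℝ) ≤ z), 1 / (p : ℝ) := by
        rw [mul_sum]
        apply sum_congr rfl
        intro p hp
        simp only [hMb]
        rw [if_pos (mem_filter.1 hp).2]
        ring
      rw [h1]
      apply mul_le_mul_of_nonneg_left _ (by positivity)
      rcases lt_or_ge Y 2 with hY2 | hY2
      · have : PP W Y = ∅ := by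
          unfold PP
          rw [filter_eq_empty_iff]
          intro p hp
          rw [mem_Ioc] at hp
          omega
        rw [this]
        simp only [filter_empty, sum_empty]
        linarith
      · have h2 : ∑ p ∈ (PP W Y).filter (fun p : ℕ => (p : ℝ) ≤ z), 1 / (p : ℝ) ≤
            ∑ p ∈ Pr Y, 1 / (p : ℝ) := by
          apply sum_le_sum_of_subset_of_nonneg
          · intro p hp
            obtain ⟨h3, h4, h5⟩ := hPPmem p (mem_filter.1 hp).1
            unfold Pr
            rw [mem_filter, mem_Icc]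
            exact ⟨⟨h3.one_lt.le, h5⟩, h3⟩
          · intro p _ _
            positivity
        have h3 := hsum Y hY2
        have h4 : Real.log (Real.log Y) ≤ U := by
          have hYl : Real.log Y ≤ u / 2 + Real.log 2 := by
            rcases hYlog with h | h
            · exact h
            · omega
          have h5 : 0 < Real.log Y := Real.log_pos (by exact_mod_cast (by omega : 1 < Y))
          apply Real.log_le_log h5
          have := Real.log_two_lt_d9
          linarith
        linarith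
    have hB : ∑ p ∈ (PP W Y).filter (fun p : ℕ => ¬ (p : ℝ) ≤ z), Mb p ≤ s / 2 := by
      have h1 : ∑ p ∈ (PP W Y).filter (fun p : ℕ => ¬ (p : ℝ) ≤ z), Mb p ≤
          (C2 * X * (4 / u)) * ∑ p ∈ (PP W Y).filter (fun p : ℕ => ¬ (p : ℝ) ≤ z), Real.log p / p := by
        rw [mul_sum]
        apply sum_le_sum
        intro p hp
        obtain ⟨h3, h4, h5⟩ := hPPmem p (mem_filter.1 hp).1
        simp only [hMb]
        rw [if_neg (mem_filter.1 hp).2]
        have hp0 : (0 : ℝ) < p := by exact_mod_cast h3.pos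
        have h6 : u / 4 ≤ Real.log p := by
          have := Real.log_le_log hzpos (not_le.1 (mem_filter.1 hp).2).le
          linarith
        have h7 : 1 ≤ 4 / u * Real.log p := by
          rw [div_mul_eq_mul_div, le_div_iff₀ hu0]
          linarith
        have h8 : 0 ≤ C2 * X / p := by positivity
        calc C2 * X / p ≤ C2 * X / p * (4 / u * Real.log p) := le_mul_of_one_le_right h8 h7
          _ = _ := by ring
      refine h1.trans ?_
      have h2 : (C2 * X * (4 / u)) * ∑ p ∈ (PP W Y).filter (fun p : ℕ => ¬ (p : ℝ) ≤ z), Real.log p / p ≤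
          (C2 * X * (4 / u)) * (r * (1 + C5)) := by
        exact mul_le_mul_of_nonneg_left (hbig.trans hrC5) (by positivity)
      refine h2.trans ?_
      have h3 : (C2 * X * (4 / u)) * (r * (1 + C5)) ≤
          (C2 * (2 * s * (Real.exp (2 * C1) * (A0 * U) ^ 2)) * (4 / u)) * (r * (1 + C5)) := by
        gcongr
      refine h3.trans ?_
      have h4 : (C2 * (2 * s * (Real.exp (2 * C1) * (A0 * U) ^ 2)) * (4 / u)) * (r * (1 + C5)) =
          s * (4 / u) * (K1 * U ^ 2 * r) := by rw [hK1]; ring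
      rw [h4]
      calc s * (4 / u) * (K1 * U ^ 2 * r) ≤ s * (4 / u) * (1 / 40 * u) := by gcongr
        _ = s / 10 := by field_simp; ring
        _ ≤ s / 2 := by linarith
    rw [hsplit]
    have hC : (1 + ε') * (X * QW W) * (U + C1) ≤ (22 / 10) * s * (U + C1) := by
      apply mul_le_mul_of_nonneg_right _ (by linarith)
      have h6 : (1 + ε') * (X * QW W) ≤ (11 / 10) * (X * QW W) :=
        mul_le_mul_of_nonneg_right (by linarith) hXQ.le
      linarith
    have h5 : (22 / 10) * s * (U + C1) + s / 2 ≤ 3 * U * s := by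
      have h6 : (22 / 10) * (U + C1) + 1 / 2 ≤ 3 * U := by linarith
      have h7 := mul_le_mul_of_nonneg_right h6 hs0
      linarith
    linarith
  · -- weighted sum of Mb
    have hsplit : ∑ p ∈ PP W Y, Mb p * Real.log p =
        ∑ p ∈ (PP W Y).filter (fun p : ℕ => (p : ℝ) ≤ z), Mb p * Real.log p +
        ∑ p ∈ (PP W Y).filter (fun p : ℕ => ¬ (p : ℝ) ≤ z), Mb p * Real.log p :=
      (sum_filter_add_sum_filter_not _ _ _).symm
    have hA : ∑ p ∈ (PP W Y).filter (fun p : ℕ => (p : ℝ) ≤ z), Mb p * Real.log p ≤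
        (1 + ε') * (X * QW W) * (u / 2 + Real.log 2 + C3) := by
      have h1 : ∑ p ∈ (PP W Y).filter (fun p : ℕ => (p : ℝ) ≤ z), Mb p * Real.log p =
          (1 + ε') * (X * QW W) *
            ∑ p ∈ (PP W Y).filter (fun p : ℕ => (p : ℝ) ≤ z), Real.log p / (p : ℝ) := by
        rw [mul_sum]
        apply sum_congr rfl
        intro p hp
        simp only [hMb]
        rw [if_pos (mem_filter.1 hp).2]
        ring
      rw [h1]
      apply mul_le_mul_of_nonneg_left _ (by positivity)
      rcases Nat.eq_zero_or_pos Y with hY2 | hY2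
      · have : PP W Y = ∅ := by
          unfold PP
          rw [hY2]
          simp
        rw [this]
        simp only [filter_empty, sum_empty]
        positivity
      · refine le_trans ?_ (hFFY hY2)
        unfold FF
        apply sum_le_sum_of_subset_of_nonneg
        · intro p hp
          obtain ⟨h3, h4, h5⟩ := hPPmem p (mem_filter.1 hp).1
          rw [mem_filter, mem_Icc]
          exact ⟨⟨h3.one_lt.le, h5⟩, h3⟩
        · intro p hp _
          rw [mem_filter, mem_Icc] at hp
          have : (1 : ℝ) ≤ p := by exact_mod_cast hp.1.1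
          have := Real.log_nonneg this
          positivity
    have hB : ∑ p ∈ (PP W Y).filter (fun p : ℕ => ¬ (p : ℝ) ≤ z), Mb p * Real.log p ≤
        ε / 10 * (u / 2) * s := by
      have h1 : ∑ p ∈ (PP W Y).filter (fun p : ℕ => ¬ (p : ℝ) ≤ z), Mb p * Real.log p =
          (C2 * X) * ∑ p ∈ (PP W Y).filter (fun p : ℕ => ¬ (p : ℝ) ≤ z), Real.log p / p := by
        rw [mul_sum]
        apply sum_congr rfl
        intro p hp
        simp only [hMb]
        rw [if_neg (mem_filter.1 hp).2]
        ring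
      rw [h1]
      have h2 : (C2 * X) * ∑ p ∈ (PP W Y).filter (fun p : ℕ => ¬ (p : ℝ) ≤ z), Real.log p / p ≤
          (C2 * X) * (r * (1 + C5)) := by
        exact mul_le_mul_of_nonneg_left (hbig.trans hrC5) (by positivity)
      refine h2.trans ?_
      have h3 : (C2 * X) * (r * (1 + C5)) ≤
          (C2 * (2 * s * (Real.exp (2 * C1) * (A0 * U) ^ 2))) * (r * (1 + C5)) := by
        gcongr
      refine h3.trans ?_
      have h4 : (C2 * (2 * s * (Real.exp (2 * C1) * (A0 * U) ^ 2))) * (r * (1 + C5)) =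
          s * (K1 * U ^ 2 * r) := by rw [hK1]; ring
      rw [h4]
      calc s * (K1 * U ^ 2 * r) ≤ s * (ε / 10 * (u / 2)) := by gcongr
        _ = _ := by ring
    rw [hsplit]
    have hC : (1 + ε') * (X * QW W) * (u / 2 + Real.log 2 + C3) ≤
        (1 + 3 * ε') * s * (u / 2 + Real.log 2 + C3) := by
      apply mul_le_mul_of_nonneg_right _ (by positivity)
      have h6 := mul_le_mul_of_nonneg_right hratio hXQ.le
      have h7 := mul_le_mul_of_nonneg_left hSlow (by positivity : (0 : ℝ) ≤ 1 + 3 * ε')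
      calc (1 + ε') * (X * QW W) ≤ (1 - ε') * (1 + 3 * ε') * (X * QW W) := h6
        _ = (1 + 3 * ε') * ((1 - ε') * (X * QW W)) := by ring
        _ ≤ _ := h7
    have hD : (1 + 3 * ε') * (u / 2 + Real.log 2 + C3) ≤ (1 + 9 * ε / 10) * (u / 2) := by
      have h9 : 100 * (1 / ε) ≤ r := by linarith
      have h10 : 100 ≤ r * ε := by
        have := mul_le_mul_of_nonneg_right h9 hε.le
        rw [mul_assoc, one_div, inv_mul_cancel₀ hε.ne'] at this
        linarith
      have h11 : 100 * r ≤ u * ε := by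
        calc 100 * r ≤ (r * ε) * r := mul_le_mul_of_nonneg_right h10 (by linarith)
          _ = (r * r) * ε := by ring
          _ = u * ε := by rw [hr2]
      have h12 : Real.log 2 + C3 ≤ r / 100 := by
        have := Real.log_two_lt_d9
        linarith
      have h13 : Real.log 2 + C3 ≤ u * ε / 10000 := by linarith
      have h14 : 1 + 3 * ε' ≤ 1 + 3 * ε / 10 := by linarith
      have h15 : 1 + 3 * ε' ≤ 2 := by linarith
      have h16 : (0 : ℝ) ≤ Real.log 2 + C3 := by positivity
      have h17 : (1 + 3 * ε') * (Real.log 2 + C3) ≤ 2 * (u * ε / 10000) :=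
        mul_le_mul h15 h13 h16 (by norm_num)
      have h18 : (1 + 3 * ε') * (u / 2) ≤ (1 + 3 * ε / 10) * (u / 2) :=
        mul_le_mul_of_nonneg_right h14 (by linarith)
      have h19 : 0 ≤ ε * u := by positivity
      have h20 : (1 + 3 * ε') * (u / 2 + Real.log 2 + C3) =
        (1 + 3 * ε') * (u / 2) + (1 + 3 * ε') * (Real.log 2 + C3) := by ring
      rw [h20]
      have h21 : (1 + 9 * ε / 10) * (u / 2) = (1 + 3 * ε / 10) * (u / 2) + 3 * (ε * u) / 10 := by ring
      rw [h21]
      linarith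
    have hE := mul_le_mul_of_nonneg_right hD hs0
    have hF : (1 + 3 * ε') * s * (u / 2 + Real.log 2 + C3) =
        (1 + 3 * ε') * (u / 2 + Real.log 2 + C3) * s := by ring
    have hG : (1 + 9 * ε / 10) * (u / 2) * s + ε / 10 * (u / 2) * s = (1 + ε) * (u / 2) * s := by ring
    linarith

end Pool.Agent.Work.MP_3a3367_nt_h29
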