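import Mathlib

/-!
# A two-colouring of the primes
-/

set_option autoImplicit false

namespace Pool.Agent.Work.MP_3a3367_nt_h29

open Finset

/-- the number of sets between `R` and the complement of `D` -/
theorem card_between (P R D : Finset ℕ) (hR : R ⊆ P) (hD : D ⊆ P) (hRD : Disjoint R D) :
    ((P.powerset.filter fun T => R ⊆ T ∧ Disjoint D T).card : ℝ) =
      2 ^ P.card * (1 / 2) ^ (R.card + D.card) := by
  have h1 : (P.powerset.filter fun T => R ⊆ T ∧ Disjoint D T) = Finset.Icc R (P \ D) := by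
    ext T
    simp only [mem_filter, mem_powerset, Finset.mem_Icc, subset_sdiff]
    constructor
    · rintro ⟨h1, h2, h3⟩
      exact ⟨h2, h1, h3.symm⟩
    · rintro ⟨h1, h2, h3⟩
      exact ⟨h2, h1, h3.symm⟩
  have h2 : R ⊆ P \ D := by
    rw [subset_sdiff]
    exact ⟨hR, hRD⟩
  rw [h1, Finset.card_Icc_finset h2, card_sdiff_of_subset hD]
  have h3 : R.card + D.card ≤ P.card := by
    rw [← card_union_of_disjoint hRD]
    exact card_le_card (union_subset hR hD)
  have h4 : P.card = (P.card - D.card - R.card) + (R.card + D.card) := by omega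
  have h5 : (2 : ℝ) ^ P.card = 2 ^ (P.card - D.card - R.card) * 2 ^ (R.card + D.card) := by
    rw [← pow_add, ← h4]
  rw [h5, mul_assoc, ← mul_pow]
  norm_num

/-- a good colouring: `T` is the set of red primes -/
theorem colour (P S : Finset ℕ) (R D : ℕ → Finset ℕ) (K : ℝ)
    (hR : ∀ m ∈ S, R m ⊆ P) (hD : ∀ m ∈ S, D m ⊆ P) (hRD : ∀ m ∈ S, Disjoint (R m) (D m))
    (hK : ∀ m ∈ S, ((R m).card : ℝ) + (D m).card ≤ K) :
    ∃ T ⊆ P, Real.exp (-K) * (S.card : ℝ) ≤
      ((S.filter fun m => R m ⊆ T ∧ Disjoint (D m) T).card : ℝ) := by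
  by_contra hcon
  push Not at hcon
  have h1 : ∑ T ∈ P.powerset, ((S.filter fun m => R m ⊆ T ∧ Disjoint (D m) T).card : ℝ) <
      ∑ T ∈ P.powerset, Real.exp (-K) * (S.card : ℝ) := by
    apply sum_lt_sum_of_nonempty
    · exact ⟨∅, by simp⟩
    · intro T hT
      exact hcon T (mem_powerset.1 hT)
  have h2 : ∑ T ∈ P.powerset, ((S.filter fun m => R m ⊆ T ∧ Disjoint (D m) T).card : ℝ) =
      ∑ m ∈ S, ((P.powerset.filter fun T => R m ⊆ T ∧ Disjoint (D m) T).card : ℝ) := by
    have e1 : ∀ T ∈ P.powerset, ((S.filter fun m => R m ⊆ T ∧ Disjoint (D m) T).card : ℝ) =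
        ∑ m ∈ S, if R m ⊆ T ∧ Disjoint (D m) T then (1 : ℝ) else 0 := by
      intro T _
      rw [sum_boole]
    have e2 : ∀ m ∈ S, ((P.powerset.filter fun T => R m ⊆ T ∧ Disjoint (D m) T).card : ℝ) =
        ∑ T ∈ P.powerset, if R m ⊆ T ∧ Disjoint (D m) T then (1 : ℝ) else 0 := by
      intro m _
      rw [sum_boole]
    rw [sum_congr rfl e1, sum_congr rfl e2, sum_comm]
  have h3 : ∑ m ∈ S, 2 ^ P.card * Real.exp (-K) ≤
      ∑ m ∈ S, ((P.powerset.filter fun T => R m ⊆ T ∧ Disjoint (D m) T).card : ℝ) := by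
    apply sum_le_sum
    intro m hm
    rw [card_between P (R m) (D m) (hR m hm) (hD m hm) (hRD m hm)]
    apply mul_le_mul_of_nonneg_left _ (by positivity)
    have h4 : Real.exp (-1) ≤ 1 / 2 := by
      rw [Real.exp_neg, ← one_div]
      apply one_div_le_one_div_of_le (by norm_num)
      have := Real.add_one_le_exp (1 : ℝ)
      linarith
    have h5 : Real.exp (-K) ≤ Real.exp (-(((R m).card + (D m).card : ℕ) : ℝ)) := by
      apply Real.exp_le_exp.2
      have := hK m hm
      push_cast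
      linarith
    refine h5.trans ?_
    have h6 : Real.exp (-(((R m).card + (D m).card : ℕ) : ℝ)) =
        Real.exp (-1) ^ ((R m).card + (D m).card) := by
      rw [← Real.exp_nat_mul]
      congr 1
      ring
    rw [h6]
    exact pow_le_pow_left₀ (Real.exp_pos _).le h4 _
  rw [h2] at h1
  rw [sum_const, nsmul_eq_mul] at h3
  rw [sum_const, nsmul_eq_mul, card_powerset] at h1
  push_cast at h1
  have h4 : (2 : ℝ) ^ P.card * (Real.exp (-K) * (S.card : ℝ)) =
      (S.card : ℝ) * (2 ^ P.card * Real.exp (-K)) := by ring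
  rw [h4] at h1
  linarith

end Pool.Agent.Work.MP_3a3367_nt_h29
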