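import Mathlib
import Pool.Agent.Work.MP_b0c12c_nt_univ.Op

/-!
# Bounded differences inequality for the finite averages `EA`
-/

set_option autoImplicit false

namespace Pool.Agent.Work.MP_3a3367_nt_h29

open Finset Filter
open Pool.Agent.Work.MP_b0c12c_nt_univ

variable {α : Type} {V : ℕ → Finset α} {π : ℕ → α → ℝ}

/-- `e^z ≤ z + e^(z^2)` -/
theorem exp_le_id_add (z : ℝ) : Real.exp z ≤ z + Real.exp (z ^ 2) := by
  rcases le_or_gt |z| 1 with h | h
  · have h1 := Real.abs_exp_sub_one_sub_id_le h
    rw [abs_le] at h1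
    have h2 := Real.add_one_le_exp (z ^ 2)
    linarith [h1.2]
  · rcases lt_abs.1 h with h1 | h1
    · have h2 : Real.exp z ≤ Real.exp (z ^ 2) := Real.exp_le_exp.2 (by nlinarith)
      linarith
    · have h2 : Real.exp z ≤ 1 := Real.exp_le_one_iff.2 (by linarith)
      have h3 := Real.add_one_le_exp (z ^ 2)
      nlinarith

/-- one variable -/
theorem mcd_one {ι : Type*} (S : Finset ι) (w G : ι → ℝ) (hw : ∀ i ∈ S, 0 ≤ w i)
    (hs : ∑ i ∈ S, w i = 1) (c s : ℝ)
    (hG : ∀ i ∈ S, ∀ j ∈ S, |G i - G j| ≤ c) :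
    ∑ i ∈ S, w i * Real.exp (-s * G i) ≤
      Real.exp (-s * ∑ i ∈ S, w i * G i + s ^ 2 * c ^ 2) := by
  set m : ℝ := ∑ i ∈ S, w i * G i with hm
  have h1 : ∀ i ∈ S, |G i - m| ≤ c := by
    intro i hi
    have e1 : G i - m = ∑ j ∈ S, w j * (G i - G j) := by
      simp only [mul_sub, sum_sub_distrib]
      rw [← sum_mul, hs, one_mul]
    rw [e1]
    calc |∑ j ∈ S, w j * (G i - G j)| ≤ ∑ j ∈ S, |w j * (G i - G j)| := abs_sum_le_sum_abs _ _
      _ ≤ ∑ j ∈ S, w j * c := by
          apply sum_le_sum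
          intro j hj
          rw [abs_mul, abs_of_nonneg (hw j hj)]
          exact mul_le_mul_of_nonneg_left (hG i hi j hj) (hw j hj)
      _ = c := by rw [← sum_mul, hs, one_mul]
  have h2 : ∀ i ∈ S, w i * Real.exp (-s * (G i - m)) ≤
      w i * (-s * (G i - m)) + w i * Real.exp (s ^ 2 * c ^ 2) := by
    intro i hi
    rw [← mul_add]
    apply mul_le_mul_of_nonneg_left _ (hw i hi)
    refine (exp_le_id_add _).trans ?_
    have h3 : (-s * (G i - m)) ^ 2 ≤ s ^ 2 * c ^ 2 := by
      have h4 : (G i - m) ^ 2 ≤ c ^ 2 := sq_le_sq' (by linarith [(abs_le.1 (h1 i hi)).1])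
        (abs_le.1 (h1 i hi)).2
      have h5 : (-s * (G i - m)) ^ 2 = s ^ 2 * (G i - m) ^ 2 := by ring
      rw [h5]
      exact mul_le_mul_of_nonneg_left h4 (sq_nonneg s)
    linarith [Real.exp_le_exp.2 h3]
  have h3 : ∑ i ∈ S, w i * Real.exp (-s * (G i - m)) ≤ Real.exp (s ^ 2 * c ^ 2) := by
    refine (sum_le_sum h2).trans ?_
    rw [sum_add_distrib, ← sum_mul, hs, one_mul]
    have h4 : ∑ i ∈ S, w i * (-s * (G i - m)) = 0 := by
      have h5 : ∀ i ∈ S, w i * (-s * (G i - m)) = (-s) * (w i * G i) + s * m * w i := by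
        intro i _; ring
      rw [sum_congr rfl h5, sum_add_distrib, ← mul_sum, ← mul_sum, hs, ← hm]
      ring
    linarith
  have h4 : ∀ i ∈ S, w i * Real.exp (-s * G i) = Real.exp (-s * m) * (w i * Real.exp (-s * (G i - m))) := by
    intro i _
    have : -s * G i = -s * m + -s * (G i - m) := by ring
    rw [this, Real.exp_add]
    ring
  rw [sum_congr rfl h4, ← mul_sum, Real.exp_add]
  exact mul_le_mul_of_nonneg_left h3 (Real.exp_pos _).le

/-- an average over `A` commutes with fixing the value at a point off `A` -/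
theorem EA_update {A : Finset ℕ} {p : ℕ} (hp : p ∉ A) (a : α) (F : (ℕ → α) → ℝ) (v : ℕ → α) :
    EA V π A F (Function.update v p a) = EA V π A (fun w => F (Function.update w p a)) v := by
  induction A using Finset.induction_on generalizing v with
  | empty => simp only [EA_empty]
  | insert q A hq ih =>
    rw [mem_insert, not_or] at hp
    rw [EA_insert hq, EA_insert hq]
    unfold E1
    apply sum_congr rfl
    intro b _
    rw [Function.update_comm hp.1, ih hp.2]

/-- the bounded differences inequality -/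
theorem mcd (hL : IsLaw V π) (A : Finset ℕ) (F : (ℕ → α) → ℝ) (c : ℕ → ℝ)
    (hc : ∀ p ∈ A, 0 ≤ c p)
    (hF : ∀ p ∈ A, ∀ v : ℕ → α, ∀ a ∈ V p, ∀ b ∈ V p,
      |F (Function.update v p a) - F (Function.update v p b)| ≤ c p) (s : ℝ) (v : ℕ → α) :
    EA V π A (fun w => Real.exp (-s * F w)) v ≤
      Real.exp (-s * EA V π A F v + s ^ 2 * ∑ p ∈ A, c p ^ 2) := by
  induction A using Finset.induction_on generalizing v with
  | empty => simp [EA_empty]
  | insert p A hp ih =>
    rw [EA_insert hp, EA_insert hp, sum_insert hp]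
    have ih' := ih (fun q hq => hc q (mem_insert_of_mem hq)) (fun q hq => hF q (mem_insert_of_mem hq))
    set Q' : ℝ := ∑ q ∈ A, c q ^ 2 with hQ'
    set G : (ℕ → α) → ℝ := EA V π A F with hG
    have hG2 : ∀ a ∈ V p, ∀ b ∈ V p, |G (Function.update v p a) - G (Function.update v p b)| ≤ c p := by
      intro a ha b hb
      rw [hG, EA_update hp, EA_update hp]
      have e1 : EA V π A (fun w => F (Function.update w p a)) v -
          EA V π A (fun w => F (Function.update w p b)) v =
          EA V π A (fun w => F (Function.update w p a) - F (Function.update w p b)) v := by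
        have := congrFun (EA_sub (V := V) (π := π) A (fun w => F (Function.update w p a))
          (fun w => F (Function.update w p b))) v
        simp only [Pi.sub_apply] at this
        rw [← this]
        rfl
      rw [e1, abs_le]
      constructor
      · apply const_le_EA hL.nonneg hL.sum_one
        intro w
        exact (abs_le.1 (hF p (mem_insert_self _ _) w a ha b hb)).1
      · apply EA_le_const hL.nonneg hL.sum_one
        intro w
        exact (abs_le.1 (hF p (mem_insert_self _ _) w a ha b hb)).2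
    have h1 := mcd_one (V p) (π p) (fun a => G (Function.update v p a)) (hL.nonneg p) (hL.sum_one p)
      (c p) s hG2
    have h2 : E1 V π p (EA V π A (fun w => Real.exp (-s * F w))) v ≤
        Real.exp (s ^ 2 * Q') * ∑ a ∈ V p, π p a * Real.exp (-s * G (Function.update v p a)) := by
      unfold E1
      rw [mul_sum]
      apply sum_le_sum
      intro a ha
      have h3 := ih' (Function.update v p a)
      rw [Real.exp_add] at h3
      calc π p a * EA V π A (fun w => Real.exp (-s * F w)) (Function.update v p a) ≤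
          π p a * (Real.exp (-s * G (Function.update v p a)) * Real.exp (s ^ 2 * Q')) :=
            mul_le_mul_of_nonneg_left h3 (hL.nonneg p a ha)
        _ = _ := by ring
    refine h2.trans ?_
    have h3 : E1 V π p G v = ∑ a ∈ V p, π p a * G (Function.update v p a) := rfl
    rw [h3]
    calc Real.exp (s ^ 2 * Q') * ∑ a ∈ V p, π p a * Real.exp (-s * G (Function.update v p a)) ≤
        Real.exp (s ^ 2 * Q') * Real.exp (-s * ∑ a ∈ V p, π p a * G (Function.update v p a) +
          s ^ 2 * c p ^ 2) := mul_le_mul_of_nonneg_left h1 (Real.exp_pos _).le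
      _ = _ := by rw [← Real.exp_add]; congr 1; ring

/-- lower tail: if the mean is at least `μ` then the probability of `F < μ / 2` is small -/
theorem mcd_tail (hL : IsLaw V π) (A : Finset ℕ) (F : (ℕ → α) → ℝ) (c : ℕ → ℝ)
    (hc : ∀ p ∈ A, 0 ≤ c p)
    (hF : ∀ p ∈ A, ∀ v : ℕ → α, ∀ a ∈ V p, ∀ b ∈ V p,
      |F (Function.update v p a) - F (Function.update v p b)| ≤ c p) (v : ℕ → α) (μ Q : ℝ)
    (hμ : 0 ≤ μ) (hEF : μ ≤ EA V π A F v) (hQ : ∑ p ∈ A, c p ^ 2 ≤ Q) (hQ0 : 0 < Q) :
    EA V π A (ind {w | F w < μ / 2}) v ≤ Real.exp (-(μ ^ 2 / (16 * Q))) := by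
  set s : ℝ := μ / (4 * Q) with hs
  have hs0 : 0 ≤ s := by positivity
  have h1 := mcd hL A F c hc hF s v
  have h2 : EA V π A (ind {w | F w < μ / 2}) v ≤
      EA V π A (fun w => Real.exp (s * (μ / 2)) * Real.exp (-s * F w)) v := by
    apply EA_mono hL.nonneg
    intro w
    by_cases hw : w ∈ {w | F w < μ / 2}
    · rw [ind_of_mem hw, ← Real.exp_add]
      have : 0 ≤ s * (μ / 2) + -s * F w := by
        have h3 : F w < μ / 2 := hw
        nlinarith
      exact Real.one_le_exp this
    · rw [ind_of_not_mem hw]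
      positivity
  rw [EA_const_mul] at h2
  refine h2.trans ?_
  calc Real.exp (s * (μ / 2)) * EA V π A (fun w => Real.exp (-s * F w)) v ≤
      Real.exp (s * (μ / 2)) * Real.exp (-s * EA V π A F v + s ^ 2 * ∑ p ∈ A, c p ^ 2) :=
        mul_le_mul_of_nonneg_left h1 (Real.exp_pos _).le
    _ = Real.exp (s * (μ / 2) + (-s * EA V π A F v + s ^ 2 * ∑ p ∈ A, c p ^ 2)) := by
        rw [← Real.exp_add]
    _ ≤ _ := by
        apply Real.exp_le_exp.2
        have h3 : -s * EA V π A F v ≤ -s * μ := by nlinarith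
        have h4 : s ^ 2 * ∑ p ∈ A, c p ^ 2 ≤ s ^ 2 * Q := mul_le_mul_of_nonneg_left hQ (sq_nonneg s)
        have h5 : s * (μ / 2) - s * μ + s ^ 2 * Q = -(μ ^ 2 / (16 * Q)) := by
          rw [hs]
          field_simp
          ring
        linarith

end Pool.Agent.Work.MP_3a3367_nt_h29
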