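import Mathlib
import Pool.Agent.Work.MP_3a3367_nt_h29.MCD
import Pool.Agent.Work.MP_3a3367_nt_h29.SVa
import Pool.Agent.Work.MP_b0c12c_nt_univ.INUa

/-!
# First stage: the light classes
-/

set_option autoImplicit false

namespace Pool.Agent.Work.MP_3a3367_nt_h29

open Finset Filter
open Pool.Agent.Work.MP_b0c12c_nt_univ
open Pool.Agent.Work.MP_b0c12c_nt_univ.INUaux (rp Av EA_Av rp_nonneg rp_le_one)

theorem sum_inv_sq_le (P : Finset ℕ) (W : ℕ) (hW : 0 < W) (hP : ∀ p ∈ P, W < p) :
    ∑ p ∈ P, 1 / (p : ℝ) ^ 2 ≤ 1 / (W : ℝ) := by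
  have h1 : P ⊆ Ioc W (max W (P.sup id)) := by
    intro p hp
    rw [mem_Ioc]
    exact ⟨hP p hp, le_trans (le_sup (f := id) hp) (le_max_right _ _)⟩
  have h2 := sum_Ioc_inv_sq_le_sub (α := ℝ) (k := W) (n := max W (P.sup id)) hW.ne' (le_max_left _ _)
  calc ∑ p ∈ P, 1 / (p : ℝ) ^ 2 ≤ ∑ p ∈ Ioc W (max W (P.sup id)), 1 / (p : ℝ) ^ 2 := by
        apply sum_le_sum_of_subset_of_nonneg h1
        intro p _ _
        positivity
    _ = ∑ p ∈ Ioc W (max W (P.sup id)), ((p : ℝ) ^ 2)⁻¹ := by
        apply sum_congr rfl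
        intro p _
        rw [one_div]
    _ ≤ (W : ℝ)⁻¹ - ((max W (P.sup id) : ℕ) : ℝ)⁻¹ := h2
    _ ≤ 1 / (W : ℝ) := by
        rw [one_div]
        have : (0 : ℝ) ≤ ((max W (P.sup id) : ℕ) : ℝ)⁻¹ := by positivity
        linarith

theorem card_class_le (X a p b : ℕ) (hp : 0 < p) :
    ((#{m ∈ Ico a (a + X) | m ≡ b [MOD p]} : ℕ) : ℝ) ≤ X / p + 1 := by
  have h1 := Pool.Agent.Work.MP_18694c_nt.count_interval p hp (fun m => m ≡ b [MOD p])
    (per_class p b) a X
  rw [one_class p hp b] at h1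
  rw [abs_le] at h1
  have := h1.2
  push_cast at this
  linarith

open Classical in
/-- the number of members of `S` which avoid the classes `y p`, `p ∈ P` -/
noncomputable def NS (P S : Finset ℕ) (y : ℕ → ℕ) : ℝ :=
  ((S.filter fun m => ∀ p ∈ P, ¬ m ≡ y p [MOD p]).card : ℝ)

theorem NS_eq (P S : Finset ℕ) (y : ℕ → ℕ) : NS P S y = ∑ m ∈ S, ind (Av P m) y := by
  classical
  unfold NS
  rw [card_filter]
  push_cast
  apply sum_congr rfl
  intro m _
  by_cases h : ∀ p ∈ P, ¬ m ≡ y p [MOD p]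
  · rw [if_pos h, ind_of_mem (show y ∈ Av P m from h)]
  · rw [if_neg h, ind_of_not_mem (show ¬ y ∈ Av P m from h)]

theorem st1 {V : ℕ → Finset ℕ} {σ : ℕ → ℕ → ℝ} (hL : IsLaw V σ) (P S : Finset ℕ) (X a : ℕ)
    (hX : 0 < X) (C K : ℝ) (hC : 0 ≤ C) (W : ℕ) (hW : 0 < W) (hS : S ⊆ Ico a (a + X))
    (hP : ∀ p ∈ P, p.Prime ∧ W < p ∧ (p : ℝ) ≤ C * X)
    (hhalf : ∀ m ∈ S, ∀ p ∈ P, rp V σ p m ≤ 1 / 2)
    (hK : ∀ m ∈ S, ∑ p ∈ P, rp V σ p m ≤ K) (v : ℕ → ℕ) :
    EA V σ P (ind {y | NS P S y < Real.exp (-(2 * K)) * (#S : ℝ) / 2}) v ≤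
      Real.exp (-((Real.exp (-(2 * K)) * (#S : ℝ)) ^ 2 / (16 * ((1 + C) ^ 2 * (X : ℝ) ^ 2 / W)))) := by
  classical
  have hXpos : (0 : ℝ) < X := by exact_mod_cast hX
  have hWpos : (0 : ℝ) < W := by exact_mod_cast hW
  apply mcd_tail hL P (NS P S) (fun p => (1 + C) * X / p)
  · intro p _
    positivity
  · -- bounded differences
    intro p hp y b1 _ b2 _
    obtain ⟨hpp, _, hpC⟩ := hP p hp
    have hp0 : (0 : ℝ) < p := by exact_mod_cast hpp.pos
    have hone : (1 : ℝ) ≤ C * X / p := by
      rw [le_div_iff₀ hp0, one_mul]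
      exact hpC
    have key : ∀ a1 a2 : ℕ, NS P S (Function.update y p a1) - NS P S (Function.update y p a2) ≤
        (1 + C) * X / p := by
      intro a1 a2
      rw [NS_eq, NS_eq, ← sum_sub_distrib]
      have h1 : ∀ m ∈ S, ind (Av P m) (Function.update y p a1) - ind (Av P m) (Function.update y p a2) ≤
          if m ≡ a2 [MOD p] then (1 : ℝ) else 0 := by
        intro m _
        split_ifs with hm
        · have e1 := ind_le_one (Av P m) (Function.update y p a1)
          have e2 := ind_nonneg (Av P m) (Function.update y p a2)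
          linarith
        · have e1 : ind (Av P m) (Function.update y p a1) ≤ ind (Av P m) (Function.update y p a2) := by
            by_cases h2 : Function.update y p a1 ∈ Av P m
            · rw [ind_of_mem h2, ind_of_mem]
              intro r hr
              by_cases hrp : r = p
              · subst hrp
                rw [Function.update_self]
                exact hm
              · have := h2 r hr
                rw [Function.update_of_ne hrp] at this
                rw [Function.update_of_ne hrp]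
                exact this
            · rw [ind_of_not_mem h2]
              exact ind_nonneg _ _
          linarith
      refine (sum_le_sum h1).trans ?_
      rw [sum_boole]
      have h2 : ((#{m ∈ S | m ≡ a2 [MOD p]} : ℕ) : ℝ) ≤
          ((#{m ∈ Ico a (a + X) | m ≡ a2 [MOD p]} : ℕ) : ℝ) := by
        exact_mod_cast card_le_card (filter_subset_filter _ hS)
      refine h2.trans ((card_class_le X a p a2 hpp.pos).trans ?_)
      have h3 : (1 + C) * (X : ℝ) / p = X / p + C * X / p := by ring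
      rw [h3]
      linarith
    rw [abs_le]
    have k1 := key b1 b2
    have k2 := key b2 b1
    constructor <;> linarith
  · positivity
  · -- the mean
    have h1 : EA V σ P (NS P S) v = ∑ m ∈ S, ∏ p ∈ P, (1 - rp V σ p m) := by
      have : NS P S = fun y => ∑ m ∈ S, ind (Av P m) y := by
        funext y
        exact NS_eq P S y
      rw [this, EA_sum]
      apply sum_congr rfl
      intro m _
      exact EA_Av hL P m v
    rw [h1]
    have h2 : ∑ m ∈ S, Real.exp (-(2 * K)) ≤ ∑ m ∈ S, ∏ p ∈ P, (1 - rp V σ p m) := by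
      apply sum_le_sum
      intro m hm
      calc Real.exp (-(2 * K)) ≤ Real.exp (∑ p ∈ P, -(2 * rp V σ p m)) := by
            apply Real.exp_le_exp.2
            rw [sum_neg_distrib, ← mul_sum]
            linarith [hK m hm]
        _ = ∏ p ∈ P, Real.exp (-(2 * rp V σ p m)) := Real.exp_sum _ _
        _ ≤ ∏ p ∈ P, (1 - rp V σ p m) := by
            apply Finset.prod_le_prod
            · intro p _; positivity
            · intro p hp
              exact Pool.Agent.Work.MP_18694c_nt.one_sub_ge_exp (rp_nonneg hL p m) (hhalf m hm p hp)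
    rw [sum_const, nsmul_eq_mul, mul_comm] at h2
    exact h2
  · -- the sum of squares
    have h1 : ∑ p ∈ P, ((1 + C) * (X : ℝ) / p) ^ 2 = (1 + C) ^ 2 * (X : ℝ) ^ 2 *
        ∑ p ∈ P, 1 / (p : ℝ) ^ 2 := by
      rw [mul_sum]
      apply sum_congr rfl
      intro p _
      ring
    rw [h1]
    have h2 := mul_le_mul_of_nonneg_left (sum_inv_sq_le P W hW fun p hp => (hP p hp).2.1)
      (show 0 ≤ (1 + C) ^ 2 * (X : ℝ) ^ 2 by positivity)
    refine h2.trans (le_of_eq ?_)
    ring
  · positivity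

end Pool.Agent.Work.MP_3a3367_nt_h29
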