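import Mathlib
import Pool.Agent.Work.MP_b0c12c_nt_univ.Op

/-!
# Janson's inequality (lower tail, weighted) for the finite averages `EA` over bits
-/

set_option autoImplicit false

namespace Pool.Agent.Work.MP_3a3367_nt_h29

open Finset Filter
open Pool.Agent.Work.MP_b0c12c_nt_univ

/-- both values of a bit -/
def VB : ℕ → Finset Bool := fun _ => univ

/-- the law of a bit -/
noncomputable def bern (q : ℕ → ℝ) : ℕ → Bool → ℝ := fun p b => if b then q p else 1 - q p

/-- all bits of `U` are on -/
def on (U : Finset ℕ) : Set (ℕ → Bool) := {x | ∀ p ∈ U, x p = true}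

variable {q : ℕ → ℝ}

theorem bern_law (hq : ∀ p, 0 ≤ q p ∧ q p ≤ 1) : IsLaw VB (bern q) := by
  refine ⟨?_, ?_⟩
  · intro p a _
    unfold bern
    split_ifs
    · exact (hq p).1
    · linarith [(hq p).2]
  · intro p
    simp [VB, bern]

theorem E1_bern (p : ℕ) (f : (ℕ → Bool) → ℝ) (x : ℕ → Bool) :
    E1 VB (bern q) p f x =
      q p * f (Function.update x p true) + (1 - q p) * f (Function.update x p false) := by
  simp [E1, VB, bern]

theorem on_dep (U : Finset ℕ) : DependsOn (ind (on U)) (U : Set ℕ) := by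
  apply ind_dependsOn
  intro v w h hv p hp
  rw [← h p hp]
  exact hv p hp

/-- conditioning on ones -/
theorem cond_le (hq : ∀ p, 0 ≤ q p ∧ q p ≤ 1) (A : Finset ℕ) (g : (ℕ → Bool) → ℝ)
    (hg : ∀ x p, g (Function.update x p true) ≤ g x) (U : Finset ℕ) (hU : U ⊆ A)
    (x0 : ℕ → Bool) :
    EA VB (bern q) A (fun x => ind (on U) x * g x) x0 ≤ (∏ p ∈ U, q p) * EA VB (bern q) A g x0 := by
  have hL := bern_law hq
  induction U using Finset.induction_on with
  | empty =>
    have h1 : (fun x => ind (on ∅) x * g x) = g := by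
      funext x
      rw [ind_of_mem (by simp [on]), one_mul]
    rw [h1]
    simp
  | insert p U hp ih =>
    have hpA : p ∈ A := hU (mem_insert_self _ _)
    have ih' := ih ((subset_insert _ _).trans hU)
    set h : (ℕ → Bool) → ℝ := fun x => ind (on U) x * g x with hh
    have hup : ∀ x : ℕ → Bool, ∀ b, h (Function.update x p true) ≤ h (Function.update x p b) := by
      intro x b
      simp only [hh]
      have e1 : ind (on U) (Function.update x p true) = ind (on U) (Function.update x p b) := by
        apply on_dep U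
        intro i hi
        have hip : i ≠ p := by rintro rfl; exact hp hi
        rw [Function.update_of_ne hip, Function.update_of_ne hip]
      rw [e1]
      apply mul_le_mul_of_nonneg_left _ (ind_nonneg _ _)
      have := hg (Function.update x p b) p
      rwa [Function.update_idem] at this
    have e2 : (fun x => ind (on (insert p U)) x * g x) = fun x => ind (on {p}) x * h x := by
      funext x
      simp only [hh, ← mul_assoc]
      congr 1
      have := congrFun (ind_mul (on {p}) (on U)) x
      rw [this]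
      congr 1
      ext y
      simp only [on, mem_insert, forall_eq_or_imp, Set.mem_ofPred_eq, Set.mem_inter_iff,
        mem_singleton, forall_eq]
    rw [e2, prod_insert hp]
    have e3 : EA VB (bern q) A (fun x => ind (on {p}) x * h x) x0 ≤ q p * EA VB (bern q) A h x0 := by
      rw [EA_sdiff (singleton_subset_iff.2 hpA), EA_sdiff (singleton_subset_iff.2 hpA) h]
      have e4 : q p * EA VB (bern q) (A \ {p}) (EA VB (bern q) {p} h) x0 =
          EA VB (bern q) (A \ {p}) (fun x => q p * EA VB (bern q) {p} h x) x0 := by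
        rw [EA_const_mul]
      rw [e4]
      apply EA_mono hL.nonneg
      intro x
      rw [EA_singleton, EA_singleton, E1_bern, E1_bern]
      rw [ind_of_mem (by simp [on]), ind_of_not_mem (by simp [on])]
      have h1 := hup x false
      have h2 := (hq p).1
      have h3 := (hq p).2
      have h4 : h (Function.update x p true) ≤ q p * h (Function.update x p true) +
          (1 - q p) * h (Function.update x p false) := by nlinarith
      nlinarith
    refine e3.trans ?_
    rw [mul_assoc]
    exact mul_le_mul_of_nonneg_left ih' (hq p).1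

theorem on_prob (hq : ∀ p, 0 ≤ q p ∧ q p ≤ 1) (A U : Finset ℕ) (hU : U ⊆ A) (x0 : ℕ → Bool) :
    EA VB (bern q) A (ind (on U)) x0 = ∏ p ∈ U, q p := by
  have hL := bern_law hq
  have h1 : (fun x => ∏ p ∈ U, ind (on {p}) x) = ind (on U) := by
    funext x
    rw [prod_ind]
    congr 1
    ext y
    simp [on]
  rw [← h1, EA_prod_indep hL.sum_one U (fun p _ => on_dep {p})]
  · apply prod_congr rfl
    intro p hp
    rw [EA_restrict hL.sum_one (on_dep {p}) (A' := {p}) (by simpa using hU hp) (by simp),
      EA_singleton, E1_bern, ind_of_mem (by simp [on]), ind_of_not_mem (by simp [on])]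
    ring
  · intro p _ r _ hpr s _ h2 h3
    simp only [coe_singleton, Set.mem_singleton_iff] at h2 h3
    exact hpr (h2.symm.trans h3)

/-- differentiation under `EA` -/
theorem EA_hasDerivAt {α : Type} {V : ℕ → Finset α} {π : ℕ → α → ℝ} (A : Finset ℕ)
    (f : ℝ → (ℕ → α) → ℝ) (f' : (ℕ → α) → ℝ) (t : ℝ)
    (h : ∀ x, HasDerivAt (fun s => f s x) (f' x) t) (v : ℕ → α) :
    HasDerivAt (fun s => EA V π A (f s) v) (EA V π A f' v) t := by
  induction A using Finset.induction_on generalizing v with
  | empty => simpa only [EA_empty] using h v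
  | insert p A hp ih =>
    have h1 : ∀ g : (ℕ → α) → ℝ, EA V π (insert p A) g v =
        ∑ a ∈ V p, π p a * EA V π A g (Function.update v p a) := by
      intro g
      rw [EA_insert hp]
      rfl
    simp only [h1]
    exact HasDerivAt.fun_sum fun a _ => (ih (Function.update v p a)).const_mul (π p a)

open Classical in
/-- Janson's inequality, exponential moment -/
theorem jan (hq : ∀ p, 0 ≤ q p ∧ q p ≤ 1) (A M : Finset ℕ) (R : ℕ → Finset ℕ)
    (hR : ∀ m ∈ M, R m ⊆ A) (θ : ℕ → ℝ) (hθ : ∀ m ∈ M, 0 ≤ θ m) (x0 : ℕ → Bool) (t : ℝ)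
    (ht : 0 ≤ t) :
    EA VB (bern q) A (fun x => Real.exp (-t * ∑ m ∈ M, θ m * ind (on (R m)) x)) x0 ≤
      Real.exp (-(t * ∑ m ∈ M, θ m * ∏ p ∈ R m, q p) + t ^ 2 / 2 *
        ∑ m ∈ M, θ m * ∑ m' ∈ M.filter (fun m' => m' = m ∨ ¬ Disjoint (R m) (R m')),
          θ m' * ∏ p ∈ R m ∪ R m', q p) := by
  have hL := bern_law hq
  set X : (ℕ → Bool) → ℝ := fun x => ∑ m ∈ M, θ m * ind (on (R m)) x with hX
  set N : ℕ → Finset ℕ := fun m => M.filter (fun m' => m' = m ∨ ¬ Disjoint (R m) (R m')) with hN
  set μ : ℝ := ∑ m ∈ M, θ m * ∏ p ∈ R m, q p with hμ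
  set D : ℝ := ∑ m ∈ M, θ m * ∑ m' ∈ N m, θ m' * ∏ p ∈ R m ∪ R m', q p with hD
  set ψ : ℝ → ℝ := fun t => EA VB (bern q) A (fun x => Real.exp (-t * X x)) x0 with hψ
  set ψ' : ℝ → ℝ := fun t => EA VB (bern q) A (fun x => -X x * Real.exp (-t * X x)) x0 with hψ'
  have hder : ∀ t, HasDerivAt ψ (ψ' t) t := by
    intro t
    apply EA_hasDerivAt
    intro x
    have h1 : HasDerivAt (fun s : ℝ => -s * X x) (-X x) t := by
      have := ((hasDerivAt_id t).neg).mul_const (X x)
      simpa using this
    have h2 := h1.exp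
    have h3 : -X x * Real.exp (-t * X x) = Real.exp (-t * X x) * -X x := by ring
    rw [h3]
    exact h2
  have hψ0 : ∀ t, 0 ≤ ψ t := fun t => EA_nonneg hL.nonneg A (fun x => (Real.exp_pos _).le) x0
  -- the key inequality
  have hkey : ∀ t, 0 ≤ t → ψ' t ≤ -(μ - t * D) * ψ t := by
    intro t ht
    have e1 : ψ' t = -∑ m ∈ M, θ m * EA VB (bern q) A
        (fun x => ind (on (R m)) x * Real.exp (-t * X x)) x0 := by
      have e2 : (fun x => -X x * Real.exp (-t * X x)) = fun x => ∑ m ∈ M,
          (-θ m) * (ind (on (R m)) x * Real.exp (-t * X x)) := by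
        funext x
        simp only [hX]
        rw [← sum_neg_distrib, sum_mul]
        apply sum_congr rfl
        intro m _
        ring
      simp only [hψ']
      rw [e2, EA_sum, ← sum_neg_distrib]
      apply sum_congr rfl
      intro m _
      rw [EA_const_mul]
      ring
    have e3 : ∀ m ∈ M, ((∏ p ∈ R m, q p) - t * ∑ m' ∈ N m, θ m' * ∏ p ∈ R m ∪ R m', q p) * ψ t ≤
        EA VB (bern q) A (fun x => ind (on (R m)) x * Real.exp (-t * X x)) x0 := by
      intro m hm
      set M2 : Finset ℕ := M.filter (fun m' => ¬ (m' = m ∨ ¬ Disjoint (R m) (R m'))) with hM2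
      set Y : (ℕ → Bool) → ℝ := fun x => ∑ m' ∈ N m, θ m' * ind (on (R m')) x with hY
      set Z : (ℕ → Bool) → ℝ := fun x => ∑ m' ∈ M2, θ m' * ind (on (R m')) x with hZ
      have hXYZ : ∀ x, X x = Y x + Z x := by
        intro x
        simp only [hX, hY, hZ, hN, hM2]
        exact (sum_filter_add_sum_filter_not _ _ _).symm
      have hY0 : ∀ x, 0 ≤ Y x := fun x => sum_nonneg fun m' hm' =>
        mul_nonneg (hθ m' (mem_filter.1 hm').1) (ind_nonneg _ _)
      have hEZ0 : 0 ≤ EA VB (bern q) A (fun x => Real.exp (-t * Z x)) x0 :=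
        EA_nonneg hL.nonneg A (fun x => (Real.exp_pos _).le) x0
      have hEZ : ψ t ≤ EA VB (bern q) A (fun x => Real.exp (-t * Z x)) x0 := by
        simp only [hψ]
        apply EA_mono hL.nonneg
        intro x
        apply Real.exp_le_exp.2
        rw [hXYZ]
        nlinarith [hY0 x]
      -- lower bound of the integrand
      have h1 : EA VB (bern q) A (fun x => ind (on (R m)) x * Real.exp (-t * Z x) +
          ∑ m' ∈ N m, (-(t * θ m')) * (ind (on (R m ∪ R m')) x * Real.exp (-t * Z x))) x0 ≤
          EA VB (bern q) A (fun x => ind (on (R m)) x * Real.exp (-t * X x)) x0 := by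
        apply EA_mono hL.nonneg
        intro x
        have e4 : ∀ m' ∈ N m, (-(t * θ m')) * (ind (on (R m ∪ R m')) x * Real.exp (-t * Z x)) =
            (-t * (θ m' * ind (on (R m')) x)) * (ind (on (R m)) x * Real.exp (-t * Z x)) := by
          intro m' _
          have e5 : ind (on (R m ∪ R m')) x = ind (on (R m)) x * ind (on (R m')) x := by
            have := congrFun (ind_mul (on (R m)) (on (R m'))) x
            rw [this]
            congr 1
            ext y
            simp only [on, mem_union, Set.mem_ofPred_eq, Set.mem_inter_iff]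
            constructor
            · intro h; exact ⟨fun p hp => h p (Or.inl hp), fun p hp => h p (Or.inr hp)⟩
            · rintro ⟨h3, h4⟩ p (hp | hp)
              · exact h3 p hp
              · exact h4 p hp
          rw [e5]
          ring
        rw [sum_congr rfl e4, ← sum_mul, ← mul_sum]
        have e6 : Real.exp (-t * X x) = Real.exp (-t * Y x) * Real.exp (-t * Z x) := by
          rw [← Real.exp_add, hXYZ]
          congr 1
          ring
        rw [e6]
        have e7 : 1 + -t * Y x ≤ Real.exp (-t * Y x) := by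
          linarith [Real.add_one_le_exp (-t * Y x)]
        have e8 : 0 ≤ ind (on (R m)) x * Real.exp (-t * Z x) :=
          mul_nonneg (ind_nonneg _ _) (Real.exp_pos _).le
        have e9 : ind (on (R m)) x * (Real.exp (-t * Y x) * Real.exp (-t * Z x)) =
            Real.exp (-t * Y x) * (ind (on (R m)) x * Real.exp (-t * Z x)) := by ring
        rw [e9]
        have e10 := mul_le_mul_of_nonneg_right e7 e8
        linarith
      have h2 : EA VB (bern q) A (fun x => ind (on (R m)) x * Real.exp (-t * Z x) +
          ∑ m' ∈ N m, (-(t * θ m')) * (ind (on (R m ∪ R m')) x * Real.exp (-t * Z x))) x0 =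
          EA VB (bern q) A (fun x => ind (on (R m)) x * Real.exp (-t * Z x)) x0 +
          ∑ m' ∈ N m, (-(t * θ m')) * EA VB (bern q) A
            (fun x => ind (on (R m ∪ R m')) x * Real.exp (-t * Z x)) x0 := by
        have a1 := congrFun (EA_add (V := VB) (π := bern q) A
          (fun x => ind (on (R m)) x * Real.exp (-t * Z x))
          (fun x => ∑ m' ∈ N m, (-(t * θ m')) * (ind (on (R m ∪ R m')) x * Real.exp (-t * Z x)))) x0
        have a2 : EA VB (bern q) A (fun x => ind (on (R m)) x * Real.exp (-t * Z x) +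
          ∑ m' ∈ N m, (-(t * θ m')) * (ind (on (R m ∪ R m')) x * Real.exp (-t * Z x))) x0 =
          EA VB (bern q) A (fun x => ind (on (R m)) x * Real.exp (-t * Z x)) x0 +
          EA VB (bern q) A (fun x => ∑ m' ∈ N m,
            (-(t * θ m')) * (ind (on (R m ∪ R m')) x * Real.exp (-t * Z x))) x0 := a1
        rw [a2, EA_sum]
        congr 1
        apply sum_congr rfl
        intro m' _
        rw [EA_const_mul]
      have h3 : EA VB (bern q) A (fun x => ind (on (R m)) x * Real.exp (-t * Z x)) x0 =
          (∏ p ∈ R m, q p) * EA VB (bern q) A (fun x => Real.exp (-t * Z x)) x0 := by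
        have hdZ : DependsOn (fun x => Real.exp (-t * Z x)) ((R m : Set ℕ)ᶜ) := by
          intro v w hvw
          have : Z v = Z w := by
            simp only [hZ]
            apply sum_congr rfl
            intro m' hm'
            have hm2 := (mem_filter.1 hm').2
            push Not at hm2
            congr 1
            apply on_dep (R m')
            intro i hi
            apply hvw i
            intro hi2
            exact (Finset.disjoint_left.1 hm2.2) hi2 hi
          simp only [this]
        rw [EA_mul_indep hL.sum_one (on_dep (R m)) hdZ (fun p _ hp => by simpa using hp)]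
        beta_reduce
        rw [on_prob hq A (R m) (hR m hm)]
      have h4 : ∀ m' ∈ N m, EA VB (bern q) A
            (fun x => ind (on (R m ∪ R m')) x * Real.exp (-t * Z x)) x0 ≤
          (∏ p ∈ R m ∪ R m', q p) * EA VB (bern q) A (fun x => Real.exp (-t * Z x)) x0 := by
        intro m' hm'
        apply cond_le hq A
        · intro x p
          apply Real.exp_le_exp.2
          have : Z x ≤ Z (Function.update x p true) := by
            simp only [hZ]
            apply sum_le_sum
            intro m'' hm''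
            apply mul_le_mul_of_nonneg_left _ (hθ m'' (mem_filter.1 hm'').1)
            by_cases hx : x ∈ on (R m'')
            · rw [ind_of_mem hx, ind_of_mem]
              intro i hi
              by_cases hip : i = p
              · rw [hip, Function.update_self]
              · rw [Function.update_of_ne hip]; exact hx i hi
            · rw [ind_of_not_mem hx]
              exact ind_nonneg _ _
          nlinarith
        · exact union_subset (hR m hm) (hR m' (mem_filter.1 hm').1)
      set EZ := EA VB (bern q) A (fun x => Real.exp (-t * Z x)) x0 with hEZdef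
      set b : ℝ := (∏ p ∈ R m, q p) - t * ∑ m' ∈ N m, θ m' * ∏ p ∈ R m ∪ R m', q p with hb
      have h5 : b * EZ ≤ EA VB (bern q) A (fun x => ind (on (R m)) x * Real.exp (-t * X x)) x0 := by
        refine le_trans ?_ h1
        rw [h2, h3]
        have h6 : ∑ m' ∈ N m, (-(t * θ m')) * ((∏ p ∈ R m ∪ R m', q p) * EZ) ≤
            ∑ m' ∈ N m, (-(t * θ m')) * EA VB (bern q) A
            (fun x => ind (on (R m ∪ R m')) x * Real.exp (-t * Z x)) x0 := by
          apply sum_le_sum
          intro m' hm'
          have h7 : 0 ≤ t * θ m' := mul_nonneg ht (hθ m' (mem_filter.1 hm').1)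
          have h8 := mul_le_mul_of_nonneg_left (h4 m' hm') h7
          linarith
        have h9 : ∑ m' ∈ N m, (-(t * θ m')) * ((∏ p ∈ R m ∪ R m', q p) * EZ) =
            -(t * ∑ m' ∈ N m, θ m' * ∏ p ∈ R m ∪ R m', q p) * EZ := by
          rw [mul_sum, ← sum_neg_distrib, sum_mul]
          apply sum_congr rfl
          intro m' _
          ring
        rw [h9] at h6
        rw [hb]
        linarith
      by_cases hb0 : 0 ≤ b
      · exact (mul_le_mul_of_nonneg_left hEZ hb0).trans h5
      · have h6 : b * ψ t ≤ 0 := mul_nonpos_of_nonpos_of_nonneg (not_le.1 hb0).le (hψ0 t)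
        refine h6.trans ?_
        exact EA_nonneg hL.nonneg A (fun x => mul_nonneg (ind_nonneg _ _) (Real.exp_pos _).le) x0
    rw [e1]
    have e4 : (μ - t * D) * ψ t = ∑ m ∈ M, θ m *
        (((∏ p ∈ R m, q p) - t * ∑ m' ∈ N m, θ m' * ∏ p ∈ R m ∪ R m', q p) * ψ t) := by
      rw [hμ, hD, mul_sum, ← sum_sub_distrib, sum_mul]
      apply sum_congr rfl
      intro m _
      ring
    have e5 := sum_le_sum fun m hm => mul_le_mul_of_nonneg_left (e3 m hm) (hθ m hm)
    rw [← e4] at e5
    linarith
  -- integrate
  set g : ℝ → ℝ := fun t => ψ t * Real.exp (t * μ - t ^ 2 / 2 * D) with hg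
  have hgd : ∀ t, HasDerivAt g (ψ' t * Real.exp (t * μ - t ^ 2 / 2 * D) +
      ψ t * (Real.exp (t * μ - t ^ 2 / 2 * D) * (μ - t * D))) t := by
    intro t
    apply (hder t).mul
    have h1 : HasDerivAt (fun t : ℝ => t * μ - t ^ 2 / 2 * D) (μ - t * D) t := by
      have h2 : HasDerivAt (fun t : ℝ => t * μ) μ t := by
        simpa using (hasDerivAt_id t).mul_const μ
      have h3 : HasDerivAt (fun t : ℝ => t ^ 2 / 2 * D) (t * D) t := by
        have h4 := ((hasDerivAt_pow 2 t).div_const 2).mul_const D
        have h5 : (((2 : ℕ) : ℝ) * t ^ (2 - 1)) / 2 * D = t * D := by push_cast; ring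
        rw [h5] at h4
        exact h4
      exact h2.sub h3
    exact h1.exp
  have hanti : AntitoneOn g (Set.Ici 0) := by
    apply antitoneOn_of_deriv_nonpos (convex_Ici 0)
    · exact fun t _ => (hgd t).continuousAt.continuousWithinAt
    · exact fun t _ => (hgd t).differentiableAt.differentiableWithinAt
    · intro t ht
      rw [interior_Ici, Set.mem_Ioi] at ht
      rw [(hgd t).deriv]
      have h1 := hkey t ht.le
      have h2 := (Real.exp_pos (t * μ - t ^ 2 / 2 * D)).le
      nlinarith
  have h0 : g 0 = 1 := by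
    have h1 : (fun x : ℕ → Bool => Real.exp (-0 * X x)) = fun _ => 1 := by
      funext x; simp
    have h2 : ψ 0 = 1 := by
      simp only [hψ]
      rw [h1, EA_const hL.sum_one]
    have h3 : g 0 = ψ 0 * Real.exp (0 * μ - 0 ^ 2 / 2 * D) := rfl
    rw [h3, h2]
    simp
  have h1 := hanti (Set.mem_Ici.2 le_rfl) (Set.mem_Ici.2 ht) ht
  rw [h0] at h1
  have h2 : ψ t = g t * Real.exp (-(t * μ) + t ^ 2 / 2 * D) := by
    have h3 : g t = ψ t * Real.exp (t * μ - t ^ 2 / 2 * D) := rfl
    rw [h3, mul_assoc, ← Real.exp_add]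
    have : t * μ - t ^ 2 / 2 * D + (-(t * μ) + t ^ 2 / 2 * D) = 0 := by ring
    rw [this, Real.exp_zero, mul_one]
  have h3 : ψ t ≤ 1 * Real.exp (-(t * μ) + t ^ 2 / 2 * D) := by
    rw [h2]
    exact mul_le_mul_of_nonneg_right h1 (Real.exp_pos _).le
  rw [one_mul] at h3
  exact h3

open Classical in
/-- Janson's inequality, lower tail -/
theorem jan_tail (hq : ∀ p, 0 ≤ q p ∧ q p ≤ 1) (A M : Finset ℕ) (R : ℕ → Finset ℕ)
    (hR : ∀ m ∈ M, R m ⊆ A) (θ : ℕ → ℝ) (hθ : ∀ m ∈ M, 0 ≤ θ m) (x0 : ℕ → Bool) (D : ℝ)
    (hD0 : 0 < D)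
    (hD : ∑ m ∈ M, θ m * ∑ m' ∈ M.filter (fun m' => m' = m ∨ ¬ Disjoint (R m) (R m')),
          θ m' * ∏ p ∈ R m ∪ R m', q p ≤ D) :
    EA VB (bern q) A (ind {x | ∑ m ∈ M, θ m * ind (on (R m)) x <
        (∑ m ∈ M, θ m * ∏ p ∈ R m, q p) / 2}) x0 ≤
      Real.exp (-((∑ m ∈ M, θ m * ∏ p ∈ R m, q p) ^ 2 / (8 * D))) := by
  have hL := bern_law hq
  set μ : ℝ := ∑ m ∈ M, θ m * ∏ p ∈ R m, q p with hμ
  set X : (ℕ → Bool) → ℝ := fun x => ∑ m ∈ M, θ m * ind (on (R m)) x with hX
  have hμ0 : 0 ≤ μ := sum_nonneg fun m hm => mul_nonneg (hθ m hm) (prod_nonneg fun p _ => (hq p).1)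
  set t : ℝ := μ / (2 * D) with ht
  have ht0 : 0 ≤ t := by positivity
  have h1 := jan hq A M R hR θ hθ x0 t ht0
  have h2 : EA VB (bern q) A (ind {x | X x < μ / 2}) x0 ≤
      EA VB (bern q) A (fun x => Real.exp (t * (μ / 2)) * Real.exp (-t * X x)) x0 := by
    apply EA_mono hL.nonneg
    intro x
    by_cases hx : x ∈ {x | X x < μ / 2}
    · rw [ind_of_mem hx, ← Real.exp_add]
      have : 0 ≤ t * (μ / 2) + -t * X x := by
        have h3 : X x < μ / 2 := hx
        nlinarith
      exact Real.one_le_exp this
    · rw [ind_of_not_mem hx]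
      positivity
  rw [EA_const_mul] at h2
  refine h2.trans ?_
  refine (mul_le_mul_of_nonneg_left h1 (Real.exp_pos _).le).trans ?_
  rw [← Real.exp_add]
  apply Real.exp_le_exp.2
  have h4 := mul_le_mul_of_nonneg_left hD (show 0 ≤ t ^ 2 / 2 by positivity)
  have h5 : t * (μ / 2) + (-(t * μ) + t ^ 2 / 2 * D) = -(μ ^ 2 / (8 * D)) := by
    rw [ht]
    field_simp
    ring
  linarith

end Pool.Agent.Work.MP_3a3367_nt_h29
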