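import Mathlib
import Pool.Agent.Work.MP_3a3367_nt_h29.JAN
import Pool.Agent.Work.MP_3a3367_nt_h29.SVa

/-!
# Second stage: the heaviest classes
-/

set_option autoImplicit false

namespace Pool.Agent.Work.MP_3a3367_nt_h29

open Finset Filter
open Pool.Agent.Work.MP_b0c12c_nt_univ

/-- the other members of an interval in the intersection of the classes of `m` -/
theorem count_others (U : Finset ℕ) (hU : ∀ p ∈ U, p.Prime) (a X m : ℕ) (hm : m ∈ Ico a (a + X)) :
    ((#{m' ∈ Ico a (a + X) | m' ≠ m ∧ ∀ p ∈ U, m' ≡ m [MOD p]} : ℕ) : ℝ) ≤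
      X * ∏ p ∈ U, (1 / (p : ℝ)) := by
  have h1 := count_classes U hU 1 one_pos (fun p _ => Nat.coprime_one_left p) 0 (fun _ => m) a X
  rw [abs_le] at h1
  have h2 : insert m {m' ∈ Ico a (a + X) | m' ≠ m ∧ ∀ p ∈ U, m' ≡ m [MOD p]} =
      {m' ∈ {m' ∈ Ico a (a + X) | m' ≡ 0 [MOD 1]} | ∀ p ∈ U, m' ≡ m [MOD p]} := by
    ext m'
    simp only [mem_insert, mem_filter, Nat.modEq_one, and_true]
    constructor
    · rintro (rfl | ⟨h3, _, h4⟩)
      · exact ⟨hm, fun p _ => Nat.ModEq.refl _⟩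
      · exact ⟨h3, h4⟩
    · rintro ⟨h3, h4⟩
      by_cases h5 : m' = m
      · exact Or.inl h5
      · exact Or.inr ⟨h3, h5, h4⟩
  rw [← h2, card_insert_of_notMem (by simp)] at h1
  have h3 := h1.2
  push_cast at h3
  linarith

/-- pairs with a common prime -/
theorem pairs_le (S : Finset ℕ) (R : ℕ → Finset ℕ) (c : ℕ → ℕ) (η K : ℝ)
    (hη : η < 1) (X a W : ℕ) (hW : 0 < W) (hS : S ⊆ Ico a (a + X))
    (hR : ∀ m ∈ S, ∀ p ∈ R m, p.Prime ∧ W < p ∧ m ≡ c p [MOD p])
    (hK : ∀ m ∈ S, ((R m).card : ℝ) ≤ K) (m : ℕ) (hm : m ∈ S) :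
    ∑ m' ∈ S.filter (fun m' => m' ≠ m ∧ ¬ Disjoint (R m) (R m')), ∏ p ∈ R m ∩ R m', (p : ℝ) ^ η ≤
      X * Real.exp K * (W : ℝ) ^ (-(1 - η)) := by
  classical
  have hWpos : (0 : ℝ) < W := by exact_mod_cast hW
  set F : Finset ℕ := S.filter (fun m' => m' ≠ m ∧ ¬ Disjoint (R m) (R m')) with hF
  set G : Finset (Finset ℕ) := (R m).powerset.erase ∅ with hG
  have hmaps : ∀ m' ∈ F, R m ∩ R m' ∈ G := by
    intro m' hm'
    rw [hG, mem_erase, mem_powerset]
    refine ⟨?_, inter_subset_left⟩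
    have h1 := (mem_filter.1 hm').2.2
    rw [disjoint_iff_inter_eq_empty] at h1
    exact h1
  rw [← sum_fiberwise_of_maps_to hmaps]
  have h1 : ∀ U ∈ G, ∑ m' ∈ F.filter (fun m' => R m ∩ R m' = U), ∏ p ∈ R m ∩ R m', (p : ℝ) ^ η ≤
      X * (W : ℝ) ^ (-(1 - η)) := by
    intro U hU
    rw [hG, mem_erase, mem_powerset] at hU
    have hUp : ∀ p ∈ U, p.Prime ∧ W < p ∧ m ≡ c p [MOD p] := fun p hp => hR m hm p (hU.2 hp)
    have h2 : ∑ m' ∈ F.filter (fun m' => R m ∩ R m' = U), ∏ p ∈ R m ∩ R m', (p : ℝ) ^ η =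
        (#(F.filter (fun m' => R m ∩ R m' = U)) : ℝ) * ∏ p ∈ U, (p : ℝ) ^ η := by
      rw [← nsmul_eq_mul, ← sum_const]
      apply sum_congr rfl
      intro m' hm'
      rw [(mem_filter.1 hm').2]
    rw [h2]
    have h3 : (#(F.filter (fun m' => R m ∩ R m' = U)) : ℝ) ≤ X * ∏ p ∈ U, (1 / (p : ℝ)) := by
      refine le_trans ?_ (count_others U (fun p hp => (hUp p hp).1) a X m (hS hm))
      have : #(F.filter (fun m' => R m ∩ R m' = U)) ≤
          #{m' ∈ Ico a (a + X) | m' ≠ m ∧ ∀ p ∈ U, m' ≡ m [MOD p]} := by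
        apply card_le_card
        intro m' hm'
        rw [mem_filter, hF, mem_filter] at hm'
        obtain ⟨⟨h4, h5, _⟩, h6⟩ := hm'
        rw [mem_filter]
        refine ⟨hS h4, h5, fun p hp => ?_⟩
        have h7 : p ∈ R m ∩ R m' := by rw [h6]; exact hp
        rw [mem_inter] at h7
        exact (hR m' h4 p h7.2).2.2.trans (hR m hm p h7.1).2.2.symm
      exact_mod_cast this
    have h4 : 0 ≤ ∏ p ∈ U, (p : ℝ) ^ η := prod_nonneg fun p _ => by positivity
    refine (mul_le_mul_of_nonneg_right h3 h4).trans ?_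
    rw [mul_assoc, ← prod_mul_distrib]
    apply mul_le_mul_of_nonneg_left _ (Nat.cast_nonneg X)
    obtain ⟨p0, hp0⟩ := nonempty_iff_ne_empty.2 hU.1
    rw [← mul_prod_erase U _ hp0]
    have hfac : ∀ p ∈ U, 1 / (p : ℝ) * (p : ℝ) ^ η = (p : ℝ) ^ (-(1 - η)) := by
      intro p hp
      have hp1 : (0 : ℝ) < p := by exact_mod_cast (hUp p hp).1.pos
      have : -(1 - η) = -1 + η := by ring
      rw [this, Real.rpow_add hp1, Real.rpow_neg_one, one_div]
    have h5 : ∏ p ∈ U.erase p0, (1 / (p : ℝ) * (p : ℝ) ^ η) ≤ 1 := by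
      apply prod_le_one
      · intro p _; positivity
      · intro p hp
        rw [hfac p (mem_of_mem_erase hp)]
        apply Real.rpow_le_one_of_one_le_of_nonpos
        · exact_mod_cast (hUp p (mem_of_mem_erase hp)).1.one_lt.le
        · linarith
    have h6 : 1 / (p0 : ℝ) * (p0 : ℝ) ^ η ≤ (W : ℝ) ^ (-(1 - η)) := by
      rw [hfac p0 hp0]
      apply Real.rpow_le_rpow_of_nonpos hWpos _ (by linarith)
      exact_mod_cast (hUp p0 hp0).2.1.le
    calc 1 / (p0 : ℝ) * (p0 : ℝ) ^ η * ∏ p ∈ U.erase p0, (1 / (p : ℝ) * (p : ℝ) ^ η) ≤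
        (W : ℝ) ^ (-(1 - η)) * 1 := by
          apply mul_le_mul h6 h5 _ (by positivity)
          exact prod_nonneg fun p _ => by positivity
      _ = _ := mul_one _
  refine (sum_le_sum h1).trans ?_
  rw [sum_const, nsmul_eq_mul]
  have h2 : (#G : ℝ) ≤ Real.exp K := by
    have e1 : #G ≤ 2 ^ #(R m) := by
      rw [hG, ← card_powerset]
      exact card_le_card (erase_subset _ _)
    have e2 : (#G : ℝ) ≤ 2 ^ #(R m) := by exact_mod_cast e1
    refine e2.trans ?_
    have e3 : (2 : ℝ) ≤ Real.exp 1 := by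
      have := Real.add_one_le_exp (1 : ℝ)
      linarith
    calc (2 : ℝ) ^ #(R m) ≤ Real.exp 1 ^ #(R m) := pow_le_pow_left₀ (by norm_num) e3 _
      _ = Real.exp (#(R m)) := by rw [← Real.exp_nat_mul, mul_one]
      _ ≤ Real.exp K := Real.exp_le_exp.2 (hK m hm)
  calc (#G : ℝ) * (X * (W : ℝ) ^ (-(1 - η))) ≤ Real.exp K * (X * (W : ℝ) ^ (-(1 - η))) := by
        apply mul_le_mul_of_nonneg_right h2
        positivity
    _ = _ := by ring

theorem st2 {q : ℕ → ℝ} (hq : ∀ p, 0 ≤ q p ∧ q p ≤ 1) (T S : Finset ℕ) (R : ℕ → Finset ℕ)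
    (c : ℕ → ℕ) (η K w0 : ℝ) (hη : η < 1) (X a W : ℕ) (hW : 0 < W)
    (hS : S ⊆ Ico a (a + X)) (hRT : ∀ m ∈ S, R m ⊆ T)
    (hR : ∀ m ∈ S, ∀ p ∈ R m, p.Prime ∧ W < p ∧ m ≡ c p [MOD p] ∧ (p : ℝ) ^ (-η) ≤ q p)
    (hK : ∀ m ∈ S, ((R m).card : ℝ) ≤ K) (hw0 : 0 < w0)
    (hw : ∀ m ∈ S, w0 ≤ ∏ p ∈ R m, (p : ℝ) ^ (-η)) (x0 : ℕ → Bool) :
    EA VB (bern q) T (ind {x | ((S.filter fun m => ∀ p ∈ R m, x p = true).card : ℝ) <
        (#S : ℝ) * w0 / 2}) x0 ≤
      Real.exp (-((#S : ℝ) * w0 / (8 * (1 + w0 * (X * Real.exp K * (W : ℝ) ^ (-(1 - η))))))) := by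
  classical
  have hL := bern_law hq
  set B : ℝ := X * Real.exp K * (W : ℝ) ^ (-(1 - η)) with hB
  have hB0 : 0 ≤ B := by positivity
  rcases S.eq_empty_or_nonempty with hSe | hSne
  · rw [hSe]
    simp only [card_empty, Nat.cast_zero, zero_mul, zero_div, neg_zero, Real.exp_zero]
    exact EA_le_one hL.nonneg hL.sum_one T (ind_le_one _) x0
  have hs0 : (0 : ℝ) < #S := by exact_mod_cast hSne.card_pos
  have hPpos : ∀ m ∈ S, 0 < ∏ p ∈ R m, q p := by
    intro m hm
    apply Finset.prod_pos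
    intro p hp
    have hp1 : (0 : ℝ) < p := by exact_mod_cast (hR m hm p hp).1.pos
    exact lt_of_lt_of_le (by positivity) (hR m hm p hp).2.2.2
  have hPge : ∀ m ∈ S, w0 ≤ ∏ p ∈ R m, q p := by
    intro m hm
    refine (hw m hm).trans ?_
    apply Finset.prod_le_prod
    · intro p _; positivity
    · intro p hp
      exact (hR m hm p hp).2.2.2
  set θ : ℕ → ℝ := fun m => w0 / ∏ p ∈ R m, q p with hθ
  have hθ0 : ∀ m ∈ S, 0 ≤ θ m := fun m hm => (div_pos hw0 (hPpos m hm)).le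
  have hθ1 : ∀ m ∈ S, θ m ≤ 1 := fun m hm => by
    simp only [hθ]
    rw [div_le_one (hPpos m hm)]
    exact hPge m hm
  have hθP : ∀ m ∈ S, θ m * ∏ p ∈ R m, q p = w0 := by
    intro m hm
    simp only [hθ]
    rw [div_mul_cancel₀ _ (hPpos m hm).ne']
  have hμ : ∑ m ∈ S, θ m * ∏ p ∈ R m, q p = (#S : ℝ) * w0 := by
    rw [sum_congr rfl hθP, sum_const, nsmul_eq_mul]
  have hDbound : ∑ m ∈ S, θ m * ∑ m' ∈ S.filter (fun m' => m' = m ∨ ¬ Disjoint (R m) (R m')),
      θ m' * ∏ p ∈ R m ∪ R m', q p ≤ (#S : ℝ) * w0 * (1 + w0 * B) := by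
    have h1 : ∀ m ∈ S, θ m * ∑ m' ∈ S.filter (fun m' => m' = m ∨ ¬ Disjoint (R m) (R m')),
        θ m' * ∏ p ∈ R m ∪ R m', q p ≤ w0 * (1 + w0 * B) := by
      intro m hm
      have h2 : S.filter (fun m' => m' = m ∨ ¬ Disjoint (R m) (R m')) ⊆
          insert m (S.filter (fun m' => m' ≠ m ∧ ¬ Disjoint (R m) (R m'))) := by
        intro m' hm'
        rw [mem_filter] at hm'
        rw [mem_insert, mem_filter]
        by_cases h3 : m' = m
        · exact Or.inl h3
        · right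
          refine ⟨hm'.1, h3, ?_⟩
          rcases hm'.2 with h4 | h4
          · exact absurd h4 h3
          · exact h4
      have h3 : ∑ m' ∈ S.filter (fun m' => m' = m ∨ ¬ Disjoint (R m) (R m')),
          θ m' * ∏ p ∈ R m ∪ R m', q p ≤ ∑ m' ∈
          insert m (S.filter (fun m' => m' ≠ m ∧ ¬ Disjoint (R m) (R m'))),
          θ m' * ∏ p ∈ R m ∪ R m', q p := by
        apply sum_le_sum_of_subset_of_nonneg h2
        intro m' hm' _
        have hm'S : m' ∈ S := by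
          rw [mem_insert, mem_filter] at hm'
          rcases hm' with h | h
          · rw [h]; exact hm
          · exact h.1
        exact mul_nonneg (hθ0 m' hm'S) (prod_nonneg fun p _ => (hq p).1)
      rw [sum_insert (by simp)] at h3
      refine (mul_le_mul_of_nonneg_left h3 (hθ0 m hm)).trans ?_
      rw [mul_add]
      have h4 : θ m * (θ m * ∏ p ∈ R m ∪ R m, q p) ≤ w0 := by
        rw [union_self, hθP m hm]
        exact mul_le_of_le_one_left hw0.le (hθ1 m hm)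
      have h5 : θ m * ∑ m' ∈ S.filter (fun m' => m' ≠ m ∧ ¬ Disjoint (R m) (R m')),
          θ m' * ∏ p ∈ R m ∪ R m', q p ≤ w0 * (w0 * B) := by
        have h6 : ∀ m' ∈ S.filter (fun m' => m' ≠ m ∧ ¬ Disjoint (R m) (R m')),
            θ m * (θ m' * ∏ p ∈ R m ∪ R m', q p) ≤ w0 * w0 * ∏ p ∈ R m ∩ R m', (p : ℝ) ^ η := by
          intro m' hm'
          have hm'S : m' ∈ S := (mem_filter.1 hm').1
          have e1 : (∏ p ∈ R m ∪ R m', q p) * ∏ p ∈ R m ∩ R m', q p =
              (∏ p ∈ R m, q p) * ∏ p ∈ R m', q p := prod_union_inter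
          have hI : 0 < ∏ p ∈ R m ∩ R m', q p := by
            apply Finset.prod_pos
            intro p hp
            have hp2 := hR m hm p (mem_inter.1 hp).1
            have hp1 : (0 : ℝ) < p := by exact_mod_cast hp2.1.pos
            exact lt_of_lt_of_le (by positivity) hp2.2.2.2
          have e2 : θ m * (θ m' * ∏ p ∈ R m ∪ R m', q p) = w0 * w0 / ∏ p ∈ R m ∩ R m', q p := by
            rw [eq_div_iff hI.ne']
            calc θ m * (θ m' * ∏ p ∈ R m ∪ R m', q p) * ∏ p ∈ R m ∩ R m', q p =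
                θ m * θ m' * ((∏ p ∈ R m ∪ R m', q p) * ∏ p ∈ R m ∩ R m', q p) := by ring
              _ = (θ m * ∏ p ∈ R m, q p) * (θ m' * ∏ p ∈ R m', q p) := by rw [e1]; ring
              _ = w0 * w0 := by rw [hθP m hm, hθP m' hm'S]
          rw [e2, div_eq_mul_inv]
          apply mul_le_mul_of_nonneg_left _ (by positivity)
          rw [← prod_inv_distrib]
          apply Finset.prod_le_prod
          · intro p _
            exact inv_nonneg.2 (hq p).1
          · intro p hp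
            have hp2 := hR m hm p (mem_inter.1 hp).1
            have hp1 : (0 : ℝ) < p := by exact_mod_cast hp2.1.pos
            have h7 : (q p)⁻¹ ≤ ((p : ℝ) ^ (-η))⁻¹ :=
              inv_anti₀ (by positivity) hp2.2.2.2
            rwa [← Real.rpow_neg hp1.le, neg_neg] at h7
        rw [mul_sum]
        refine (sum_le_sum h6).trans ?_
        rw [← mul_sum, mul_assoc]
        apply mul_le_mul_of_nonneg_left _ hw0.le
        apply mul_le_mul_of_nonneg_left _ hw0.le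
        exact pairs_le S R c η K hη X a W hW hS
          (fun m hm p hp => ⟨(hR m hm p hp).1, (hR m hm p hp).2.1, (hR m hm p hp).2.2.1⟩) hK m hm
      have h6 : w0 * (1 + w0 * B) = w0 + w0 * (w0 * B) := by ring
      rw [h6]
      linarith
    refine (sum_le_sum h1).trans ?_
    rw [sum_const, nsmul_eq_mul]
    exact le_of_eq (by ring)
  have hD0 : 0 < (#S : ℝ) * w0 * (1 + w0 * B) := by positivity
  have hJ := jan_tail hq T S R hRT θ hθ0 x0 ((#S : ℝ) * w0 * (1 + w0 * B)) hD0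
    (by convert hDbound)
  rw [hμ] at hJ
  have h1 : ((#S : ℝ) * w0) ^ 2 / (8 * ((#S : ℝ) * w0 * (1 + w0 * B))) =
      (#S : ℝ) * w0 / (8 * (1 + w0 * B)) := by
    have h2 : (0 : ℝ) < 1 + w0 * B := by positivity
    field_simp
  rw [h1] at hJ
  refine le_trans ?_ hJ
  apply EA_mono hL.nonneg
  intro x
  apply ind_mono
  intro hx
  have hx' : ((S.filter fun m => ∀ p ∈ R m, x p = true).card : ℝ) < (#S : ℝ) * w0 / 2 := hx
  show ∑ m ∈ S, θ m * ind (on (R m)) x < (#S : ℝ) * w0 / 2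
  refine lt_of_le_of_lt ?_ hx'
  rw [card_filter]
  push_cast
  apply sum_le_sum
  intro m hm
  by_cases h : ∀ p ∈ R m, x p = true
  · rw [if_pos h, ind_of_mem (show x ∈ on (R m) from h), mul_one]
    exact hθ1 m hm
  · rw [if_neg h, ind_of_not_mem (show ¬ x ∈ on (R m) from h), mul_zero]

end Pool.Agent.Work.MP_3a3367_nt_h29
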