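import Mathlib
import Pool.Agent.Work.MP_3a3367_nt_h29.MCD
import Pool.Agent.Work.MP_3a3367_nt_h29.JAN

/-!
# Decomposition of a law: heaviest class or not
-/

set_option autoImplicit false

namespace Pool.Agent.Work.MP_3a3367_nt_h29

open Finset Filter
open Pool.Agent.Work.MP_b0c12c_nt_univ

variable {V : ℕ → Finset ℕ} {π σ : ℕ → ℕ → ℝ}

/-- the classes: `c p` if the bit at `p` is off, `y p` if it is on -/
def comb (c : ℕ → ℕ) (T : Finset ℕ) (x : ℕ → Bool) (y : ℕ → ℕ) : ℕ → ℕ :=
  fun p => if p ∈ T then (if x p then y p else c p) else y p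

theorem comb_empty (c : ℕ → ℕ) (x : ℕ → Bool) (y : ℕ → ℕ) : comb c ∅ x y = y := by
  funext p
  simp [comb]

theorem comb_insert_true {c : ℕ → ℕ} {T : Finset ℕ} {p : ℕ} (hp : p ∉ T) (x : ℕ → Bool)
    (y : ℕ → ℕ) : comb c (insert p T) (Function.update x p true) y = comb c T x y := by
  funext r
  unfold comb
  by_cases hr : r = p
  · subst hr
    simp [hp]
  · simp [hr, Function.update_of_ne hr]

theorem comb_insert_false {c : ℕ → ℕ} {T : Finset ℕ} {p : ℕ} (hp : p ∉ T) (x : ℕ → Bool)
    (y : ℕ → ℕ) : comb c (insert p T) (Function.update x p false) y =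
      comb c T x (Function.update y p (c p)) := by
  funext r
  unfold comb
  by_cases hr : r = p
  · subst hr
    simp [hp]
  · simp [hr, Function.update_of_ne hr]

/-- change of law at the points of `T` -/
theorem transfer (c : ℕ → ℕ) (q : ℕ → ℝ) (T : Finset ℕ)
    (hc : ∀ p ∈ T, c p ∈ V p) (hq : ∀ p ∈ T, q p = 1 - π p (c p))
    (hσ : ∀ p ∈ T, ∀ a ∈ V p, σ p a * q p = if a = c p then 0 else π p a)
    (hσ1 : ∀ p ∈ T, ∑ a ∈ V p, σ p a = 1)
    (f : (ℕ → ℕ) → ℝ) (x0 : ℕ → Bool) (v : ℕ → ℕ) :
    EA V π T f v =
      EA V σ T (fun y => EA VB (bern q) T (fun x => f (comb c T x y)) x0) v := by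
  induction T using Finset.induction_on generalizing f v with
  | empty => simp only [EA_empty, comb_empty]
  | insert p T hp ih =>
    have ih' := ih (fun r hr => hc r (mem_insert_of_mem hr)) (fun r hr => hq r (mem_insert_of_mem hr))
      (fun r hr => hσ r (mem_insert_of_mem hr)) (fun r hr => hσ1 r (mem_insert_of_mem hr))
    set H : (ℕ → ℕ) → ℝ := fun y => EA VB (bern q) T (fun x => f (comb c T x y)) x0 with hH
    set G : (ℕ → ℕ) → ℝ := EA V σ T H with hG
    have hpm := mem_insert_self p T
    -- left side
    have hL : EA V π (insert p T) f v = ∑ a ∈ V p, π p a * G (Function.update v p a) := by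
      rw [EA_insert hp]
      unfold E1
      apply sum_congr rfl
      intro a _
      rw [ih']
    -- inner average
    have hI : (fun y => EA VB (bern q) (insert p T) (fun x => f (comb c (insert p T) x y)) x0) =
        fun y => q p * H y + (1 - q p) * H (Function.update y p (c p)) := by
      funext y
      rw [EA_insert' hp]
      have h1 : E1 VB (bern q) p (fun x => f (comb c (insert p T) x y)) =
          (fun x => q p * f (comb c T x y)) +
            fun x => (1 - q p) * f (comb c T x (Function.update y p (c p))) := by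
        funext x
        rw [E1_bern]
        simp only [comb_insert_true hp, comb_insert_false hp, Pi.add_apply]
      rw [h1, EA_add, EA_const_mul, EA_const_mul]
      rfl
    have hR : EA V σ T (fun y => q p * H y + (1 - q p) * H (Function.update y p (c p))) =
        fun w => q p * G w + (1 - q p) * G (Function.update w p (c p)) := by
      have h1 := EA_add (V := V) (π := σ) T (fun y => q p * H y)
        (fun y => (1 - q p) * H (Function.update y p (c p)))
      have h2 : ((fun y => q p * H y) + fun y => (1 - q p) * H (Function.update y p (c p))) =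
        fun y => q p * H y + (1 - q p) * H (Function.update y p (c p)) := rfl
      rw [h2] at h1
      rw [h1, EA_const_mul, EA_const_mul]
      funext w
      simp only [Pi.add_apply]
      rw [hG, EA_update hp]
    rw [hL, hI, EA_insert hp, hR]
    unfold E1
    have h3 : ∀ a ∈ V p, σ p a * (q p * G (Function.update v p a) + (1 - q p) *
        G (Function.update (Function.update v p a) p (c p))) =
        (if a = c p then 0 else π p a) * G (Function.update v p a) +
          σ p a * ((1 - q p) * G (Function.update v p (c p))) := by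
      intro a ha
      rw [Function.update_idem, ← hσ p hpm a ha]
      ring
    rw [sum_congr rfl h3, sum_add_distrib, ← sum_mul, hσ1 p hpm, one_mul]
    have h4 : 1 - q p = π p (c p) := by rw [hq p hpm]; ring
    rw [h4]
    have h5 : ∑ a ∈ V p, (if a = c p then 0 else π p a) * G (Function.update v p a) =
        ∑ a ∈ V p, π p a * G (Function.update v p a) - π p (c p) * G (Function.update v p (c p)) := by
      rw [← sum_erase_add _ _ (hc p hpm), ← sum_erase_add (V p) _ (hc p hpm)]
      rw [if_pos rfl, zero_mul, add_zero, add_sub_cancel_right]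
      apply sum_congr rfl
      intro a ha
      rw [if_neg (ne_of_mem_erase ha)]
    rw [h5]
    ring

/-- the average depends only on the weights at the points of `A` -/
theorem EA_congr_law {α : Type} {V : ℕ → Finset α} {π σ : ℕ → α → ℝ} (A : Finset ℕ)
    (h : ∀ p ∈ A, ∀ a ∈ V p, π p a = σ p a) (f : (ℕ → α) → ℝ) : EA V π A f = EA V σ A f := by
  induction A using Finset.induction_on with
  | empty => simp only [EA_empty]
  | insert p A hp ih =>
    rw [EA_insert hp, EA_insert hp, ih fun r hr => h r (mem_insert_of_mem hr)]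
    funext v
    unfold E1
    apply sum_congr rfl
    intro a ha
    rw [h p (mem_insert_self _ _) a ha]

/-- change of law on a subset -/
theorem transfer' (c : ℕ → ℕ) (q : ℕ → ℝ) (P T : Finset ℕ) (hTP : T ⊆ P)
    (hc : ∀ p ∈ T, c p ∈ V p) (hq : ∀ p ∈ T, q p = 1 - π p (c p))
    (hσ : ∀ p ∈ T, ∀ a ∈ V p, σ p a * q p = if a = c p then 0 else π p a)
    (hσ1 : ∀ p ∈ T, ∑ a ∈ V p, σ p a = 1)
    (hσ2 : ∀ p ∈ P, p ∉ T → ∀ a ∈ V p, σ p a = π p a)
    (f : (ℕ → ℕ) → ℝ) (x0 : ℕ → Bool) (v : ℕ → ℕ) :
    EA V π P f v =
      EA V σ P (fun y => EA VB (bern q) T (fun x => f (comb c T x y)) x0) v := by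
  rw [EA_sdiff hTP, EA_sdiff (π := σ) hTP]
  rw [EA_congr_law (P \ T) (π := π) (σ := σ) fun p hp a ha =>
    (hσ2 p (mem_sdiff.1 hp).1 (mem_sdiff.1 hp).2 a ha).symm]
  congr 1
  funext y
  exact transfer c q T hc hq hσ hσ1 f x0 y

end Pool.Agent.Work.MP_3a3367_nt_h29
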