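import Mathlib
import Pool.Agent.Work.MP_3a3367_nt_h29.STa
import Pool.Agent.Work.MP_3a3367_nt_h29.STb
import Pool.Agent.Work.MP_3a3367_nt_h29.COL
import Pool.Agent.Work.MP_3a3367_nt_h29.TRA

/-!
# The two stages together
-/

set_option autoImplicit false

namespace Pool.Agent.Work.MP_3a3367_nt_h29

open Finset Filter
open Pool.Agent.Work.MP_b0c12c_nt_univ
open Pool.Agent.Work.MP_b0c12c_nt_univ.INUaux (rp Av EA_Av rp_nonneg rp_le_one)

/-- the law without the class `c p` -/
noncomputable def wo (π : ℕ → ℕ → ℝ) (c : ℕ → ℕ) : ℕ → ℕ → ℝ :=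
  fun p b => if b = c p then 0 else π p b / (1 - π p (c p))

theorem rp_eq {V : ℕ → Finset ℕ} {κ : ℕ → ℕ → ℝ} {p : ℕ} (hV : ∀ b ∈ V p, b < p)
    (m : ℕ) : rp V κ p m = if m % p ∈ V p then κ p (m % p) else 0 := by
  unfold rp
  have h1 : ∀ b ∈ V p, (m ≡ b [MOD p] ↔ b = m % p) := by
    intro b hb
    constructor
    · intro h
      exact (Nat.mod_eq_of_modEq h (hV b hb)).symm
    · rintro h
      rw [h]
      exact (Nat.mod_modEq _ _).symm
  split_ifs with h
  · rw [sum_eq_single (m % p)]
    · rw [if_pos (Nat.mod_modEq _ _).symm]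
    · intro b hb hbm
      rw [if_neg]
      rw [h1 b hb]
      exact hbm
    · intro h2
      exact absurd h h2
  · apply sum_eq_zero
    intro b hb
    rw [if_neg]
    rw [h1 b hb]
    rintro rfl
    exact h hb

theorem core {V : ℕ → Finset ℕ} {π : ℕ → ℕ → ℝ} (hL : IsLaw V π) (P S : Finset ℕ) (X a W : ℕ)
    (hX : 0 < X) (hW : 0 < W) (C K η w0 : ℝ) (hC : 0 ≤ C)
    (hP : ∀ p ∈ P, p.Prime ∧ W < p ∧ (p : ℝ) ≤ C * X) (hV : ∀ p ∈ P, ∀ b ∈ V p, b < p)
    (c d : ℕ → ℕ) (hc : ∀ p ∈ P, c p ∈ V p) (hd : ∀ p ∈ P, d p ∈ V p ∧ d p ≠ c p)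
    (hcmax : ∀ p ∈ P, ∀ b ∈ V p, π p b ≤ π p (c p))
    (hdmax : ∀ p ∈ P, ∀ b ∈ V p, b ≠ c p → π p b ≤ π p (d p)) (hη : η < 1)
    (hπη : ∀ p ∈ P, π p (c p) ≤ 1 - (p : ℝ) ^ (-η)) (hS : S ⊆ Ico a (a + X))
    (hK : ∀ m ∈ S, ((P.filter fun p => m ≡ c p [MOD p]).card : ℝ) +
      ((P.filter fun p => m ≡ d p [MOD p]).card : ℝ) ≤ K)
    (hK2 : ∀ m ∈ S, ∑ p ∈ P, (rp V π p m + rp V (wo π c) p m) ≤ K)
    (hw0 : 0 < w0) (hw : ∀ m ∈ S, w0 ≤ ∏ p ∈ P.filter (fun p => m ≡ c p [MOD p]), (p : ℝ) ^ (-η))
    (v : ℕ → ℕ) :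
    EA V π P (ind {w | NS P S w < Real.exp (-(3 * K)) * (#S : ℝ) * w0 / 4}) v ≤
      Real.exp (-((Real.exp (-(3 * K)) * (#S : ℝ)) ^ 2 / (16 * ((1 + C) ^ 2 * (X : ℝ) ^ 2 / W)))) +
      Real.exp (-(Real.exp (-(3 * K)) * (#S : ℝ) * w0 /
        (16 * (1 + w0 * (X * Real.exp K * (W : ℝ) ^ (-(1 - η))))))) := by
  classical
  set R : ℕ → Finset ℕ := fun m => P.filter fun p => m ≡ c p [MOD p] with hR
  set D : ℕ → Finset ℕ := fun m => P.filter fun p => m ≡ d p [MOD p] with hD
  have hcd : ∀ p ∈ P, ¬ c p ≡ d p [MOD p] := by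
    intro p hp h
    have := Nat.ModEq.eq_of_lt_of_lt h (hV p hp _ (hc p hp)) (hV p hp _ (hd p hp).1)
    exact (hd p hp).2 this.symm
  obtain ⟨T, hTP, hT⟩ := colour P S R D K (fun m _ => filter_subset _ _)
    (fun m _ => filter_subset _ _) (fun m _ => by
      rw [Finset.disjoint_left]
      intro p hp1 hp2
      rw [mem_filter] at hp1 hp2
      exact hcd p hp1.1 (hp1.2.symm.trans hp2.2)) hK
  set S2 : Finset ℕ := S.filter fun m => R m ⊆ T ∧ Disjoint (D m) T with hS2
  have hS2S : S2 ⊆ S := filter_subset _ _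
  have hq0 : ∀ p ∈ P, 0 < 1 - π p (c p) := by
    intro p hp
    have h1 := hπη p hp
    have h2 : (0 : ℝ) < (p : ℝ) ^ (-η) := by
      have : (0 : ℝ) < p := by exact_mod_cast (hP p hp).1.pos
      positivity
    linarith
  set σ : ℕ → ℕ → ℝ := fun p b => if p ∈ T then wo π c p b else π p b with hσ
  have hwo0 : ∀ p ∈ P, ∀ b ∈ V p, 0 ≤ wo π c p b := by
    intro p hp b hb
    unfold wo
    split_ifs
    · exact le_rfl
    · exact div_nonneg (hL.nonneg p b hb) (hq0 p hp).le
  have hwo1 : ∀ p ∈ P, ∑ b ∈ V p, wo π c p b = 1 := by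
    intro p hp
    have h1 : ∑ b ∈ V p, wo π c p b * (1 - π p (c p)) = 1 - π p (c p) := by
      have h2 : ∀ b ∈ V p, wo π c p b * (1 - π p (c p)) = π p b - if b = c p then π p (c p) else 0 := by
        intro b _
        unfold wo
        split_ifs with h
        · rw [h]; ring
        · rw [div_mul_cancel₀ _ (hq0 p hp).ne']; ring
      rw [sum_congr rfl h2, sum_sub_distrib, hL.sum_one, sum_ite_eq', if_pos (hc p hp)]
    rw [← sum_mul] at h1
    have h3 := (hq0 p hp).ne'
    exact mul_right_cancel₀ h3 (by rw [h1, one_mul])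
  have hσL : IsLaw V σ := by
    refine ⟨?_, ?_⟩
    · intro p b hb
      simp only [hσ]
      split_ifs with h
      · exact hwo0 p (hTP h) b hb
      · exact hL.nonneg p b hb
    · intro p
      by_cases h : p ∈ T
      · have : ∀ b ∈ V p, σ p b = wo π c p b := by
          intro b _
          simp only [hσ, if_pos h]
        rw [sum_congr rfl this]
        exact hwo1 p (hTP h)
      · have : ∀ b ∈ V p, σ p b = π p b := by
          intro b _
          simp only [hσ, if_neg h]
        rw [sum_congr rfl this]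
        exact hL.sum_one p
  -- two different atoms
  have hhalf2 : ∀ (κ : ℕ → ℕ → ℝ) (p : ℕ), (∀ b ∈ V p, 0 ≤ κ p b) → ∑ b ∈ V p, κ p b = 1 →
      ∀ b ∈ V p, ∀ b' ∈ V p, b ≠ b' → κ p b ≤ κ p b' → κ p b ≤ 1 / 2 := by
    intro κ p h0 h1 b hb b' hb' hbb hle
    have h2 : κ p b + κ p b' ≤ 1 := by
      rw [← h1]
      have : ({b, b'} : Finset ℕ) ⊆ V p := by
        intro x hx
        rw [mem_insert, mem_singleton] at hx
        rcases hx with h | h
        · rw [h]; exact hb
        · rw [h]; exact hb'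
      rw [← sum_pair hbb]
      exact sum_le_sum_of_subset_of_nonneg this fun i hi _ => h0 i hi
    linarith
  have hhalf : ∀ m ∈ S2, ∀ p ∈ P, rp V σ p m ≤ 1 / 2 := by
    intro m hm p hp
    have hp0 := (hP p hp).1.pos
    rw [rp_eq (hV p hp)]
    obtain ⟨hmS, hRT, hDT⟩ := mem_filter.1 hm
    split_ifs with hmem
    · by_cases hpT : p ∈ T
      · have e1 : ∀ b, σ p b = wo π c p b := fun b => by simp only [hσ, if_pos hpT]
        rw [e1]
        by_cases h1 : m % p = c p
        · unfold wo
          rw [if_pos h1]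
          norm_num
        · have h2 : m % p ≠ d p := by
            intro h3
            have : p ∈ D m := by
              rw [hD, mem_filter]
              refine ⟨hp, ?_⟩
              rw [← h3]
              exact (Nat.mod_modEq _ _).symm
            exact (Finset.disjoint_left.1 hDT) this hpT
          apply hhalf2 (wo π c) p (hwo0 p hp) (hwo1 p hp) _ hmem (d p) (hd p hp).1 h2
          unfold wo
          rw [if_neg h1, if_neg (hd p hp).2]
          exact div_le_div_of_nonneg_right (hdmax p hp _ hmem h1) (hq0 p hp).le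
      · have e1 : ∀ b, σ p b = π p b := fun b => by simp only [hσ, if_neg hpT]
        rw [e1]
        have h1 : m % p ≠ c p := by
          intro h3
          apply hpT
          apply hRT
          rw [hR, mem_filter]
          refine ⟨hp, ?_⟩
          rw [← h3]
          exact (Nat.mod_modEq _ _).symm
        exact hhalf2 π p (hL.nonneg p) (hL.sum_one p) _ hmem (c p) (hc p hp) h1 (hcmax p hp _ hmem)
    · norm_num
  have hKσ : ∀ m ∈ S2, ∑ p ∈ P, rp V σ p m ≤ K := by
    intro m hm
    refine le_trans ?_ (hK2 m (hS2S hm))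
    apply sum_le_sum
    intro p hp
    have hp0 := (hP p hp).1.pos
    rw [rp_eq (hV p hp), rp_eq (hV p hp), rp_eq (hV p hp)]
    split_ifs with hmem
    · have h1 := hwo0 p hp _ hmem
      have h2 := hL.nonneg p _ hmem
      simp only [hσ]
      split_ifs
      · linarith
      · linarith
    · norm_num
  -- constants
  set s : ℝ := (#S : ℝ) with hs
  set s2 : ℝ := (#S2 : ℝ) with hs2
  set B : ℝ := X * Real.exp K * (W : ℝ) ^ (-(1 - η)) with hB
  have hB0 : 0 ≤ B := by positivity
  have hs0 : 0 ≤ s := Nat.cast_nonneg _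
  have hs20 : 0 ≤ s2 := Nat.cast_nonneg _
  have hκ : Real.exp (-(3 * K)) * s ≤ Real.exp (-(2 * K)) * s2 := by
    have : Real.exp (-(3 * K)) = Real.exp (-(2 * K)) * Real.exp (-K) := by
      rw [← Real.exp_add]; congr 1; ring
    rw [this, mul_assoc]
    exact mul_le_mul_of_nonneg_left hT (Real.exp_pos _).le
  have hκ0 : 0 ≤ Real.exp (-(3 * K)) * s := by positivity
  set κ : ℝ := Real.exp (-(2 * K)) * s2 with hκdef
  -- first stage
  have hst1 := st1 hσL P S2 X a hX C K hC W hW (hS2S.trans hS) hP hhalf hKσ v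
  have hXpos : (0 : ℝ) < X := by exact_mod_cast hX
  have hWpos : (0 : ℝ) < W := by exact_mod_cast hW
  have hE1 : Real.exp (-(κ ^ 2 / (16 * ((1 + C) ^ 2 * (X : ℝ) ^ 2 / W)))) ≤
      Real.exp (-((Real.exp (-(3 * K)) * s) ^ 2 / (16 * ((1 + C) ^ 2 * (X : ℝ) ^ 2 / W)))) := by
    apply Real.exp_le_exp.2
    apply neg_le_neg
    apply div_le_div_of_nonneg_right _ (by positivity)
    exact pow_le_pow_left₀ hκ0 hκ 2
  -- the bits
  set q : ℕ → ℝ := fun p => if p ∈ P then 1 - π p (c p) else 1 with hq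
  have hq01 : ∀ p, 0 ≤ q p ∧ q p ≤ 1 := by
    intro p
    simp only [hq]
    split_ifs with h
    · exact ⟨(hq0 p h).le, by linarith [hL.nonneg p _ (hc p h)]⟩
    · exact ⟨zero_le_one, le_rfl⟩
  set x0 : ℕ → Bool := fun _ => true with hx0
  set t : ℝ := Real.exp (-(3 * K)) * s * w0 / 4 with ht
  rw [transfer' (σ := σ) c q P T hTP (fun p hp => hc p (hTP hp))
    (fun p hp => by simp only [hq, if_pos (hTP hp)])
    (fun p hp b _ => by
      simp only [hσ, if_pos hp, hq, if_pos (hTP hp)]
      unfold wo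
      split_ifs
      · ring
      · rw [div_mul_cancel₀ _ (hq0 p (hTP hp)).ne'])
    (fun p hp => by
      have : ∀ b ∈ V p, σ p b = wo π c p b := by
        intro b _
        simp only [hσ, if_pos hp]
      rw [sum_congr rfl this]
      exact hwo1 p (hTP hp))
    (fun p _ hpT b _ => by simp only [hσ, if_neg hpT]) _ x0 v]
  set E2 : ℝ := Real.exp (-(Real.exp (-(3 * K)) * s * w0 / (16 * (1 + w0 * B)))) with hE2
  have hE20 : 0 ≤ E2 := (Real.exp_pos _).le
  have hpt : ∀ y : ℕ → ℕ, EA VB (bern q) T (fun x => ind {w | NS P S w < t} (comb c T x y)) x0 ≤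
      ind {y | NS P S2 y < κ / 2} y + E2 := by
    intro y
    by_cases hy : NS P S2 y < κ / 2
    · rw [ind_of_mem (show y ∈ {y | NS P S2 y < κ / 2} from hy)]
      have h1 : EA VB (bern q) T (fun x => ind {w | NS P S w < t} (comb c T x y)) x0 ≤ 1 :=
        EA_le_one (bern_law hq01).nonneg (bern_law hq01).sum_one T (fun x => ind_le_one _ _) x0
      linarith
    · rw [ind_of_not_mem (show ¬ y ∈ {y | NS P S2 y < κ / 2} from hy), zero_add]
      rw [not_lt] at hy
      set S1 : Finset ℕ := S2.filter fun m => ∀ p ∈ P, ¬ m ≡ y p [MOD p] with hS1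
      have hS1c : κ / 2 ≤ (#S1 : ℝ) := by
        refine hy.trans (le_of_eq ?_)
        unfold NS
        rw [hS1]
      have hS1S : S1 ⊆ S := (filter_subset _ _).trans hS2S
      have hst2 := st2 hq01 T S1 R c η K w0 hη X a W hW (hS1S.trans hS)
        (fun m hm => (mem_filter.1 (mem_filter.1 hm).1).2.1)
        (fun m hm p hp => by
          rw [hR, mem_filter] at hp
          refine ⟨(hP p hp.1).1, (hP p hp.1).2.1, hp.2, ?_⟩
          simp only [hq, if_pos hp.1]
          linarith [hπη p hp.1])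
        (fun m hm => by
          have h1 := hK m (hS1S hm)
          have h2 : (0 : ℝ) ≤ ((P.filter fun p => m ≡ d p [MOD p]).card : ℝ) := Nat.cast_nonneg _
          have h3 : ((R m).card : ℝ) = ((P.filter fun p => m ≡ c p [MOD p]).card : ℝ) := rfl
          linarith)
        hw0 (fun m hm => hw m (hS1S hm)) x0
      have hmono : EA VB (bern q) T (fun x => ind {w | NS P S w < t} (comb c T x y)) x0 ≤
          EA VB (bern q) T (ind {x | ((S1.filter fun m => ∀ p ∈ R m, x p = true).card : ℝ) <
            (#S1 : ℝ) * w0 / 2}) x0 := by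
        apply EA_mono (bern_law hq01).nonneg
        intro x
        by_cases hx : NS P S (comb c T x y) < t
        · rw [ind_of_mem (show comb c T x y ∈ {w | NS P S w < t} from hx), ind_of_mem]
          show ((S1.filter fun m => ∀ p ∈ R m, x p = true).card : ℝ) < (#S1 : ℝ) * w0 / 2
          have h1 : ((S1.filter fun m => ∀ p ∈ R m, x p = true).card : ℝ) ≤
              NS P S (comb c T x y) := by
            unfold NS
            have h2 : (S1.filter fun m => ∀ p ∈ R m, x p = true).card ≤
                (S.filter fun m => ∀ p ∈ P, ¬ m ≡ comb c T x y p [MOD p]).card := by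
              apply card_le_card
              intro m hm
              rw [mem_filter] at hm
              obtain ⟨hm1, hm2⟩ := hm
              rw [mem_filter]
              refine ⟨hS1S hm1, fun p hp => ?_⟩
              have h3 := (mem_filter.1 hm1).2 p hp
              unfold comb
              split_ifs with h4 h5
              · exact h3
              · intro h6
                have : p ∈ R m := by
                  rw [hR, mem_filter]
                  exact ⟨hp, h6⟩
                exact h5 (hm2 p this)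
              · exact h3
            exact_mod_cast h2
          refine lt_of_le_of_lt h1 (lt_of_lt_of_le hx ?_)
          rw [ht]
          have h3 : Real.exp (-(3 * K)) * s * w0 ≤ κ * w0 := mul_le_mul_of_nonneg_right hκ hw0.le
          have h4 : κ / 2 * w0 ≤ (#S1 : ℝ) * w0 := mul_le_mul_of_nonneg_right hS1c hw0.le
          linarith
        · rw [ind_of_not_mem (show ¬ comb c T x y ∈ {w | NS P S w < t} from hx)]
          exact ind_nonneg _ _
      refine hmono.trans (hst2.trans ?_)
      rw [hE2]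
      apply Real.exp_le_exp.2
      apply neg_le_neg
      have hden : 0 < 1 + w0 * B := by positivity
      have h5 : Real.exp (-(3 * K)) * s ≤ 2 * (#S1 : ℝ) := by linarith
      have h6 : Real.exp (-(3 * K)) * s * w0 ≤ 2 * ((#S1 : ℝ) * w0) := by
        have := mul_le_mul_of_nonneg_right h5 hw0.le
        linarith
      rw [div_le_div_iff₀ (by positivity) (by positivity)]
      have h7 := mul_le_mul_of_nonneg_right h6 (show 0 ≤ 8 * (1 + w0 * B) by positivity)
      linarith
  refine (EA_mono hσL.nonneg P hpt v).trans ?_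
  have h1 : EA V σ P (fun y => ind {y | NS P S2 y < κ / 2} y + E2) v =
      EA V σ P (ind {y | NS P S2 y < κ / 2}) v + E2 := by
    have h2 := congrFun (EA_add (V := V) (π := σ) P (ind {y | NS P S2 y < κ / 2}) (fun _ => E2)) v
    have h3 : (ind {y | NS P S2 y < κ / 2} + fun _ => E2) =
      fun y => ind {y | NS P S2 y < κ / 2} y + E2 := rfl
    rw [h3] at h2
    rw [h2, Pi.add_apply, EA_const hσL.sum_one]
  rw [h1]
  have h2 := hst1.trans hE1
  linarith

end Pool.Agent.Work.MP_3a3367_nt_h29
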