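import Mathlib
import Pool.Agent.Work.MP_3a3367_nt_h29.CORE

/-!
# Selection of good elements
-/

set_option autoImplicit false

namespace Pool.Agent.Work.MP_3a3367_nt_h29

open Finset Filter
open Pool.Agent.Work.MP_b0c12c_nt_univ
open Pool.Agent.Work.MP_b0c12c_nt_univ.INUaux (rp Av EA_Av rp_nonneg rp_le_one)

/-- the mean of the class probability -/
theorem sum_rp_le {V : ℕ → Finset ℕ} {κ : ℕ → ℕ → ℝ} (P S : Finset ℕ) (Mb : ℕ → ℝ)
    (hMb : ∀ p ∈ P, ∀ b, (#{m ∈ S | m ≡ b [MOD p]} : ℝ) ≤ Mb p)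
    (h0 : ∀ p ∈ P, ∀ b ∈ V p, 0 ≤ κ p b) (h1 : ∀ p ∈ P, ∑ b ∈ V p, κ p b = 1) :
    ∑ m ∈ S, ∑ p ∈ P, rp V κ p m ≤ ∑ p ∈ P, Mb p := by
  rw [sum_comm]
  apply sum_le_sum
  intro p hp
  unfold rp
  rw [sum_comm]
  calc ∑ b ∈ V p, ∑ m ∈ S, (if m ≡ b [MOD p] then κ p b else 0) =
      ∑ b ∈ V p, κ p b * (#{m ∈ S | m ≡ b [MOD p]} : ℝ) := by
        apply sum_congr rfl
        intro b _
        rw [← sum_filter, sum_const, nsmul_eq_mul, mul_comm]
    _ ≤ ∑ b ∈ V p, κ p b * Mb p := by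
        apply sum_le_sum
        intro b hb
        exact mul_le_mul_of_nonneg_left (hMb p hp b) (h0 p hp b hb)
    _ = Mb p := by rw [← sum_mul, h1 p hp, one_mul]

theorem sum_card_le (P S : Finset ℕ) (Mb : ℕ → ℝ) (c : ℕ → ℕ)
    (hMb : ∀ p ∈ P, ∀ b, (#{m ∈ S | m ≡ b [MOD p]} : ℝ) ≤ Mb p) (f : ℕ → ℝ)
    (hf : ∀ p ∈ P, 0 ≤ f p) :
    ∑ m ∈ S, ∑ p ∈ P.filter (fun p => m ≡ c p [MOD p]), f p ≤ ∑ p ∈ P, Mb p * f p := by
  calc ∑ m ∈ S, ∑ p ∈ P.filter (fun p => m ≡ c p [MOD p]), f p =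
      ∑ m ∈ S, ∑ p ∈ P, (if m ≡ c p [MOD p] then f p else 0) := by
        apply sum_congr rfl
        intro m _
        rw [sum_filter]
    _ = ∑ p ∈ P, ∑ m ∈ S, (if m ≡ c p [MOD p] then f p else 0) := sum_comm
    _ = ∑ p ∈ P, (#{m ∈ S | m ≡ c p [MOD p]} : ℝ) * f p := by
        apply sum_congr rfl
        intro p _
        rw [← sum_filter, sum_const, nsmul_eq_mul]
    _ ≤ ∑ p ∈ P, Mb p * f p := by
        apply sum_le_sum
        intro p hp
        exact mul_le_mul_of_nonneg_right (hMb p hp _) (hf p hp)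

/-- Markov -/
theorem markov (S : Finset ℕ) (f : ℕ → ℝ) (hf : ∀ m ∈ S, 0 ≤ f m) (K M : ℝ)
    (hM : ∑ m ∈ S, f m ≤ M) : (#{m ∈ S | K < f m} : ℝ) * K ≤ M := by
  refine le_trans ?_ hM
  calc (#{m ∈ S | K < f m} : ℝ) * K = ∑ m ∈ S with K < f m, K := by
        rw [sum_const, nsmul_eq_mul]
    _ ≤ ∑ m ∈ S with K < f m, f m := by
        apply sum_le_sum
        intro m hm
        exact (mem_filter.1 hm).2.le
    _ ≤ ∑ m ∈ S, f m := sum_le_sum_of_subset_of_nonneg (filter_subset _ _) fun m hm _ => hf m hm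

theorem sel {V : ℕ → Finset ℕ} {π : ℕ → ℕ → ℝ} (hL : IsLaw V π) (P S : Finset ℕ) (Mb : ℕ → ℝ)
    (hP : ∀ p ∈ P, p.Prime)
    (hMb : ∀ p ∈ P, ∀ b, (#{m ∈ S | m ≡ b [MOD p]} : ℝ) ≤ Mb p) (c d : ℕ → ℕ)
    (hc : ∀ p ∈ P, c p ∈ V p ∧ π p (c p) < 1) (ε u U η : ℝ) (hε : 0 < ε) (hε1 : ε ≤ 1 / 2)
    (hu : 0 < u) (hU : 0 < U) (hη : 0 ≤ η)
    (hM1 : ∑ p ∈ P, Mb p ≤ 3 * U * #S)
    (hM2 : ∑ p ∈ P, Mb p * Real.log p ≤ (1 + ε) * (u / 2) * #S) :
    ∃ S' ⊆ S, ε / 2 * (#S : ℝ) ≤ #S' ∧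
      (∀ m ∈ S', ((P.filter fun p => m ≡ c p [MOD p]).card : ℝ) +
        ((P.filter fun p => m ≡ d p [MOD p]).card : ℝ) ≤ 48 * U / ε) ∧
      (∀ m ∈ S', ∑ p ∈ P, (rp V π p m + rp V (wo π c) p m) ≤ 48 * U / ε) ∧
      (∀ m ∈ S', Real.exp (-(η * ((1 + 5 * ε) * (u / 2)))) ≤
        ∏ p ∈ P.filter (fun p => m ≡ c p [MOD p]), (p : ℝ) ^ (-η)) := by
  classical
  set s : ℝ := (#S : ℝ) with hs
  have hs0 : 0 ≤ s := Nat.cast_nonneg _
  have hq0 : ∀ p ∈ P, 0 < 1 - π p (c p) := fun p hp => by linarith [(hc p hp).2]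
  have hwo0 : ∀ p ∈ P, ∀ b ∈ V p, 0 ≤ wo π c p b := by
    intro p hp b hb
    unfold wo
    split_ifs
    · exact le_rfl
    · exact div_nonneg (hL.nonneg p b hb) (hq0 p hp).le
  have hwo1 : ∀ p ∈ P, ∑ b ∈ V p, wo π c p b = 1 := by
    intro p hp
    have h1 : ∑ b ∈ V p, wo π c p b * (1 - π p (c p)) = 1 - π p (c p) := by
      have h2 : ∀ b ∈ V p, wo π c p b * (1 - π p (c p)) = π p b - if b = c p then π p (c p) else 0 := by
        intro b _
        unfold wo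
        split_ifs with h
        · rw [h]; ring
        · rw [div_mul_cancel₀ _ (hq0 p hp).ne']; ring
      rw [sum_congr rfl h2, sum_sub_distrib, hL.sum_one, sum_ite_eq', if_pos (hc p hp).1]
    rw [← sum_mul] at h1
    exact mul_right_cancel₀ (hq0 p hp).ne' (by rw [h1, one_mul])
  -- the first functional
  set f : ℕ → ℝ := fun m => ((P.filter fun p => m ≡ c p [MOD p]).card : ℝ) +
        ((P.filter fun p => m ≡ d p [MOD p]).card : ℝ) +
        ∑ p ∈ P, (rp V π p m + rp V (wo π c) p m) with hf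
  have hrp0 : ∀ m, 0 ≤ ∑ p ∈ P, (rp V π p m + rp V (wo π c) p m) := by
    intro m
    apply sum_nonneg
    intro p hp
    apply add_nonneg (rp_nonneg hL p m)
    unfold rp
    apply sum_nonneg
    intro b hb
    split_ifs
    · exact hwo0 p hp b hb
    · exact le_rfl
  have hf0 : ∀ m ∈ S, 0 ≤ f m := by
    intro m _
    have := hrp0 m
    simp only [hf]
    positivity
  have hfsum : ∑ m ∈ S, f m ≤ 12 * U * s := by
    have e1 : ∀ c' : ℕ → ℕ, ∑ m ∈ S, ((P.filter fun p => m ≡ c' p [MOD p]).card : ℝ) ≤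
        ∑ p ∈ P, Mb p := by
      intro c'
      have h1 := sum_card_le P S Mb c' hMb (fun _ => 1) (fun _ _ => zero_le_one)
      simp only [sum_const, nsmul_eq_mul, mul_one] at h1
      exact h1
    have e2 := sum_rp_le P S Mb hMb (fun p _ b hb => hL.nonneg p b hb) (fun p _ => hL.sum_one p)
    have e3 := sum_rp_le P S Mb hMb hwo0 hwo1
    have e4 : ∑ m ∈ S, f m = ∑ m ∈ S, ((P.filter fun p => m ≡ c p [MOD p]).card : ℝ) +
        ∑ m ∈ S, ((P.filter fun p => m ≡ d p [MOD p]).card : ℝ) +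
        (∑ m ∈ S, ∑ p ∈ P, rp V π p m + ∑ m ∈ S, ∑ p ∈ P, rp V (wo π c) p m) := by
      simp only [hf, sum_add_distrib]
    rw [e4]
    linarith [e1 c, e1 d]
  -- the second functional
  set g : ℕ → ℝ := fun m => ∑ p ∈ P.filter (fun p => m ≡ c p [MOD p]), Real.log p with hg
  have hlog0 : ∀ p ∈ P, 0 ≤ Real.log p := fun p hp =>
    Real.log_nonneg (by exact_mod_cast (hP p hp).one_lt.le)
  have hg0 : ∀ m ∈ S, 0 ≤ g m := fun m _ => sum_nonneg fun p hp => hlog0 p (mem_filter.1 hp).1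
  have hgsum : ∑ m ∈ S, g m ≤ (1 + ε) * (u / 2) * s :=
    (sum_card_le P S Mb c hMb (fun p => Real.log p) hlog0).trans hM2
  have hk1 := markov S f hf0 (48 * U / ε) _ hfsum
  have hk2 := markov S g hg0 ((1 + 5 * ε) * (u / 2)) _ hgsum
  set B1 : Finset ℕ := {m ∈ S | 48 * U / ε < f m} with hB1
  set B2 : Finset ℕ := {m ∈ S | (1 + 5 * ε) * (u / 2) < g m} with hB2
  have hb1 : (#B1 : ℝ) ≤ ε / 4 * s := by
    have h1 : (#B1 : ℝ) * (48 * U / ε) = (#B1 : ℝ) * (48 / ε) * U := by ring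
    rw [h1] at hk1
    have h2 : (#B1 : ℝ) * (48 / ε) * U ≤ 12 * s * U := by linarith
    have h3 := le_of_mul_le_mul_right h2 hU
    have h4 : (#B1 : ℝ) = (#B1 : ℝ) * (48 / ε) * (ε / 48) := by
      field_simp
    rw [h4]
    have h5 := mul_le_mul_of_nonneg_right h3 (show 0 ≤ ε / 48 by positivity)
    linarith
  have hb2 : (#B2 : ℝ) ≤ (1 - ε) * s := by
    have h1 : (#B2 : ℝ) * (1 + 5 * ε) * (u / 2) ≤ (1 + ε) * s * (u / 2) := by linarith
    have h2 := le_of_mul_le_mul_right h1 (by positivity : 0 < u / 2)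
    have h3 : (1 + ε) * s ≤ (1 - ε) * s * (1 + 5 * ε) := by
      have h4 : 1 + ε ≤ (1 - ε) * (1 + 5 * ε) := by nlinarith
      calc (1 + ε) * s ≤ (1 - ε) * (1 + 5 * ε) * s := mul_le_mul_of_nonneg_right h4 hs0
        _ = _ := by ring
    exact le_of_mul_le_mul_right (h2.trans h3) (by positivity)
  refine ⟨S \ (B1 ∪ B2), sdiff_subset, ?_, ?_, ?_, ?_⟩
  · have h1 : #S ≤ #(S \ (B1 ∪ B2)) + (#B1 + #B2) := by
      have e1 := card_union_le B1 B2
      have e2 := le_card_sdiff (B1 ∪ B2) S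
      omega
    have h2 : s ≤ (#(S \ (B1 ∪ B2)) : ℝ) + (#B1 + #B2) := by
      rw [hs]
      exact_mod_cast h1
    have h3 : 0 ≤ ε * s := by positivity
    linarith
  · intro m hm
    rw [Finset.mem_sdiff, mem_union, not_or] at hm
    have h1 : f m ≤ 48 * U / ε := by
      by_contra h
      exact hm.2.1 (mem_filter.2 ⟨hm.1, not_le.1 h⟩)
    have := hrp0 m
    simp only [hf] at h1
    linarith
  · intro m hm
    rw [Finset.mem_sdiff, mem_union, not_or] at hm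
    have h1 : f m ≤ 48 * U / ε := by
      by_contra h
      exact hm.2.1 (mem_filter.2 ⟨hm.1, not_le.1 h⟩)
    simp only [hf] at h1
    have h2 : (0 : ℝ) ≤ ((P.filter fun p => m ≡ c p [MOD p]).card : ℝ) := Nat.cast_nonneg _
    have h3 : (0 : ℝ) ≤ ((P.filter fun p => m ≡ d p [MOD p]).card : ℝ) := Nat.cast_nonneg _
    linarith
  · intro m hm
    rw [Finset.mem_sdiff, mem_union, not_or] at hm
    have h1 : g m ≤ (1 + 5 * ε) * (u / 2) := by
      by_contra h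
      exact hm.2.2 (mem_filter.2 ⟨hm.1, not_le.1 h⟩)
    have h2 : ∏ p ∈ P.filter (fun p => m ≡ c p [MOD p]), (p : ℝ) ^ (-η) = Real.exp (-(η * g m)) := by
      simp only [hg]
      rw [mul_sum, ← sum_neg_distrib, Real.exp_sum]
      apply prod_congr rfl
      intro p hp
      have hp0 : (0 : ℝ) < p := by exact_mod_cast (hP p (mem_filter.1 hp).1).pos
      rw [Real.rpow_def_of_pos hp0]
      congr 1
      ring
    rw [h2]
    apply Real.exp_le_exp.2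
    apply neg_le_neg
    exact mul_le_mul_of_nonneg_left h1 hη

end Pool.Agent.Work.MP_3a3367_nt_h29
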