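import Mathlib
import Pool.Agent.Work.MP_3a3367_nt_h29.AVG
import Pool.Agent.Work.MP_3a3367_nt_h29.SEL

/-!
# One window
-/

set_option autoImplicit false

namespace Pool.Agent.Work.MP_3a3367_nt_h29

open Finset Filter Topology
open Pool.Agent.Work.MP_b0c12c_nt_univ
open Pool.Agent.Work.MP_b0c12c_nt_univ.INUaux (rp Av EA_Av rp_nonneg rp_le_one Pr QW sum_Pr QW_ge
  QW_pos)

theorem QW_low : ∃ C1 : ℝ, 0 < C1 ∧ ∀ W : ℕ, 2 ≤ W → 1 ≤ QW W * (C1 * Real.log W ^ 2) := by
  obtain ⟨C1, hC1, hsum⟩ := sum_Pr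
  refine ⟨Real.exp (2 * C1), Real.exp_pos _, ?_⟩
  intro W hW2
  have hlogW0 : 0 < Real.log W := Real.log_pos (by exact_mod_cast (by omega : 1 < W))
  have h1 := QW_ge hsum W hW2
  have h2 : Real.exp (-(2 * (Real.log (Real.log W) + C1))) =
      (Real.exp (2 * C1) * (Real.log W) ^ 2)⁻¹ := by
    have h3 : (Real.log W) ^ 2 = Real.exp (2 * Real.log (Real.log W)) := by
      rw [two_mul, Real.exp_add, Real.exp_log hlogW0, sq]
    rw [h3, ← Real.exp_add, ← Real.exp_neg]
    congr 1; ring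
  rw [h2] at h1
  have h4 : 0 < Real.exp (2 * C1) * (Real.log W) ^ 2 := by positivity
  have := mul_le_mul_of_nonneg_right h1 h4.le
  rwa [inv_mul_cancel₀ h4.ne'] at this

/-- the numerical part -/
theorem numerics (η ε1 C g A0 c0 C1 : ℝ) (hη0 : 0 < η) (hη1 : η < 1) (hε1 : 0 < ε1)
    (hε1' : ε1 ≤ (1 - η) / 4) (hC : 0 ≤ C) (hg : g = 1440 / ε1 + 1)
    (hA0 : A0 = (2 * g + 2) / (1 - η)) (hc0 : 0 < c0) (hC1 : 0 < C1) :
    ∀ᶠ u : ℝ in atTop, ∀ X W κ : ℝ, c0 * Real.exp (u / 2) ≤ X → u ^ A0 / 2 ≤ W →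
      X / (4 * C1 * (A0 * Real.log u) ^ 2) * (ε1 / 10) * Real.exp (-(3 * (480 * Real.log u / ε1))) ≤ κ →
      2 * Real.exp (((1 - η) / 2 - ε1) * u) ≤
        κ * Real.exp (-(η * ((1 + 5 * (ε1 / 10)) * (u / 2)))) / 4 ∧
      3 * u ≤ κ ^ 2 / (16 * ((1 + C) ^ 2 * X ^ 2 / W)) ∧
      3 * u ≤ κ * Real.exp (-(η * ((1 + 5 * (ε1 / 10)) * (u / 2)))) /
        (16 * (1 + Real.exp (-(η * ((1 + 5 * (ε1 / 10)) * (u / 2)))) *
          (X * Real.exp (480 * Real.log u / ε1) * W ^ (-(1 - η))))) := by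
  have hgpos : 0 < g := by rw [hg]; positivity
  have h1η : 0 < 1 - η := by linarith
  have hA0pos : 0 < A0 := by rw [hA0]; positivity
  have hA0g : 2 * g + 2 ≤ A0 := by
    rw [hA0, le_div_iff₀ h1η]
    nlinarith
  -- eventual inequalities
  have hev1 : ∀ᶠ u : ℝ in atTop, (40 * C1 * A0 ^ 2 / ε1) * Real.log u ^ 2 * Real.sqrt u ≤ 1 * u :=
    sq_log_aux _ 1 one_pos
  have hev2 : ∀ᶠ u : ℝ in atTop, g * Real.log u ≤ Real.sqrt (Real.sqrt u) := log_le_sqrt_aux g
  have hsq : Tendsto (fun u : ℝ => Real.sqrt u) atTop atTop := Real.tendsto_sqrt_atTop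
  have hssq : Tendsto (fun u : ℝ => Real.sqrt (Real.sqrt u)) atTop atTop := hsq.comp hsq
  filter_upwards [hev1, hev2, hsq.eventually_ge_atTop (8 * (4 + |Real.log c0|) / ε1 + 8 / ε1 + 1),
    eventually_ge_atTop (200 + 96 * (1 + C) ^ 2), eventually_ge_atTop (3200 / (1 - η) ^ 2)]
    with u e1 e2 e3 e4 e5
  intro X W κ hX hW hκ
  set r : ℝ := Real.sqrt u with hr
  set U : ℝ := Real.log u with hU
  have hu200 : 200 ≤ u := by
    have : 0 ≤ 96 * (1 + C) ^ 2 := by positivity
    linarith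
  have hu0 : 0 < u := by linarith
  have hr2 : r * r = u := Real.mul_self_sqrt hu0.le
  have hlc : 0 ≤ |Real.log c0| := abs_nonneg _
  have hr1 : 1 ≤ r := by
    have : 0 ≤ 8 * (4 + |Real.log c0|) / ε1 + 8 / ε1 := by positivity
    linarith
  have hrr : Real.sqrt r ≤ r := by
    rw [Real.sqrt_le_left (by linarith)]
    nlinarith
  have hgU : g * U ≤ r := e2.trans hrr
  have hU0 : 0 < U := Real.log_pos (by linarith)
  have hexpU : Real.exp U = u := Real.exp_log hu0
  have hXpos : 0 < X := lt_of_lt_of_le (by positivity) hX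
  have hWpos : 0 < W := lt_of_lt_of_le (by positivity) hW
  -- lower bound for κ
  have hκ1 : X * Real.exp (-(g * U)) ≤ κ := by
    refine le_trans ?_ hκ
    have h1 : 40 * C1 * (A0 * U) ^ 2 / ε1 ≤ u := by
      calc 40 * C1 * (A0 * U) ^ 2 / ε1 = (40 * C1 * A0 ^ 2 / ε1) * U ^ 2 := by ring
        _ ≤ (40 * C1 * A0 ^ 2 / ε1) * U ^ 2 * r := le_mul_of_one_le_right (by positivity) hr1
        _ ≤ u := by linarith
    have h2 : Real.exp (-(g * U)) = Real.exp (-U) * Real.exp (-(3 * (480 * U / ε1))) := by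
      rw [← Real.exp_add, hg]
      congr 1
      ring
    rw [h2]
    have h3 : Real.exp (-U) ≤ 1 / (4 * C1 * (A0 * U) ^ 2) * (ε1 / 10) := by
      rw [Real.exp_neg, hexpU]
      have h4 : 1 / (4 * C1 * (A0 * U) ^ 2) * (ε1 / 10) = (40 * C1 * (A0 * U) ^ 2 / ε1)⁻¹ := by
        rw [inv_div]
        field_simp
        norm_num
      rw [h4]
      exact inv_anti₀ (by positivity) h1
    calc X * (Real.exp (-U) * Real.exp (-(3 * (480 * U / ε1)))) ≤
        X * ((1 / (4 * C1 * (A0 * U) ^ 2) * (ε1 / 10)) * Real.exp (-(3 * (480 * U / ε1)))) := by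
          gcongr
      _ = _ := by ring
  have hκpos : 0 < κ := lt_of_lt_of_le (by positivity) hκ1
  set w : ℝ := Real.exp (-(η * ((1 + 5 * (ε1 / 10)) * (u / 2)))) with hw
  have hwpos : 0 < w := Real.exp_pos _
  -- the main product
  have hκw : Real.exp (((1 - η) / 2 - ε1) * u + ε1 * u / 2) ≤ κ * w := by
    have h1 : c0 = Real.exp (Real.log c0) := (Real.exp_log hc0).symm
    have h2 : Real.exp (Real.log c0 + u / 2 + -(g * U) + -(η * ((1 + 5 * (ε1 / 10)) * (u / 2)))) ≤
        κ * w := by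
      rw [Real.exp_add, Real.exp_add, Real.exp_add, ← h1]
      apply mul_le_mul_of_nonneg_right _ hwpos.le
      refine le_trans ?_ hκ1
      exact mul_le_mul_of_nonneg_right hX (Real.exp_pos _).le
    refine le_trans (Real.exp_le_exp.2 ?_) h2
    have h3 := neg_abs_le (Real.log c0)
    have h4 : 8 * (4 + |Real.log c0|) ≤ ε1 * r := by
      have : 8 * (4 + |Real.log c0|) / ε1 ≤ r := by
        have : 0 ≤ 8 / ε1 := by positivity
        linarith
      rw [div_le_iff₀ hε1] at this
      linarith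
    have h5 : 8 * 1 ≤ ε1 * r := by
      have : 8 / ε1 ≤ r := by
        have : 0 ≤ 8 * (4 + |Real.log c0|) / ε1 := by positivity
        linarith
      rw [div_le_iff₀ hε1] at this
      linarith
    have h6 : 8 * r ≤ ε1 * u := by
      calc 8 * r ≤ (ε1 * r) * r := by
            apply mul_le_mul_of_nonneg_right _ (by linarith)
            linarith
        _ = ε1 * u := by rw [mul_assoc, hr2]
    have h7 : η * (5 * (ε1 / 10) * (u / 2)) ≤ 1 * (5 * (ε1 / 10) * (u / 2)) :=
      mul_le_mul_of_nonneg_right hη1.le (by positivity)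
    have h8 : |Real.log c0| ≤ ε1 * u / 8 := by
      have : ε1 * r ≤ ε1 * u := mul_le_mul_of_nonneg_left (by nlinarith) hε1.le
      linarith
    nlinarith
  -- a power of u
  have hbig : 96 * u + 8 ≤ Real.exp (((1 - η) / 2 - ε1) * u + ε1 * u / 2) := by
    have h1 : (1 - η) / 4 * u ≤ ((1 - η) / 2 - ε1) * u + ε1 * u / 2 := by
      have : (1 - η) / 4 * u ≤ ((1 - η) / 2 - ε1) * u := mul_le_mul_of_nonneg_right (by linarith) hu0.le
      have : 0 ≤ ε1 * u / 2 := by positivity
      linarith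
    refine le_trans ?_ (Real.exp_le_exp.2 h1)
    set z : ℝ := (1 - η) / 4 * u with hz
    have hz0 : 0 ≤ z := by positivity
    have h2 := Real.quadratic_le_exp_of_nonneg hz0
    have h3 : 3200 ≤ (1 - η) ^ 2 * u := by
      rw [div_le_iff₀ (by positivity)] at e5
      linarith
    have h4 : 100 * u ≤ z ^ 2 / 2 := by
      have : z ^ 2 / 2 = (1 - η) ^ 2 * u * u / 32 := by rw [hz]; ring
      rw [this]
      have := mul_le_mul_of_nonneg_right h3 hu0.le
      linarith
    linarith
  refine ⟨?_, ?_, ?_⟩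
  · -- the count
    rw [Real.exp_add] at hκw
    have h1 : 8 ≤ Real.exp (ε1 * u / 2) := by
      have h5 : 8 * 1 ≤ ε1 * r := by
        have : 8 / ε1 ≤ r := by
          have : 0 ≤ 8 * (4 + |Real.log c0|) / ε1 := by positivity
          linarith
        rw [div_le_iff₀ hε1] at this
        linarith
      have h6 : ε1 * r ≤ ε1 * u := mul_le_mul_of_nonneg_left (by nlinarith) hε1.le
      have h7 := Real.quadratic_le_exp_of_nonneg (show 0 ≤ ε1 * u / 2 by positivity)
      nlinarith
    have h2 := mul_le_mul_of_nonneg_left h1 (Real.exp_pos (((1 - η) / 2 - ε1) * u)).le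
    linarith
  · -- first exponent
    have h1 : (Real.exp (-(g * U))) ^ 2 * (u ^ A0 / 2) / (16 * (1 + C) ^ 2) ≤
        κ ^ 2 / (16 * ((1 + C) ^ 2 * X ^ 2 / W)) := by
      have e6 : κ ^ 2 / (16 * ((1 + C) ^ 2 * X ^ 2 / W)) = (κ / X) ^ 2 * W / (16 * (1 + C) ^ 2) := by
        field_simp
      rw [e6]
      have e7 : Real.exp (-(g * U)) ≤ κ / X := by
        rw [le_div_iff₀ hXpos, mul_comm]
        exact hκ1
      gcongr
    refine le_trans ?_ h1
    have h2 : u ^ A0 = Real.exp (A0 * U) := by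
      rw [Real.rpow_def_of_pos hu0, mul_comm]
    have h3 : u ^ 2 ≤ (Real.exp (-(g * U))) ^ 2 * u ^ A0 := by
      rw [h2, ← Real.exp_nat_mul, ← Real.exp_add]
      have h4 : u ^ 2 = Real.exp (2 * U) := by
        rw [two_mul, Real.exp_add, hexpU, sq]
      rw [h4]
      apply Real.exp_le_exp.2
      push_cast
      nlinarith
    rw [le_div_iff₀ (by positivity)]
    have h5 : 96 * (1 + C) ^ 2 ≤ u := by linarith
    have h6 := mul_le_mul_of_nonneg_right h5 hu0.le
    nlinarith
  · -- second exponent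
    rw [le_div_iff₀ (by positivity)]
    set B : ℝ := X * Real.exp (480 * U / ε1) * W ^ (-(1 - η)) with hB
    have hB0 : 0 ≤ B := by positivity
    have h1 : 96 * u * B ≤ κ := by
      refine le_trans ?_ hκ1
      have h2 : W ^ (-(1 - η)) ≤ 2 * Real.exp (-((2 * g + 2) * U)) := by
        have h3 : W ^ (-(1 - η)) ≤ (u ^ A0 / 2) ^ (-(1 - η)) :=
          Real.rpow_le_rpow_of_nonpos (by positivity) hW (by linarith)
        refine h3.trans ?_
        rw [Real.div_rpow (by positivity) (by norm_num), ← Real.rpow_mul hu0.le, div_eq_mul_inv,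
          ← Real.rpow_neg (by norm_num), neg_neg, mul_comm]
        have h4 : (2 : ℝ) ^ (1 - η) ≤ 2 := by
          calc (2 : ℝ) ^ (1 - η) ≤ 2 ^ (1 : ℝ) :=
                Real.rpow_le_rpow_of_exponent_le (by norm_num) (by linarith)
            _ = 2 := Real.rpow_one 2
        have h5 : u ^ (A0 * -(1 - η)) = Real.exp (-((2 * g + 2) * U)) := by
          rw [Real.rpow_def_of_pos hu0]
          congr 1
          have : A0 * (1 - η) = 2 * g + 2 := by rw [hA0]; field_simp
          have h6 : Real.log u * (A0 * -(1 - η)) = -(A0 * (1 - η) * U) := by rw [hU]; ring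
          rw [h6, this]
        rw [h5]
        exact mul_le_mul_of_nonneg_right h4 (Real.exp_pos _).le
      have h3 : Real.exp (480 * U / ε1) ≤ Real.exp ((g - 1) * U) := by
        apply Real.exp_le_exp.2
        rw [hg, add_sub_cancel_right, div_mul_eq_mul_div]
        apply div_le_div_of_nonneg_right _ hε1.le
        linarith
      calc 96 * u * B ≤ 96 * u * (X * Real.exp ((g - 1) * U) * (2 * Real.exp (-((2 * g + 2) * U)))) := by
            rw [hB]
            gcongr
        _ = X * (192 * u * (Real.exp ((g - 1) * U) * Real.exp (-((2 * g + 2) * U)))) := by ring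
        _ ≤ X * Real.exp (-(g * U)) := by
            apply mul_le_mul_of_nonneg_left _ hXpos.le
            rw [← Real.exp_add]
            have h4 : (g - 1) * U + -((2 * g + 2) * U) = -(3 * U) + -(g * U) := by ring
            rw [h4, Real.exp_add, ← mul_assoc]
            apply mul_le_of_le_one_left (Real.exp_pos _).le
            have h5 : Real.exp (-(3 * U)) = (u ^ 3)⁻¹ := by
              rw [Real.exp_neg]
              congr 1
              have : (3 : ℝ) * U = ((3 : ℕ) : ℝ) * U := by norm_num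
              rw [this, Real.exp_nat_mul, hexpU]
            rw [h5, ← div_eq_mul_inv, div_le_one (by positivity)]
            nlinarith [mul_pos hu0 hu0]
    have h2 : 96 * u ≤ κ * w := by linarith
    have h3 := mul_le_mul_of_nonneg_right h1 hwpos.le
    nlinarith

end Pool.Agent.Work.MP_3a3367_nt_h29
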