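import Mathlib
import Pool.Agent.Work.MP_3a3367_nt_h29.WIN

/-!
# One window: the probability of having few survivors
-/

set_option autoImplicit false

namespace Pool.Agent.Work.MP_3a3367_nt_h29

open Finset Filter Topology
open Pool.Agent.Work.MP_b0c12c_nt_univ
open Pool.Agent.Work.MP_b0c12c_nt_univ.INUaux (rp Av EA_Av rp_nonneg rp_le_one Pr QW sum_Pr QW_ge
  QW_pos)

theorem NS_mono {P S S' : Finset ℕ} (h : S' ⊆ S) (w : ℕ → ℕ) : NS P S' w ≤ NS P S w := by
  classical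
  unfold NS
  exact_mod_cast card_le_card (filter_subset_filter _ h)

theorem window {V : ℕ → Finset ℕ} {π : ℕ → ℕ → ℝ} (hL : IsLaw V π)
    (hV : ∀ p : ℕ, p.Prime → ∀ b ∈ V p, b < p) (η : ℝ) (hη0 : 0 < η) (hη1 : η < 1)
    (hπ : ∃ P0 : ℕ, ∀ p : ℕ, p.Prime → P0 ≤ p → ∀ b ∈ V p, π p b ≤ 1 - (p : ℝ) ^ (-η))
    (c0 ε : ℝ) (hc0 : 0 < c0) (hε : 0 < ε) :
    ∃ n0 : ℕ, ∀ n : ℕ, n0 ≤ n → ∃ W : ℕ, ∀ X Y : ℕ, c0 * Real.sqrt n ≤ X →
      (Y : ℝ) ≤ 2 * Real.sqrt n → ∀ (a : ℕ) (v : ℕ → ℕ),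
      EA V π (PP W Y) (ind {w | NS (PP W Y) (Sv W X a v) w < (n : ℝ) ^ ((1 - η) / 2 - ε)}) v ≤
        (n : ℝ) ^ (-2 : ℝ) := by
  classical
  obtain ⟨P0, hP0⟩ := hπ
  obtain ⟨C1, hC1, hQ⟩ := QW_low
  set ε1 : ℝ := min ε ((1 - η) / 4) with hε1def
  have h1η : 0 < 1 - η := by linarith
  have hε1 : 0 < ε1 := lt_min hε (by positivity)
  have hε1a : ε1 ≤ ε := min_le_left _ _
  have hε1b : ε1 ≤ (1 - η) / 4 := min_le_right _ _
  set C : ℝ := 2 / c0 with hC
  have hC0 : 0 ≤ C := by positivity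
  set g : ℝ := 1440 / ε1 + 1 with hg
  set A0 : ℝ := (2 * g + 2) / (1 - η) with hA0
  have hgpos : 1 < g := by
    have : 0 < 1440 / ε1 := by positivity
    linarith
  have hA0g : 2 ≤ A0 := by
    rw [hA0, le_div_iff₀ h1η]
    nlinarith
  have hA0pos : 0 < A0 := by linarith
  obtain ⟨n1, hn1⟩ := avg c0 (ε1 / 10) hc0 (by positivity) A0 hA0pos
  have hnum := numerics η ε1 C g A0 c0 C1 hη0 hη1 hε1 hε1b hC0 rfl rfl hc0 hC1
  have hlogt : Tendsto (fun n : ℕ => Real.log (n : ℝ)) atTop atTop :=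
    Real.tendsto_log_atTop.comp tendsto_natCast_atTop_atTop
  obtain ⟨n2, hn2⟩ := eventually_atTop.1 ((hlogt.eventually hnum).and
    ((hlogt.eventually_ge_atTop (10 + P0)).and (eventually_ge_atTop 3)))
  refine ⟨max n1 n2, ?_⟩
  intro n hn
  obtain ⟨hnum, hu10, hn3⟩ := hn2 n (le_trans (le_max_right _ _) hn)
  have havg := hn1 n (le_trans (le_max_left _ _) hn)
  set u : ℝ := Real.log (n : ℝ) with hu
  set U : ℝ := Real.log u with hU
  have hP0r : (0 : ℝ) ≤ P0 := Nat.cast_nonneg _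
  have hu0 : 0 < u := by linarith
  have hnpos : (0 : ℝ) < n := by exact_mod_cast (by omega : 0 < n)
  have hexpu : Real.exp u = n := Real.exp_log hnpos
  have hU0 : 0 < U := Real.log_pos (by linarith)
  have hsqn : Real.sqrt n = Real.exp (u / 2) := by
    rw [Real.sqrt_eq_iff_mul_self_eq hnpos.le (Real.exp_pos _).le, ← Real.exp_add, ← hexpu]
    congr 1; ring
  -- the size of W
  have huA : u + 1 ≤ u ^ A0 := by
    have h1 : u ^ (2 : ℝ) ≤ u ^ A0 := Real.rpow_le_rpow_of_exponent_le (by linarith) hA0g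
    have h2 : u ^ (2 : ℝ) = u ^ 2 := by exact_mod_cast Real.rpow_natCast u 2
    rw [h2] at h1
    nlinarith
  set W : ℕ := ⌊u ^ A0⌋₊ with hW
  have hWle : (W : ℝ) ≤ u ^ A0 := Nat.floor_le (by positivity)
  have hWge : u ^ A0 < W + 1 := Nat.lt_floor_add_one _
  have hWu : u ≤ W := by linarith
  have hWhalf : u ^ A0 / 2 ≤ W := by linarith
  have hW10 : (10 : ℝ) + P0 ≤ W := by linarith
  have hW2 : 2 ≤ W := by
    have : (2 : ℝ) ≤ W := by linarith
    exact_mod_cast this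
  have hWP0 : P0 ≤ W := by
    have : (P0 : ℝ) ≤ W := by linarith
    exact_mod_cast this
  have hWpos : (0 : ℝ) < W := by linarith
  refine ⟨W, ?_⟩
  intro X Y hX hY a v
  obtain ⟨hSlow, Mb, hMb, hM1, hM2⟩ := havg X Y W hX hY hWu hWle v a
  set P : Finset ℕ := PP W Y with hP
  set S : Finset ℕ := Sv W X a v with hS
  set s : ℝ := (#S : ℝ) with hs
  have hPmem : ∀ p ∈ P, p.Prime ∧ W < p ∧ p ≤ Y := by
    intro p hp
    rw [hP] at hp
    unfold PP at hp
    rw [mem_filter, mem_Ioc] at hp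
    exact ⟨hp.2, hp.1.1, hp.1.2⟩
  have hXpos : (0 : ℝ) < X := by
    refine lt_of_lt_of_le ?_ hX
    rw [hsqn]
    positivity
  have hXN : 0 < X := by exact_mod_cast hXpos
  -- heaviest class
  have hVne : ∀ p, (V p).Nonempty := by
    intro p
    rw [nonempty_iff_ne_empty]
    intro h
    have := hL.sum_one p
    rw [h] at this
    simp at this
  have hcex : ∀ p, ∃ c ∈ V p, ∀ b ∈ V p, π p b ≤ π p c := fun p => exists_max_image (V p) (π p) (hVne p)
  choose c hcV hcmax using hcex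
  have hπη : ∀ p ∈ P, π p (c p) ≤ 1 - (p : ℝ) ^ (-η) := by
    intro p hp
    obtain ⟨h1, h2, h3⟩ := hPmem p hp
    exact hP0 p h1 (by omega) (c p) (hcV p)
  have hclt : ∀ p ∈ P, π p (c p) < 1 := by
    intro p hp
    have h1 := hπη p hp
    have h2 : (0 : ℝ) < (p : ℝ) ^ (-η) := by
      have : (0 : ℝ) < p := by exact_mod_cast (hPmem p hp).1.pos
      positivity
    linarith
  -- second heaviest class
  have hdex : ∀ p, ∃ d, p ∈ P → (d ∈ V p ∧ d ≠ c p) ∧ ∀ b ∈ V p, b ≠ c p → π p b ≤ π p d := by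
    intro p
    by_cases hp : p ∈ P
    · have hne : ((V p).erase (c p)).Nonempty := by
        rw [nonempty_iff_ne_empty]
        intro h
        have h1 := hL.sum_one p
        rw [← sum_erase_add _ _ (hcV p), h, sum_empty, zero_add] at h1
        have := hclt p hp
        linarith
      obtain ⟨d, hd, hdm⟩ := exists_max_image ((V p).erase (c p)) (π p) hne
      rw [mem_erase] at hd
      exact ⟨d, fun _ => ⟨⟨hd.2, hd.1⟩, fun b hb hbc => hdm b (mem_erase.2 ⟨hbc, hb⟩)⟩⟩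
    · exact ⟨0, fun h => absurd h hp⟩
  choose d hd using hdex
  -- selection
  obtain ⟨S', hS'S, hS'c, hK, hK2, hw⟩ := sel hL P S Mb (fun p hp => (hPmem p hp).1) hMb c d
    (fun p hp => ⟨hcV p, hclt p hp⟩) (ε1 / 10) u U η (by positivity) (by linarith) hu0 hU0 hη0.le
    hM1 hM2
  have hK48 : 48 * U / (ε1 / 10) = 480 * U / ε1 := by
    field_simp
    ring
  rw [hK48] at hK hK2
  set K : ℝ := 480 * U / ε1 with hKdef
  set w0 : ℝ := Real.exp (-(η * ((1 + 5 * (ε1 / 10)) * (u / 2)))) with hw0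
  have hcore := core hL P S' X a W hXN (by omega) C K η w0 hC0
    (fun p hp => by
      obtain ⟨h1, h2, h3⟩ := hPmem p hp
      refine ⟨h1, h2, ?_⟩
      have h4 : (p : ℝ) ≤ Y := by exact_mod_cast h3
      have h5 : 2 * Real.sqrt n = 2 / c0 * (c0 * Real.sqrt n) := by field_simp
      have h6 : 2 / c0 * (c0 * Real.sqrt n) ≤ 2 / c0 * X := mul_le_mul_of_nonneg_left hX (by positivity)
      rw [hC]
      linarith)
    (fun p hp => hV p (hPmem p hp).1) c d (fun p _ => hcV p) (fun p hp => (hd p hp).1)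
    (fun p _ => hcmax p) (fun p hp => (hd p hp).2) hη1 hπη
    (hS'S.trans (by rw [hS]; unfold Sv; exact filter_subset _ _)) hK hK2 (Real.exp_pos _) hw v
  set κ : ℝ := Real.exp (-(3 * K)) * (#S' : ℝ) with hκ
  have hκlow : X / (4 * C1 * (A0 * U) ^ 2) * (ε1 / 10) * Real.exp (-(3 * K)) ≤ κ := by
    have h1 : Real.log W ≤ A0 * U := by
      have := Real.log_le_log hWpos hWle
      rwa [Real.log_rpow hu0] at this
    have h2 : 0 ≤ Real.log W := Real.log_nonneg (by linarith)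
    have h3 := hQ W hW2
    have h4 : 1 ≤ QW W * (C1 * (A0 * U) ^ 2) := by
      refine h3.trans ?_
      apply mul_le_mul_of_nonneg_left _ (QW_pos W).le
      apply mul_le_mul_of_nonneg_left _ hC1.le
      exact pow_le_pow_left₀ h2 h1 2
    have h5 : 1 / (C1 * (A0 * U) ^ 2) ≤ QW W := by
      rw [div_le_iff₀ (by positivity)]
      exact h4
    have h6 : X / (4 * C1 * (A0 * U) ^ 2) * (ε1 / 10) ≤ (#S' : ℝ) := by
      refine le_trans ?_ hS'c
      have h7 : X / (4 * C1 * (A0 * U) ^ 2) * (ε1 / 10) =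
          ε1 / 10 / 2 * (X * (1 / (C1 * (A0 * U) ^ 2)) / 2) := by
        field_simp
        ring
      rw [h7]
      apply mul_le_mul_of_nonneg_left _ (by positivity)
      refine le_trans ?_ hSlow
      gcongr
    rw [hκ, mul_comm]
    exact mul_le_mul_of_nonneg_left h6 (Real.exp_pos _).le
  rw [hsqn] at hX
  obtain ⟨h1, h2, h3⟩ := hnum X W κ hX hWhalf hκlow
  -- monotonicity
  have hmono : EA V π P (ind {w | NS P S w < (n : ℝ) ^ ((1 - η) / 2 - ε)}) v ≤
      EA V π P (ind {w | NS P S' w < κ * w0 / 4}) v := by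
    apply EA_mono hL.nonneg
    intro w
    apply ind_mono
    intro hw'
    have h4 : NS P S w < (n : ℝ) ^ ((1 - η) / 2 - ε) := hw'
    show NS P S' w < κ * w0 / 4
    refine lt_of_le_of_lt (NS_mono hS'S w) (lt_of_lt_of_le h4 ?_)
    have h5 : (n : ℝ) ^ ((1 - η) / 2 - ε) ≤ Real.exp (((1 - η) / 2 - ε1) * u) := by
      rw [Real.rpow_def_of_pos hnpos]
      apply Real.exp_le_exp.2
      rw [mul_comm]
      apply mul_le_mul_of_nonneg_right _ hu0.le
      linarith
    have h6 := Real.exp_pos (((1 - η) / 2 - ε1) * u)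
    linarith
  refine hmono.trans (hcore.trans ?_)
  have h4 : (n : ℝ) ^ (-2 : ℝ) = Real.exp (-(2 * u)) := by
    rw [Real.rpow_def_of_pos hnpos]
    congr 1
    rw [← hu]
    ring
  rw [h4]
  have h5 : Real.exp (-(κ ^ 2 / (16 * ((1 + C) ^ 2 * (X : ℝ) ^ 2 / W)))) ≤ Real.exp (-(3 * u)) :=
    Real.exp_le_exp.2 (neg_le_neg h2)
  have h6 : Real.exp (-(κ * w0 / (16 * (1 + w0 * (X * Real.exp K * (W : ℝ) ^ (-(1 - η))))))) ≤
      Real.exp (-(3 * u)) := Real.exp_le_exp.2 (neg_le_neg h3)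
  have h7 : Real.exp (-(3 * u)) = Real.exp (-u) * Real.exp (-(2 * u)) := by
    rw [← Real.exp_add]; congr 1; ring
  have h8 : Real.exp (-u) ≤ 1 / 2 := by
    rw [Real.exp_neg, ← one_div]
    apply one_div_le_one_div_of_le (by norm_num)
    have := Real.add_one_le_exp u
    linarith
  have h9 := mul_le_mul_of_nonneg_right h8 (Real.exp_pos (-(2 * u))).le
  linarith

end Pool.Agent.Work.MP_3a3367_nt_h29
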