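import Mathlib
import Pool.Agent.Work.MP_3a3367_nt_h29.WINb
import Pool.Agent.Work.MP_b0c12c_nt_univ.PRU

/-!
# The almost sure statement
-/

set_option autoImplicit false

namespace Pool.Agent.Work.MP_3a3367_nt_h29

open Finset Filter Topology MeasureTheory ProbabilityTheory
open Pool.Agent.Work.MP_b0c12c_nt_univ (E1 EA ind IsLaw EA_mono EA_mono_on EA_le_const EA_sdiff
  ind_dependsOn ind_mono ind_of_mem ind_of_not_mem ind_nonneg resV resπ stmt_PRU)
open Pool.Agent.Work.MP_b0c12c_nt_univ.INUaux (Pr)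

/-- The integers `n ≥ 2` which are not congruent to `a p` modulo `p` for any prime `p ≤ √n`. -/
def Sieve (a : ℕ → ℤ) : Set ℕ :=
  {n | 2 ≤ n ∧ ∀ p : ℕ, p.Prime → p * p ≤ n → ¬ (n : ℤ) ≡ a p [ZMOD p]}

/-- the residue classes as natural numbers -/
def res {Ω : Type*} (a : ℕ → Ω → ℤ) (ω : Ω) : ℕ → ℕ := fun p => (a p ω % p).toNat

theorem res_modEq {Ω : Type*} {a : ℕ → Ω → ℤ} {p : ℕ} (hp : p.Prime) (ω : Ω) (n : ℕ) :
    n ≡ res a ω p [MOD p] ↔ (n : ℤ) ≡ a p ω [ZMOD p] := by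
  have hp0 : (0 : ℤ) < p := by exact_mod_cast hp.pos
  have h1 : ((res a ω p : ℕ) : ℤ) = a p ω % p := Int.toNat_of_nonneg (Int.emod_nonneg _ hp0.ne')
  rw [← Int.natCast_modEq_iff, h1]
  constructor
  · intro h; exact h.trans (Int.mod_modEq _ _)
  · intro h; exact h.trans (Int.mod_modEq _ _).symm

theorem mem_Pr {Y p : ℕ} (hp : p.Prime) : p ∈ Pr Y ↔ p ≤ Y := by
  unfold Pr
  rw [mem_filter, mem_Icc]
  constructor
  · rintro ⟨⟨_, h⟩, _⟩; exact h
  · intro h; exact ⟨⟨hp.one_lt.le, h⟩, hp⟩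

/-- all primes up to `Y` -/
theorem window_all {V : ℕ → Finset ℕ} {π : ℕ → ℕ → ℝ} (hL : IsLaw V π) (W X Y a : ℕ) (t δ : ℝ)
    (h : ∀ v : ℕ → ℕ, EA V π (PP W Y) (ind {w | NS (PP W Y) (Sv W X a v) w < t}) v ≤ δ)
    (v : ℕ → ℕ) :
    EA V π (Pr Y) (ind {w | NS (Pr Y) (Ico a (a + X)) w < t}) v ≤ δ := by
  classical
  have hsub : PP W Y ⊆ Pr Y := by
    intro p hp
    unfold PP at hp
    rw [mem_filter, mem_Ioc] at hp
    exact (mem_Pr hp.2).2 hp.1.2
  rw [EA_sdiff hsub]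
  apply EA_le_const hL.nonneg hL.sum_one
  intro v
  refine le_trans ?_ (h v)
  apply EA_mono_on hL.nonneg
  intro w hw1 _
  apply ind_mono
  intro hw
  have hw' : NS (Pr Y) (Ico a (a + X)) w < t := hw
  show NS (PP W Y) (Sv W X a v) w < t
  refine lt_of_le_of_lt ?_ hw'
  unfold NS
  have : ((Sv W X a v).filter fun m => ∀ p ∈ PP W Y, ¬ m ≡ w p [MOD p]).card ≤
      ((Ico a (a + X)).filter fun m => ∀ p ∈ Pr Y, ¬ m ≡ w p [MOD p]).card := by
    apply card_le_card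
    intro m hm
    unfold Sv at hm
    simp only [mem_filter] at hm
    obtain ⟨⟨h1, h2⟩, h3⟩ := hm
    rw [mem_filter]
    refine ⟨h1, fun p hp => ?_⟩
    by_cases hpP : p ∈ PP W Y
    · exact h3 p hpP
    · rw [hw1 p hpP]
      have hpp : p.Prime := by
        unfold Pr at hp
        exact (mem_filter.1 hp).2
      have hpY := (mem_Pr hpp).1 hp
      apply h2 p
      rw [mem_Pr hpp]
      by_contra hcon
      apply hpP
      unfold PP
      rw [mem_filter, mem_Ioc]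
      exact ⟨⟨by omega, hpY⟩, hpp⟩
  exact_mod_cast this

theorem NS_dep (P S : Finset ℕ) (t : ℝ) :
    DependsOn (ind {w : ℕ → ℕ | NS P S w < t}) (P : Set ℕ) := by
  classical
  apply ind_dependsOn
  intro v w hvw hv
  have hv' : NS P S v < t := hv
  show NS P S w < t
  refine lt_of_le_of_lt (le_of_eq ?_) hv'
  unfold NS
  congr 2
  apply filter_congr
  intro m _
  constructor
  · intro h p hp
    rw [hvw p hp]
    exact h p hp
  · intro h p hp
    rw [← hvw p hp]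
    exact h p hp

/-- the set of survivors in a window -/
def Win (A : Set ℕ) (c : ℝ) (n : ℕ) : Set ℕ := {m | n < m ∧ (m : ℝ) ≤ n + c * Real.sqrt n ∧ m ∈ A}

theorem win_finite (A : Set ℕ) (c : ℝ) (n : ℕ) : (Win A c n).Finite := by
  apply (Set.finite_Iic ⌊(n : ℝ) + c * Real.sqrt n⌋₊).subset
  rintro m ⟨_, h, _⟩
  exact Nat.le_floor h

variable {Ω : Type*} [MeasurableSpace Ω] {μ : Measure Ω} [IsProbabilityMeasure μ]
  {a : ℕ → Ω → ℤ}

theorem fin_aux (ha : ∀ p, Measurable (a p)) (hI : iIndepFun a μ) (η : ℝ) (hη0 : 0 < η)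
    (hη1 : η < 1)
    (hatom : ∀ᶠ p : ℕ in atTop, p.Prime → ∀ c : ℤ,
      μ.real {ω | a p ω ≡ c [ZMOD p]} ≤ 1 - (p : ℝ) ^ (-η)) (c0 ε : ℝ) (hc0 : 0 < c0)
    (hc03 : c0 ≤ 3) (hε : 0 < ε) :
    ∀ᵐ ω ∂μ, ∀ᶠ n : ℕ in atTop, (n : ℝ) ^ ((1 - η) / 2 - ε) ≤
      ((Win (Sieve fun p => a p ω) c0 n).ncard : ℝ) := by
  classical
  obtain ⟨hLaw, hPR⟩ := stmt_PRU μ a ha hI
  have hV : ∀ p : ℕ, p.Prime → ∀ b ∈ resV p, b < p := by
    intro p hp b hb
    unfold resV at hb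
    rw [if_pos hp, mem_range] at hb
    exact hb
  have hπ : ∃ P0 : ℕ, ∀ p : ℕ, p.Prime → P0 ≤ p → ∀ b ∈ resV p,
      resπ μ a p b ≤ 1 - (p : ℝ) ^ (-η) := by
    obtain ⟨P, hP⟩ := eventually_atTop.1 hatom
    refine ⟨P, fun p hp hPp c _ => ?_⟩
    unfold resπ
    rw [if_pos hp]
    refine le_trans (le_of_eq ?_) (hP p hPp hp c)
    congr 1
    ext ω
    simp only [Set.mem_ofPred_eq]
    rw [Int.modEq_comm, Int.modEq_iff_dvd]
  obtain ⟨n0, hn0⟩ := window hLaw hV η hη0 hη1 hπ (c0 / 2) ε (by positivity) hε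
  -- the events
  set X : ℕ → ℕ := fun n => ⌊c0 * Real.sqrt n⌋₊ with hX
  set Y : ℕ → ℕ := fun n => Nat.sqrt (n + X n) with hY
  set t : ℕ → ℝ := fun n => (n : ℝ) ^ ((1 - η) / 2 - ε) with ht
  set F : ℕ → Set (ℕ → ℕ) := fun n => {w | NS (Pr (Y n)) (Ico (n + 1) (n + 1 + X n)) w < t n} with hF
  obtain ⟨n1, hn1⟩ := eventually_atTop.1
    ((((Real.tendsto_sqrt_atTop.comp tendsto_natCast_atTop_atTop).eventually_ge_atTop
      (2 / c0 + 1))).and (eventually_ge_atTop n0))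
  have hprob : ∀ n, n1 ≤ n → μ.real {ω | res a ω ∈ F n} ≤ (n : ℝ) ^ (-2 : ℝ) := by
    intro n hn
    obtain ⟨hs1, hs2⟩ := hn1 n hn
    simp only [Function.comp_apply] at hs1
    set r : ℝ := Real.sqrt n with hr
    have hr0 : 0 < r := by
      have : 0 < 2 / c0 + 1 := by positivity
      linarith
    have hr2 : r * r = n := Real.mul_self_sqrt (Nat.cast_nonneg n)
    have hr1 : 1 ≤ r := by
      have : 0 < 2 / c0 := by positivity
      linarith
    have hcr : 2 ≤ c0 * r := by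
      have : 2 / c0 ≤ r := by linarith
      rw [div_le_iff₀ hc0] at this
      linarith
    have hX1 : c0 / 2 * r ≤ X n := by
      have := Nat.lt_floor_add_one (c0 * r)
      simp only [hX]
      linarith
    have hX2 : (X n : ℝ) ≤ c0 * r := Nat.floor_le (by positivity)
    have hY1 : (Y n : ℝ) ≤ 2 * r := by
      have h1 : Y n * Y n ≤ n + X n := Nat.sqrt_le _
      have h2 : (Y n : ℝ) * Y n ≤ n + X n := by exact_mod_cast h1
      have h3 : (Y n : ℝ) * Y n ≤ (2 * r) * (2 * r) := by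
        have : c0 * r ≤ 3 * r := mul_le_mul_of_nonneg_right hc03 hr0.le
        nlinarith
      exact (mul_self_le_mul_self_iff (Nat.cast_nonneg _) (by positivity)).2 h3
    obtain ⟨W, hW⟩ := hn0 n hs2
    have h1 := window_all hLaw W (X n) (Y n) (n + 1) (t n) _ (hW (X n) (Y n) hX1 hY1 (n + 1))
      (fun _ => 0)
    have h2 := (hPR (Pr (Y n)) (fun p hp => (mem_filter.1 hp).2) (F n) (NS_dep _ _ _)).2
    have h3 : {ω | res a ω ∈ F n} = {ω | (fun p => (a p ω % p).toNat) ∈ F n} := rfl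
    rw [h3, h2]
    exact h1
  -- Borel-Cantelli
  set s : ℕ → Set Ω := fun n => if n1 ≤ n then {ω | res a ω ∈ F n} else ∅ with hs
  have hsum : ∑' n, μ (s n) ≠ ⊤ := by
    have hle : ∀ n, μ (s n) ≤ ENNReal.ofReal ((n : ℝ) ^ (-2 : ℝ)) := by
      intro n
      simp only [hs]
      split_ifs with h
      · rw [← ofReal_measureReal]
        exact ENNReal.ofReal_le_ofReal (hprob n h)
      · simp
    have hsm : Summable fun n : ℕ => (n : ℝ) ^ (-2 : ℝ) := by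
      rw [Real.summable_nat_rpow]
      norm_num
    refine ne_top_of_le_ne_top ?_ (ENNReal.tsum_le_tsum hle)
    rw [← ENNReal.ofReal_tsum_of_nonneg (fun n => by positivity) hsm]
    exact ENNReal.ofReal_ne_top
  filter_upwards [ae_eventually_notMem hsum] with ω hω
  filter_upwards [hω, eventually_ge_atTop n1, eventually_ge_atTop 2] with n hn1' hn2 hn3
  simp only [hs, if_pos hn2] at hn1'
  have h1 : ¬ NS (Pr (Y n)) (Ico (n + 1) (n + 1 + X n)) (res a ω) < t n := hn1'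
  rw [not_lt] at h1
  refine h1.trans ?_
  unfold NS
  rw [← Set.ncard_coe_finset]
  have h2 : (((Ico (n + 1) (n + 1 + X n)).filter fun m => ∀ p ∈ Pr (Y n),
      ¬ m ≡ res a ω p [MOD p] : Finset ℕ) : Set ℕ) ⊆ Win (Sieve fun p => a p ω) c0 n := by
    intro m hm
    rw [Finset.mem_coe, mem_filter, mem_Ico] at hm
    obtain ⟨⟨h3, h4⟩, h5⟩ := hm
    refine ⟨by omega, ?_, by omega, ?_⟩
    · have h6 : (m : ℝ) ≤ n + X n := by exact_mod_cast (by omega : m ≤ n + X n)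
      have h7 : (X n : ℝ) ≤ c0 * Real.sqrt n := Nat.floor_le (by positivity)
      linarith
    · intro p hp hpm h6
      have h7 : p ≤ Y n := by
        rw [hY]
        apply Nat.le_sqrt.2
        omega
      exact h5 p ((mem_Pr hp).2 h7) ((res_modEq hp ω m).2 h6)
  exact_mod_cast Set.ncard_le_ncard h2 (win_finite _ _ _)

theorem fin (ha : ∀ p, Measurable (a p)) (hI : iIndepFun a μ) (η : ℝ) (hη0 : 0 < η)
    (hη1 : η < 1)
    (hatom : ∀ᶠ p : ℕ in atTop, p.Prime → ∀ c : ℤ,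
      μ.real {ω | a p ω ≡ c [ZMOD p]} ≤ 1 - (p : ℝ) ^ (-η)) :
    ∀ᵐ ω ∂μ, ∀ c ε : ℝ, 0 < c → 0 < ε → ∀ᶠ n : ℕ in atTop, (n : ℝ) ^ ((1 - η) / 2 - ε) ≤
      ((Win (Sieve fun p => a p ω) c n).ncard : ℝ) := by
  have h1 : ∀ᵐ ω ∂μ, ∀ i j : ℕ, ∀ᶠ n : ℕ in atTop, (n : ℝ) ^ ((1 - η) / 2 - 1 / ((j : ℝ) + 1)) ≤
      ((Win (Sieve fun p => a p ω) (1 / ((i : ℝ) + 1)) n).ncard : ℝ) := by
    rw [ae_all_iff]
    intro i
    rw [ae_all_iff]
    intro j
    apply fin_aux ha hI η hη0 hη1 hatom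
    · positivity
    · have hi : (0 : ℝ) ≤ i := Nat.cast_nonneg i
      rw [div_le_iff₀ (by positivity)]
      linarith
    · positivity
  filter_upwards [h1] with ω hω
  intro c ε hc hε
  obtain ⟨i, hi⟩ := exists_nat_one_div_lt hc
  obtain ⟨j, hj⟩ := exists_nat_one_div_lt hε
  filter_upwards [hω i j, eventually_ge_atTop 1] with n hn hn1
  have hn1' : (1 : ℝ) ≤ n := by exact_mod_cast hn1
  have h2 : (n : ℝ) ^ ((1 - η) / 2 - ε) ≤ (n : ℝ) ^ ((1 - η) / 2 - 1 / ((j : ℝ) + 1)) :=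
    Real.rpow_le_rpow_of_exponent_le hn1' (by linarith)
  refine h2.trans (hn.trans ?_)
  have h3 : Win (Sieve fun p => a p ω) (1 / ((i : ℝ) + 1)) n ⊆ Win (Sieve fun p => a p ω) c n := by
    rintro m ⟨h4, h5, h6⟩
    refine ⟨h4, ?_, h6⟩
    have h7 : 1 / ((i : ℝ) + 1) * Real.sqrt n ≤ c * Real.sqrt n :=
      mul_le_mul_of_nonneg_right hi.le (Real.sqrt_nonneg _)
    linarith
  exact_mod_cast Set.ncard_le_ncard h3 (win_finite _ _ _)

end Pool.Agent.Work.MP_3a3367_nt_h29
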