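import Mathlib
import Pool.Agent.Work.MP_3a3367_nt_h29.COVc
import Pool.Agent.Work.MP_3a3367_nt_h29.FIN

/-!
# Too little randomness: empty windows
-/

set_option autoImplicit false

namespace Pool.Agent.Work.MP_3a3367_nt_h29

open Finset Filter Topology MeasureTheory ProbabilityTheory

/-- the law of a bit which is on with probability `r` -/
noncomputable def bitLaw (r : ℝ) : Measure Bool :=
  ENNReal.ofReal (1 - r) • Measure.dirac false + ENNReal.ofReal r • Measure.dirac true

theorem bitLaw_prob {r : ℝ} (h0 : 0 ≤ r) (h1 : r ≤ 1) : IsProbabilityMeasure (bitLaw r) := by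
  refine ⟨?_⟩
  unfold bitLaw
  simp only [Measure.coe_add, Measure.coe_smul, Pi.add_apply, Pi.smul_apply, measure_univ,
    smul_eq_mul, mul_one]
  rw [← ENNReal.ofReal_add (by linarith) h0]
  simp

theorem bitLaw_true (r : ℝ) : bitLaw r {true} = ENNReal.ofReal r := by
  unfold bitLaw
  simp

theorem bitLaw_false (r : ℝ) : bitLaw r {false} = ENNReal.ofReal (1 - r) := by
  unfold bitLaw
  simp

theorem neg (η : ℝ) (hη : 1 < η) : ∃ (Ω : Type) (_ : MeasurableSpace Ω) (μ : Measure Ω)
    (_ : IsProbabilityMeasure μ) (a : ℕ → Ω → ℤ), (∀ p, Measurable (a p)) ∧ iIndepFun a μ ∧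
    (∀ p : ℕ, p.Prime → ∀ c : ℤ, μ.real {ω | a p ω ≡ c [ZMOD p]} ≤ 1 - (p : ℝ) ^ (-η)) ∧
    ∀ᵐ ω ∂μ, ∀ C : ℝ, ∃ᶠ k : ℕ in atTop, Win (Sieve fun p => a p ω) C ((2 * k + 1) ^ 2) = ∅ := by
  obtain ⟨c, hc⟩ := seq
  set r : ℕ → ℝ := fun p => if p.Prime then (p : ℝ) ^ (-η) else 0 with hr
  have hr0 : ∀ p, 0 ≤ r p := by
    intro p
    simp only [hr]
    split_ifs
    · positivity
    · exact le_rfl
  have hr12 : ∀ p, r p ≤ 1 / 2 := by
    intro p
    simp only [hr]
    split_ifs with hp
    · have hp2 : (2 : ℝ) ≤ p := by exact_mod_cast hp.two_le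
      calc (p : ℝ) ^ (-η) ≤ (p : ℝ) ^ (-1 : ℝ) :=
            Real.rpow_le_rpow_of_exponent_le (by linarith) (by linarith)
        _ = (p : ℝ)⁻¹ := Real.rpow_neg_one _
        _ ≤ 1 / 2 := by
            rw [one_div]
            exact inv_anti₀ (by norm_num) hp2
    · norm_num
  set P : ℕ → Measure Bool := fun p => bitLaw (r p) with hP
  have hPp : ∀ p, IsProbabilityMeasure (P p) := fun p => bitLaw_prob (hr0 p) (by linarith [hr12 p])
  set μ : Measure (ℕ → Bool) := Measure.infinitePi P with hμ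
  set X : ℕ → Bool → ℤ := fun p b => (c p : ℤ) + if b then 1 else 0 with hX
  have hXm : ∀ p, Measurable (X p) := fun p => measurable_of_countable _
  have hcoord : ∀ (p : ℕ) (s : Set Bool), μ {ω | ω p ∈ s} = P p s := by
    intro p s
    have h1 := Measure.infinitePi_map_eval P p
    have h2 : (Measure.map (fun x : ℕ → Bool => x p) μ) s = P p s := by rw [hμ, h1]
    rw [Measure.map_apply (measurable_pi_apply p) (Set.Countable.measurableSet (Set.to_countable s))] at h2
    exact h2
  refine ⟨ℕ → Bool, inferInstance, μ, inferInstance, fun p ω => X p (ω p), ?_, ?_, ?_, ?_⟩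
  · intro p
    exact (hXm p).comp (measurable_pi_apply p)
  · exact iIndepFun_infinitePi hXm
  · intro p hp b
    have hp2 := hp.two_le
    have hrp : r p = (p : ℝ) ^ (-η) := by simp only [hr, if_pos hp]
    by_cases hb : (c p : ℤ) ≡ b [ZMOD p]
    · have h1 : {ω : ℕ → Bool | X p (ω p) ≡ b [ZMOD p]} ⊆ {ω | ω p ∈ ({false} : Set Bool)} := by
        intro ω hω
        simp only [Set.mem_ofPred_eq, Set.mem_singleton_iff] at hω ⊢
        by_contra hcon
        rw [Bool.not_eq_false] at hcon
        simp only [hX, hcon, if_true] at hω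
        have h2 : (c p : ℤ) + 1 ≡ c p [ZMOD p] := hω.trans hb.symm
        have h3 := (Int.modEq_iff_dvd.1 h2)
        have h4 : ((c p : ℤ) - (c p + 1)) = -1 := by ring
        rw [h4, dvd_neg] at h3
        have h5 := Int.le_of_dvd one_pos h3
        omega
      have h2 : μ.real {ω | ω p ∈ ({false} : Set Bool)} = 1 - r p := by
        rw [measureReal_def, hcoord, hP]
        simp only
        rw [bitLaw_false, ENNReal.toReal_ofReal (by linarith [hr12 p])]
      calc μ.real {ω | X p (ω p) ≡ b [ZMOD p]} ≤ μ.real {ω | ω p ∈ ({false} : Set Bool)} :=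
            measureReal_mono h1
        _ = 1 - (p : ℝ) ^ (-η) := by rw [h2, hrp]
    · have h1 : {ω : ℕ → Bool | X p (ω p) ≡ b [ZMOD p]} ⊆ {ω | ω p ∈ ({true} : Set Bool)} := by
        intro ω hω
        simp only [Set.mem_ofPred_eq, Set.mem_singleton_iff] at hω ⊢
        by_contra hcon
        rw [Bool.not_eq_true] at hcon
        simp only [hX, hcon, Bool.false_eq_true, if_false, add_zero] at hω
        exact hb hω
      have h2 : μ.real {ω | ω p ∈ ({true} : Set Bool)} = r p := by
        rw [measureReal_def, hcoord, hP]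
        simp only
        rw [bitLaw_true, ENNReal.toReal_ofReal (hr0 p)]
      calc μ.real {ω | X p (ω p) ≡ b [ZMOD p]} ≤ μ.real {ω | ω p ∈ ({true} : Set Bool)} :=
            measureReal_mono h1
        _ = r p := h2
        _ ≤ 1 - (p : ℝ) ^ (-η) := by
            rw [← hrp]
            linarith [hr12 p]
  · -- Borel-Cantelli
    have hsum : ∑' p, μ {ω | ω p ∈ ({true} : Set Bool)} ≠ ⊤ := by
      have hle : ∀ p : ℕ, μ {ω | ω p ∈ ({true} : Set Bool)} ≤ ENNReal.ofReal ((p : ℝ) ^ (-η)) := by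
        intro p
        rw [hcoord, hP]
        simp only
        rw [bitLaw_true]
        apply ENNReal.ofReal_le_ofReal
        simp only [hr]
        split_ifs
        · exact le_rfl
        · positivity
      have hsm : Summable fun n : ℕ => (n : ℝ) ^ (-η) := by
        rw [Real.summable_nat_rpow]
        linarith
      refine ne_top_of_le_ne_top ?_ (ENNReal.tsum_le_tsum hle)
      rw [← ENNReal.ofReal_tsum_of_nonneg (fun n => by positivity) hsm]
      exact ENNReal.ofReal_ne_top
    filter_upwards [ae_eventually_notMem hsum] with ω hω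
    obtain ⟨K1, hK1⟩ := eventually_atTop.1 hω
    intro C
    rw [frequently_atTop]
    intro K
    obtain ⟨k, hk1, hk2⟩ := hc ⌈C⌉₊ (max K K1)
    refine ⟨k, le_trans (le_max_left _ _) hk1, ?_⟩
    rw [Set.eq_empty_iff_forall_notMem]
    rintro m ⟨h1, h2, h3, h4⟩
    have h5 : Real.sqrt (((2 * k + 1) ^ 2 : ℕ) : ℝ) = 2 * k + 1 := by
      push_cast
      exact Real.sqrt_sq (by positivity)
    rw [h5] at h2
    have h6 : (m : ℝ) ≤ (((2 * k + 1) ^ 2 + ⌈C⌉₊ * (2 * k + 1) : ℕ) : ℝ) := by
      refine h2.trans ?_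
      push_cast
      have h7 : C ≤ ⌈C⌉₊ := Nat.le_ceil C
      have h8 : C * (2 * (k : ℝ) + 1) ≤ ⌈C⌉₊ * (2 * (k : ℝ) + 1) :=
        mul_le_mul_of_nonneg_right h7 (by positivity)
      linarith
    obtain ⟨p, hp, hp1, hp2, hp3⟩ := hk2 m h1 (by exact_mod_cast h6)
    have hpK : K1 ≤ p := by
      have := le_max_right K K1
      omega
    have h9 := hK1 p hpK
    simp only [Set.mem_singleton_iff, Bool.not_eq_true] at h9
    apply h4 p hp
    · calc p * p ≤ (2 * k + 1) * (2 * k + 1) := Nat.mul_le_mul hp2 hp2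
        _ = (2 * k + 1) ^ 2 := by ring
        _ ≤ m := h1.le
    · simp only [hX, h9, Bool.false_eq_true, if_false, add_zero]
      exact (Int.natCast_modEq_iff).2 hp3

end Pool.Agent.Work.MP_3a3367_nt_h29
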